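import Mathlib

/-!
# EM checker, CK-2: absolute values of all digits by one `Nat.land`

`V = ∑_(j<J) d_j W^j`, `W = 2^w`, `|d_j| < 2^(w-1)`.  `U = V + 2^(w-1) ∑ W^j` has the digits `u_j = d_j + 2^(w-1)` in
`(0, W)`; the top bit of `u_j` says whether `d_j ≥ 0`.  `T = U &&& 2^(w-1) ∑ W^j = 2^(w-1) ∑_(d_j ≥ 0) W^j`;
`T - T / 2^(w-1) = ∑_(d_j ≥ 0) (2^(w-1) - 1) W^j`; `P = U &&& (T - T / 2^(w-1)) = ∑_(d_j ≥ 0) d_j W^j`;
`∑ |d_j| W^j = 2 P - V`.
-/

set_option autoImplicit false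

open Finset

namespace Pool.Agent.EM.Ck

/-- `∑_(j<J) W^j` -/
def gs (W J : ℕ) : ℕ := (W ^ J - 1) / (W - 1)

def absV (w J : ℕ) (V : ℤ) : ℕ :=
  let O := 2 ^ (w - 1) * gs (2 ^ w) J
  let U := (V + O).toNat
  let T := Nat.land U O
  let P := Nat.land U (T - T / 2 ^ (w - 1))
  (2 * (P : ℤ) - V).toNat

theorem gs_eq {W : ℕ} (hW : 2 ≤ W) (J : ℕ) : gs W J = ∑ j ∈ range J, W ^ j := by
  rw [gs, Nat.geomSum_eq hW]

theorem Abs_lt (w J : ℕ) (u : ℕ → ℕ) (hu : ∀ j, u j < 2 ^ w) :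
    ∑ j ∈ range J, u j * (2 ^ w) ^ j < (2 ^ w) ^ J := by
  induction J with
  | zero => simp
  | succ J ih =>
    rw [sum_range_succ, pow_succ]
    have h1 : u J * (2 ^ w) ^ J + (2 ^ w) ^ J ≤ 2 ^ w * (2 ^ w) ^ J := by
      have := Nat.mul_le_mul_right ((2 ^ w) ^ J) (Nat.succ_le_of_lt (hu J))
      rw [Nat.succ_mul] at this
      exact this
    rw [mul_comm ((2 ^ w) ^ J) (2 ^ w)]
    omega

theorem Abs_land_add (n a b a' b' : ℕ) (ha : a < 2 ^ n) (ha' : a' < 2 ^ n) :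
    Nat.land (a + b * 2 ^ n) (a' + b' * 2 ^ n) = Nat.land a a' + Nat.land b b' * 2 ^ n := by
  have e1 : a + b * 2 ^ n = 2 ^ n * b + a := by ring
  have e2 : a' + b' * 2 ^ n = 2 ^ n * b' + a' := by ring
  have e3 : Nat.land a a' + Nat.land b b' * 2 ^ n = 2 ^ n * Nat.land b b' + Nat.land a a' := by ring
  rw [e1, e2, e3]
  have h3 : Nat.land a a' < 2 ^ n := Nat.and_lt_two_pow a ha'
  apply Nat.eq_of_testBit_eq
  intro i
  rw [Nat.testBit_two_pow_mul_add _ h3]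
  have h4 : (Nat.land (2 ^ n * b + a) (2 ^ n * b' + a')).testBit i =
      ((2 ^ n * b + a).testBit i && (2 ^ n * b' + a').testBit i) := Nat.testBit_and _ _ _
  have h5 : ∀ j, (Nat.land a a').testBit j = (a.testBit j && a'.testBit j) :=
    fun j => Nat.testBit_and _ _ _
  have h6 : ∀ j, (Nat.land b b').testBit j = (b.testBit j && b'.testBit j) :=
    fun j => Nat.testBit_and _ _ _
  rw [h4, Nat.testBit_two_pow_mul_add _ ha, Nat.testBit_two_pow_mul_add _ ha', h5, h6]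
  split_ifs <;> rfl

/-- `Nat.land` acts digit by digit -/
theorem land_sum (w J : ℕ) (u m : ℕ → ℕ) (hu : ∀ j, u j < 2 ^ w) (hm : ∀ j, m j < 2 ^ w) :
    Nat.land (∑ j ∈ range J, u j * (2 ^ w) ^ j) (∑ j ∈ range J, m j * (2 ^ w) ^ j) =
      ∑ j ∈ range J, Nat.land (u j) (m j) * (2 ^ w) ^ j := by
  induction J with
  | zero => simp only [range_zero, sum_empty]; exact Nat.zero_and 0
  | succ J ih =>
    rw [sum_range_succ, sum_range_succ, sum_range_succ]
    have h1 := Abs_lt w J u hu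
    have h2 := Abs_lt w J m hm
    rw [← pow_mul] at h1 h2 ⊢
    rw [Abs_land_add _ _ _ _ _ h1 h2, ih]

theorem absV_eq {w : ℕ} (hw : 2 ≤ w) (J : ℕ) (d : ℕ → ℤ) (hd : ∀ j, |d j| < 2 ^ (w - 1)) :
    absV w J (∑ j ∈ range J, d j * ((2 : ℤ) ^ w) ^ j) = ∑ j ∈ range J, (d j).natAbs * (2 ^ w) ^ j := by
  obtain ⟨k, rfl⟩ : ∃ k, w = k + 1 := ⟨w - 1, by omega⟩
  simp only [Nat.add_sub_cancel] at hd
  set h : ℕ := 2 ^ k with hh
  have hW : (2 : ℕ) ^ (k + 1) = 2 * h := by rw [hh, pow_succ]; ring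
  have hWz : (2 : ℤ) ^ (k + 1) = ((2 * h : ℕ) : ℤ) := by rw [← hW]; push_cast; rfl
  have hhz : (2 : ℤ) ^ k = (h : ℤ) := by rw [hh]; push_cast; rfl
  have hpos : 1 ≤ h := Nat.one_le_two_pow
  have hd1 : ∀ j, -(h : ℤ) < d j := fun j => by
    have := hd j
    rw [hhz, abs_lt] at this
    exact this.1
  have hd2 : ∀ j, d j < (h : ℤ) := fun j => by
    have := hd j
    rw [hhz, abs_lt] at this
    exact this.2
  -- the digits
  set u : ℕ → ℕ := fun j => (d j + h).toNat with hu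
  have huz : ∀ j, ((u j : ℕ) : ℤ) = d j + h := fun j => by
    have := hd1 j
    rw [hu]
    exact Int.toNat_of_nonneg (by omega)
  have hul : ∀ j, u j < 2 ^ (k + 1) := fun j => by
    have h1 := huz j
    have h2 := hd2 j
    rw [hW]
    omega
  have hO : 2 ^ k * gs (2 ^ (k + 1)) J = ∑ j ∈ range J, h * (2 ^ (k + 1)) ^ j := by
    rw [gs_eq (by rw [hW]; omega), mul_sum]
  have hU : ((∑ j ∈ range J, d j * ((2 : ℤ) ^ (k + 1)) ^ j) +
      ((2 ^ k * gs (2 ^ (k + 1)) J : ℕ) : ℤ)).toNat = ∑ j ∈ range J, u j * (2 ^ (k + 1)) ^ j := by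
    rw [hO]
    have : (∑ j ∈ range J, d j * ((2 : ℤ) ^ (k + 1)) ^ j) +
        ((∑ j ∈ range J, h * (2 ^ (k + 1)) ^ j : ℕ) : ℤ) =
        ((∑ j ∈ range J, u j * (2 ^ (k + 1)) ^ j : ℕ) : ℤ) := by
      push_cast
      rw [← sum_add_distrib]
      refine sum_congr rfl fun j _ => ?_
      rw [huz j]
      ring
    rw [this, Int.toNat_natCast]
  -- the sign bits
  set s : ℕ → ℕ := fun j => if 0 ≤ d j then 1 else 0 with hs
  have hsl : ∀ j, s j ≤ 1 := fun j => by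
    rw [hs]
    simp only
    split_ifs <;> omega
  have hland : ∀ j, Nat.land (u j) h = h * s j := by
    intro j
    have h0 : Nat.land (u j) h = u j &&& 2 ^ k := rfl
    rw [h0, Nat.and_two_pow, hs]
    simp only
    by_cases hj : 0 ≤ d j
    · rw [if_pos hj]
      have h1 : (u j).testBit k = true := by
        have h2 : u j = 2 ^ k * 1 + (d j).toNat := by
          have h3 := huz j
          have h4 : ((d j).toNat : ℤ) = d j := Int.toNat_of_nonneg hj
          have h5 : (2 ^ k * 1 : ℕ) = h := by rw [hh, mul_one]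
          rw [h5]
          omega
        rw [h2, Nat.testBit_two_pow_mul_add _ (by
          have h4 : ((d j).toNat : ℤ) = d j := Int.toNat_of_nonneg hj
          have := hd2 j
          rw [← hh]
          omega)]
        simp
      rw [h1]
      simp [hh]
    · rw [if_neg hj]
      have h1 : (u j).testBit k = false := by
        apply Nat.testBit_lt_two_pow
        have h3 := huz j
        rw [← hh]
        omega
      rw [h1]
      simp
  have hT : Nat.land (∑ j ∈ range J, u j * (2 ^ (k + 1)) ^ j)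
      (∑ j ∈ range J, h * (2 ^ (k + 1)) ^ j) = h * ∑ j ∈ range J, s j * (2 ^ (k + 1)) ^ j := by
    rw [land_sum (k + 1) J u (fun _ => h) hul (fun _ => by rw [hW]; omega), mul_sum]
    refine sum_congr rfl fun j _ => ?_
    rw [hland j]
    ring
  have hTT : h * ∑ j ∈ range J, s j * (2 ^ (k + 1)) ^ j -
      h * (∑ j ∈ range J, s j * (2 ^ (k + 1)) ^ j) / h =
      ∑ j ∈ range J, (s j * (h - 1)) * (2 ^ (k + 1)) ^ j := by
    rw [Nat.mul_div_cancel_left _ (by omega : 0 < h)]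
    obtain ⟨t, ht⟩ : ∃ t, h = t + 1 := ⟨h - 1, by omega⟩
    have e1 : ∑ j ∈ range J, (s j * (h - 1)) * (2 ^ (k + 1)) ^ j =
        (h - 1) * ∑ j ∈ range J, s j * (2 ^ (k + 1)) ^ j := by
      rw [mul_sum]
      refine sum_congr rfl fun j _ => ?_
      ring
    rw [e1, ht, Nat.add_sub_cancel, add_mul, one_mul, Nat.add_sub_cancel]
  have hP : ∀ j, Nat.land (u j) (s j * (h - 1)) = (d j).toNat := by
    intro j
    rw [hs]
    simp only
    by_cases hj : 0 ≤ d j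
    · rw [if_pos hj, one_mul]
      have h0 : Nat.land (u j) (h - 1) = u j &&& (2 ^ k - 1) := rfl
      rw [h0, Nat.and_two_pow_sub_one_eq_mod, ← hh]
      have h3 := huz j
      have h4 : ((d j).toNat : ℤ) = d j := Int.toNat_of_nonneg hj
      have h5 := hd2 j
      have h6 : u j = (d j).toNat + h := by omega
      rw [h6, Nat.add_mod_right, Nat.mod_eq_of_lt (by omega)]
    · rw [if_neg hj, zero_mul]
      have h0 : Nat.land (u j) 0 = u j &&& 0 := rfl
      rw [h0, Nat.and_zero]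
      omega
  have hPP : Nat.land (∑ j ∈ range J, u j * (2 ^ (k + 1)) ^ j)
      (∑ j ∈ range J, (s j * (h - 1)) * (2 ^ (k + 1)) ^ j) =
      ∑ j ∈ range J, (d j).toNat * (2 ^ (k + 1)) ^ j := by
    rw [land_sum (k + 1) J u (fun j => s j * (h - 1)) hul (fun j => by
      have h1 : s j * (h - 1) ≤ 1 * (h - 1) := Nat.mul_le_mul_right _ (hsl j)
      rw [hW]
      omega)]
    refine sum_congr rfl fun j _ => ?_
    rw [hP j]
  have hfin : (2 * ((∑ j ∈ range J, (d j).toNat * (2 ^ (k + 1)) ^ j : ℕ) : ℤ) -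
      ∑ j ∈ range J, d j * ((2 : ℤ) ^ (k + 1)) ^ j) =
      ((∑ j ∈ range J, (d j).natAbs * (2 ^ (k + 1)) ^ j : ℕ) : ℤ) := by
    push_cast
    rw [mul_sum, ← sum_sub_distrib]
    refine sum_congr rfl fun j _ => ?_
    have h1 : 2 * ((d j).toNat : ℤ) - d j = |d j| := by
      rcases le_total 0 (d j) with h2 | h2
      · rw [Int.toNat_of_nonneg h2, abs_of_nonneg h2]
        ring
      · rw [Int.toNat_of_nonpos h2, abs_of_nonpos h2]
        push_cast
        ring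
    rw [← h1]
    ring
  have hfold : absV (k + 1) J (∑ j ∈ range J, d j * ((2 : ℤ) ^ (k + 1)) ^ j) =
      (2 * ((Nat.land
        ((∑ j ∈ range J, d j * ((2 : ℤ) ^ (k + 1)) ^ j) +
          ((2 ^ k * gs (2 ^ (k + 1)) J : ℕ) : ℤ)).toNat
        (Nat.land
          ((∑ j ∈ range J, d j * ((2 : ℤ) ^ (k + 1)) ^ j) +
            ((2 ^ k * gs (2 ^ (k + 1)) J : ℕ) : ℤ)).toNat
          (2 ^ k * gs (2 ^ (k + 1)) J) -
        Nat.land
          ((∑ j ∈ range J, d j * ((2 : ℤ) ^ (k + 1)) ^ j) +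
            ((2 ^ k * gs (2 ^ (k + 1)) J : ℕ) : ℤ)).toNat
          (2 ^ k * gs (2 ^ (k + 1)) J) / 2 ^ k) : ℕ) : ℤ) -
        ∑ j ∈ range J, d j * ((2 : ℤ) ^ (k + 1)) ^ j).toNat := rfl
  rw [hfold, hU, hO, hT, ← hh, hTT, hPP, hfin, Int.toNat_natCast]

end Pool.Agent.EM.Ck
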