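import Mathlib

/-!
# EM checker, CK-3: weighted digit sums by division with `Y - 1`

`∑ a_n Y^n = S_0 + (Y-1) (S_1 + (Y-1) (S_2 + (Y-1) (S_3 + (Y-1) q)))`, `S_k = ∑ C(n,k) a_n` (induction on the number of
terms, peeling off the lowest one with `Finset.sum_range_succ'`, `Nat.choose_succ_succ`).
-/

set_option autoImplicit false

open Finset

namespace Pool.Agent.EM.Ck

theorem chain_pow (Y1 n : ℕ) : ∃ q : ℕ, (Y1 + 1) ^ n =
    1 + Y1 * (n + Y1 * (n.choose 2 + Y1 * (n.choose 3 + Y1 * q))) := by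
  induction n with
  | zero => exact ⟨0, by simp⟩
  | succ n ih =>
    obtain ⟨q, hq⟩ := ih
    refine ⟨n.choose 3 + q + Y1 * q, ?_⟩
    have h2 : (n + 1).choose 2 = n + n.choose 2 := by
      rw [Nat.choose_succ_succ' n 1, Nat.choose_one_right]
    have h3 : (n + 1).choose 3 = n.choose 2 + n.choose 3 := by
      rw [Nat.choose_succ_succ' n 2]
    rw [pow_succ, hq, h2, h3]
    ring

theorem chain (N Y1 : ℕ) (a : ℕ → ℕ) : ∃ q : ℕ, ∑ n ∈ range N, a n * (Y1 + 1) ^ n =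
    (∑ n ∈ range N, a n) + Y1 * ((∑ n ∈ range N, n * a n) + Y1 * ((∑ n ∈ range N, n.choose 2 * a n) +
      Y1 * ((∑ n ∈ range N, n.choose 3 * a n) + Y1 * q))) := by
  choose q hq using chain_pow Y1
  refine ⟨∑ n ∈ range N, q n * a n, ?_⟩
  simp only [Finset.mul_sum, ← Finset.sum_add_distrib]
  refine Finset.sum_congr rfl fun n _ => ?_
  rw [hq n]
  ring

theorem chain_dsum_lt {W : ℕ} (k : ℕ) (d : ℕ → ℕ) (h : ∀ i < k, d i < W) :
    ∑ i ∈ range k, d i * W ^ i < W ^ k := by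
  induction k with
  | zero => simp
  | succ k ih =>
    have h1 := ih fun i hi => h i (by omega)
    have h2 := h k (by omega)
    rw [Finset.sum_range_succ]
    calc ∑ i ∈ range k, d i * W ^ i + d k * W ^ k < W ^ k + d k * W ^ k := by omega
      _ = (d k + 1) * W ^ k := by ring
      _ ≤ W * W ^ k := Nat.mul_le_mul_right _ h2
      _ = W ^ (k + 1) := by ring

theorem chain_pow_modEq {W : ℕ} (hW : 2 ≤ W) (i : ℕ) : W ^ i ≡ 1 [MOD W - 1] := by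
  have h1 : W ≡ 1 [MOD W - 1] := by
    have : (W - 1) + 1 ≡ 0 + 1 [MOD W - 1] := by
      apply Nat.ModEq.add_right
      simp [Nat.ModEq]
    rwa [show W - 1 + 1 = W by omega, zero_add] at this
  simpa using h1.pow i

/-- weighted sums of low digits -/
theorem chain_key {W Nx N : ℕ} (hW : 2 ≤ W) (hNx : 0 < Nx) (a : ℕ → ℕ → ℕ)
    (h0 : ∑ n ∈ range N, ∑ i ∈ range Nx, a n i < W - 1) :
    ∑ n ∈ range N, ∑ i ∈ range Nx, a n i * W ^ i < W ^ Nx - 1 ∧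
    (∑ n ∈ range N, ∑ i ∈ range Nx, a n i * W ^ i) % (W - 1) = ∑ n ∈ range N, ∑ i ∈ range Nx, a n i := by
  constructor
  · have h1 : ∑ n ∈ range N, ∑ i ∈ range Nx, a n i * W ^ i ≤
        (∑ n ∈ range N, ∑ i ∈ range Nx, a n i) * W ^ (Nx - 1) := by
      rw [Finset.sum_mul]
      refine Finset.sum_le_sum fun n _ => ?_
      rw [Finset.sum_mul]
      refine Finset.sum_le_sum fun i hi => ?_
      have hi' := Finset.mem_range.1 hi
      exact Nat.mul_le_mul_left _ (Nat.pow_le_pow_right (by omega) (by omega))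
    have h2 : (∑ n ∈ range N, ∑ i ∈ range Nx, a n i) * W ^ (Nx - 1) + 2 * W ^ (Nx - 1) ≤ W ^ Nx := by
      have h3 : W ^ Nx = W * W ^ (Nx - 1) := by
        rw [← pow_succ', Nat.sub_add_cancel hNx]
      rw [h3, ← add_mul]
      exact Nat.mul_le_mul_right _ (by omega)
    have h4 : 0 < W ^ (Nx - 1) := Nat.pow_pos (by omega)
    omega
  · have h1 : (∑ n ∈ range N, ∑ i ∈ range Nx, a n i * W ^ i) ≡
        ∑ n ∈ range N, ∑ i ∈ range Nx, a n i [MOD W - 1] := by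
      refine Nat.ModEq.sum fun n _ => Nat.ModEq.sum fun i _ => ?_
      simpa using (chain_pow_modEq hW i).mul_left (a n i)
    rw [h1, Nat.mod_eq_of_lt h0]

/-- `S_0, S_1, S_2, S_3` of a number `Z` in base `Y = Y1 + 1`, each reduced modulo `W1` -/
def mom (Y1 W1 Z : ℕ) : ℕ × ℕ × ℕ × ℕ :=
  (Z % Y1 % W1, Z / Y1 % Y1 % W1, Z / Y1 / Y1 % Y1 % W1, Z / Y1 / Y1 / Y1 % Y1 % W1)

theorem chain_mod {S Y1 R : ℕ} (h : S < Y1) : (S + Y1 * R) % Y1 = S := by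
  rw [Nat.add_mul_mod_self_left, Nat.mod_eq_of_lt h]

theorem chain_div {S Y1 R : ℕ} (h : S < Y1) : (S + Y1 * R) / Y1 = R := by
  rw [Nat.add_mul_div_left _ _ (by omega), Nat.div_eq_of_lt h, zero_add]

/-- two levels: digits in base `Y = W^Nx` whose digits in base `W` are `a n i` -/
theorem mom_eq {W Nx N : ℕ} (hW : 2 ≤ W) (hNx : 0 < Nx) (a : ℕ → ℕ → ℕ)
    (h0 : ∑ n ∈ range N, ∑ i ∈ range Nx, a n i < W - 1)
    (h1 : ∑ n ∈ range N, ∑ i ∈ range Nx, n * a n i < W - 1)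
    (h2 : ∑ n ∈ range N, ∑ i ∈ range Nx, n.choose 2 * a n i < W - 1)
    (h3 : ∑ n ∈ range N, ∑ i ∈ range Nx, n.choose 3 * a n i < W - 1) :
    mom (W ^ Nx - 1) (W - 1) (∑ n ∈ range N, ∑ i ∈ range Nx, a n i * W ^ i * (W ^ Nx) ^ n) =
      (∑ n ∈ range N, ∑ i ∈ range Nx, a n i, ∑ n ∈ range N, ∑ i ∈ range Nx, n * a n i,
        ∑ n ∈ range N, ∑ i ∈ range Nx, n.choose 2 * a n i, ∑ n ∈ range N, ∑ i ∈ range Nx, n.choose 3 * a n i) := by
  have hY : W ^ Nx - 1 + 1 = W ^ Nx := Nat.sub_add_cancel (Nat.pow_pos (by omega))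
  obtain ⟨q, hq⟩ := chain N (W ^ Nx - 1) fun n => ∑ i ∈ range Nx, a n i * W ^ i
  rw [hY] at hq
  have hZ : ∑ n ∈ range N, ∑ i ∈ range Nx, a n i * W ^ i * (W ^ Nx) ^ n =
      ∑ n ∈ range N, (∑ i ∈ range Nx, a n i * W ^ i) * (W ^ Nx) ^ n := by
    refine Finset.sum_congr rfl fun n _ => ?_
    rw [Finset.sum_mul]
  have e : ∀ c : ℕ → ℕ, ∑ n ∈ range N, c n * ∑ i ∈ range Nx, a n i * W ^ i =
      ∑ n ∈ range N, ∑ i ∈ range Nx, c n * a n i * W ^ i := by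
    intro c
    refine Finset.sum_congr rfl fun n _ => ?_
    rw [Finset.mul_sum]
    refine Finset.sum_congr rfl fun i _ => ?_
    ring
  obtain ⟨k0, m0⟩ := chain_key hW hNx a h0
  obtain ⟨k1, m1⟩ := chain_key hW hNx (fun n i => n * a n i) h1
  obtain ⟨k2, m2⟩ := chain_key hW hNx (fun n i => n.choose 2 * a n i) h2
  obtain ⟨k3, m3⟩ := chain_key hW hNx (fun n i => n.choose 3 * a n i) h3
  rw [hZ, hq, e fun n => n, e fun n => n.choose 2, e fun n => n.choose 3]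
  unfold mom
  rw [chain_div k0, chain_div k1, chain_div k2, chain_mod k0, chain_mod k1, chain_mod k2, chain_mod k3,
    m0, m1, m2, m3]

/-- the total sum -/
def n0 (W Z : ℕ) : ℕ := Z % (W - 1)

theorem n0_eq {W Nx N : ℕ} (hW : 2 ≤ W) (a : ℕ → ℕ → ℕ)
    (h0 : ∑ n ∈ range N, ∑ i ∈ range Nx, a n i < W - 1) :
    n0 W (∑ n ∈ range N, ∑ i ∈ range Nx, a n i * W ^ i * (W ^ Nx) ^ n) =
      ∑ n ∈ range N, ∑ i ∈ range Nx, a n i := by
  unfold n0
  have h1 : (∑ n ∈ range N, ∑ i ∈ range Nx, a n i * W ^ i * (W ^ Nx) ^ n) ≡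
      ∑ n ∈ range N, ∑ i ∈ range Nx, a n i [MOD W - 1] := by
    refine Nat.ModEq.sum fun n _ => Nat.ModEq.sum fun i _ => ?_
    have h2 := (chain_pow_modEq hW (i + Nx * n)).mul_left (a n i)
    rwa [mul_one, pow_add, pow_mul, ← mul_assoc] at h2
  rw [h1, Nat.mod_eq_of_lt h0]

/-- the sum with weights `i` -/
def nX (W Nx Z : ℕ) : ℕ := Z % (W ^ Nx - 1) / (W - 1) % (W - 1)

theorem nX_eq {W Nx N : ℕ} (hW : 2 ≤ W) (hNx : 0 < Nx) (a : ℕ → ℕ → ℕ)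
    (h0 : ∑ n ∈ range N, ∑ i ∈ range Nx, a n i < W - 1)
    (h1 : ∑ n ∈ range N, ∑ i ∈ range Nx, i * a n i < W - 1) :
    nX W Nx (∑ n ∈ range N, ∑ i ∈ range Nx, a n i * W ^ i * (W ^ Nx) ^ n) =
      ∑ n ∈ range N, ∑ i ∈ range Nx, i * a n i := by
  unfold nX
  obtain ⟨k0, -⟩ := chain_key hW hNx a h0
  have hY : 2 ≤ W ^ Nx := le_trans hW (Nat.le_self_pow (by omega) W)
  have hm : (∑ n ∈ range N, ∑ i ∈ range Nx, a n i * W ^ i * (W ^ Nx) ^ n) ≡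
      ∑ n ∈ range N, ∑ i ∈ range Nx, a n i * W ^ i [MOD W ^ Nx - 1] := by
    refine Nat.ModEq.sum fun n _ => Nat.ModEq.sum fun i _ => ?_
    simpa using (chain_pow_modEq hY n).mul_left (a n i * W ^ i)
  rw [hm, Nat.mod_eq_of_lt k0]
  have hs : ∑ n ∈ range N, ∑ i ∈ range Nx, a n i * W ^ i =
      ∑ i ∈ range Nx, (∑ n ∈ range N, a n i) * W ^ i := by
    rw [Finset.sum_comm]
    refine Finset.sum_congr rfl fun i _ => ?_
    rw [Finset.sum_mul]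
  have hW1 : W - 1 + 1 = W := by omega
  obtain ⟨q, hq⟩ := chain Nx (W - 1) fun i => ∑ n ∈ range N, a n i
  rw [hW1] at hq
  rw [hs, hq]
  have e0 : ∑ i ∈ range Nx, ∑ n ∈ range N, a n i = ∑ n ∈ range N, ∑ i ∈ range Nx, a n i := Finset.sum_comm
  have e1 : ∑ i ∈ range Nx, i * ∑ n ∈ range N, a n i = ∑ n ∈ range N, ∑ i ∈ range Nx, i * a n i := by
    rw [Finset.sum_comm]
    refine Finset.sum_congr rfl fun i _ => ?_
    rw [Finset.mul_sum]
  rw [e0, e1, chain_div h0, Nat.add_mul_mod_self_left, Nat.mod_eq_of_lt h1]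

theorem chain_split {W Nx N M : ℕ} (hM : M ≤ N) (a : ℕ → ℕ → ℕ) :
    ∑ n ∈ range N, ∑ i ∈ range Nx, a n i * W ^ i * (W ^ Nx) ^ n =
      ∑ n ∈ range M, ∑ i ∈ range Nx, a n i * W ^ i * (W ^ Nx) ^ n +
      (W ^ Nx) ^ M * ∑ n ∈ range (N - M), ∑ i ∈ range Nx, a (n + M) i * W ^ i * (W ^ Nx) ^ n := by
  have h : N = M + (N - M) := by omega
  conv_lhs => rw [h]
  rw [Finset.sum_range_add]
  congr 1
  rw [Finset.mul_sum]
  refine Finset.sum_congr rfl fun n _ => ?_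
  rw [Finset.mul_sum]
  refine Finset.sum_congr rfl fun i _ => ?_
  rw [Nat.add_comm M n, pow_add]
  ring

theorem chain_lo_lt {W Nx M : ℕ} (a : ℕ → ℕ → ℕ) (ha : ∀ n < M, ∀ i < Nx, a n i < W) :
    ∑ n ∈ range M, ∑ i ∈ range Nx, a n i * W ^ i * (W ^ Nx) ^ n < (W ^ Nx) ^ M := by
  have h1 : ∑ n ∈ range M, ∑ i ∈ range Nx, a n i * W ^ i * (W ^ Nx) ^ n =
      ∑ n ∈ range M, (∑ i ∈ range Nx, a n i * W ^ i) * (W ^ Nx) ^ n := by
    refine Finset.sum_congr rfl fun n _ => ?_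
    rw [Finset.sum_mul]
  rw [h1]
  refine chain_dsum_lt M _ fun n hn => ?_
  exact chain_dsum_lt Nx _ fun i hi => ha n hn i hi

/-- the number `Z` split at the mode `M` -/
theorem split_div {W Nx N M : ℕ} (hW : 2 ≤ W) (hM : M ≤ N) (a : ℕ → ℕ → ℕ)
    (ha : ∀ n < N, ∀ i < Nx, a n i < W) :
    (∑ n ∈ range N, ∑ i ∈ range Nx, a n i * W ^ i * (W ^ Nx) ^ n) / (W ^ Nx) ^ M =
      ∑ n ∈ range (N - M), ∑ i ∈ range Nx, a (n + M) i * W ^ i * (W ^ Nx) ^ n := by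
  rw [chain_split hM a, chain_div (chain_lo_lt a fun n hn => ha n (by omega))]

theorem split_mod {W Nx N M : ℕ} (hW : 2 ≤ W) (hM : M ≤ N) (a : ℕ → ℕ → ℕ)
    (ha : ∀ n < N, ∀ i < Nx, a n i < W) :
    (∑ n ∈ range N, ∑ i ∈ range Nx, a n i * W ^ i * (W ^ Nx) ^ n) % (W ^ Nx) ^ M =
      ∑ n ∈ range M, ∑ i ∈ range Nx, a n i * W ^ i * (W ^ Nx) ^ n := by
  rw [chain_split hM a, chain_mod (chain_lo_lt a fun n hn => ha n (by omega))]

/-- the sums with weights `|n - M|`, `|n - M|²`, `|n - M|³` -/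
def nD (W Nx M Z : ℕ) : ℤ × ℤ × ℤ :=
  let hi := mom (W ^ Nx - 1) (W - 1) (Z / (W ^ Nx) ^ M)
  let lo := mom (W ^ Nx - 1) (W - 1) (Z % (W ^ Nx) ^ M)
  ((hi.2.1 : ℤ) + M * lo.1 - lo.2.1,
    2 * (hi.2.2.1 : ℤ) + hi.2.1 + (M : ℤ) * M * lo.1 - 2 * M * lo.2.1 + (2 * lo.2.2.1 + lo.2.1),
    6 * (hi.2.2.2 : ℤ) + 6 * hi.2.2.1 + hi.2.1 + (M : ℤ) * M * M * lo.1 - 3 * (M * M) * lo.2.1 +
      3 * M * (2 * lo.2.2.1 + lo.2.1) - (6 * lo.2.2.2 + 6 * lo.2.2.1 + lo.2.1))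

theorem chain_sq (n : ℕ) : (n : ℤ) ^ 2 = 2 * (n.choose 2 : ℤ) + n := by
  induction n with
  | zero => simp
  | succ n ih =>
    have h2 : (n + 1).choose 2 = n + n.choose 2 := by
      rw [Nat.choose_succ_succ' n 1, Nat.choose_one_right]
    rw [h2]
    push_cast
    linarith [ih]

theorem chain_cu (n : ℕ) : (n : ℤ) ^ 3 = 6 * (n.choose 3 : ℤ) + 6 * (n.choose 2 : ℤ) + n := by
  induction n with
  | zero => simp
  | succ n ih =>
    have h2 : (n + 1).choose 2 = n + n.choose 2 := by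
      rw [Nat.choose_succ_succ' n 1, Nat.choose_one_right]
    have h3 : (n + 1).choose 3 = n.choose 2 + n.choose 3 := by
      rw [Nat.choose_succ_succ' n 2]
    rw [h2, h3]
    push_cast
    linarith [ih, chain_sq n]

/-- sums with bounded weights -/
theorem chain_wt_lt {W Nx N K : ℕ} (a : ℕ → ℕ → ℕ) (c : ℕ → ℕ) (hc : ∀ n < K, c n ≤ N ^ 3)
    (h : N ^ 3 * ∑ n ∈ range K, ∑ i ∈ range Nx, a n i < W - 1) :
    ∑ n ∈ range K, ∑ i ∈ range Nx, c n * a n i < W - 1 := by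
  refine lt_of_le_of_lt ?_ h
  rw [Finset.mul_sum]
  refine Finset.sum_le_sum fun n hn => ?_
  rw [Finset.mul_sum]
  refine Finset.sum_le_sum fun i _ => ?_
  exact Nat.mul_le_mul_right _ (hc n (Finset.mem_range.1 hn))

theorem chain_mom_cube {W Nx N K : ℕ} (hW : 2 ≤ W) (hNx : 0 < Nx) (hK : K ≤ N) (a : ℕ → ℕ → ℕ)
    (h : N ^ 3 * ∑ n ∈ range K, ∑ i ∈ range Nx, a n i < W - 1) :
    mom (W ^ Nx - 1) (W - 1) (∑ n ∈ range K, ∑ i ∈ range Nx, a n i * W ^ i * (W ^ Nx) ^ n) =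
      (∑ n ∈ range K, ∑ i ∈ range Nx, a n i, ∑ n ∈ range K, ∑ i ∈ range Nx, n * a n i,
        ∑ n ∈ range K, ∑ i ∈ range Nx, n.choose 2 * a n i, ∑ n ∈ range K, ∑ i ∈ range Nx, n.choose 3 * a n i) := by
  have hb : ∀ n < K, n ≤ N ^ 3 ∧ n.choose 2 ≤ N ^ 3 ∧ n.choose 3 ≤ N ^ 3 ∧ 1 ≤ N ^ 3 := by
    intro n hn
    have hn' : n ≤ N := by omega
    have hN : 1 ≤ N := by omega
    refine ⟨le_trans hn' (Nat.le_self_pow (by omega) N), ?_, ?_, Nat.one_le_pow _ _ hN⟩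
    · calc n.choose 2 ≤ n ^ 2 := Nat.choose_le_pow n 2
        _ ≤ N ^ 2 := Nat.pow_le_pow_left hn' 2
        _ ≤ N ^ 3 := Nat.pow_le_pow_right hN (by omega)
    · calc n.choose 3 ≤ n ^ 3 := Nat.choose_le_pow n 3
        _ ≤ N ^ 3 := Nat.pow_le_pow_left hn' 3
  refine mom_eq hW hNx a ?_ ?_ ?_ ?_
  · have := chain_wt_lt a (fun _ => 1) (fun n hn => (hb n hn).2.2.2) h
    simpa using this
  · exact chain_wt_lt a (fun n => n) (fun n hn => (hb n hn).1) h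
  · exact chain_wt_lt a (fun n => n.choose 2) (fun n hn => (hb n hn).2.1) h
  · exact chain_wt_lt a (fun n => n.choose 3) (fun n hn => (hb n hn).2.2.1) h

theorem nD_eq {W Nx N M : ℕ} (hW : 2 ≤ W) (hNx : 0 < Nx) (hM : M ≤ N) (a : ℕ → ℕ → ℕ)
    (h : N ^ 3 * ∑ n ∈ range N, ∑ i ∈ range Nx, a n i < W - 1) :
    nD W Nx M (∑ n ∈ range N, ∑ i ∈ range Nx, a n i * W ^ i * (W ^ Nx) ^ n) =
      (∑ n ∈ range N, ∑ i ∈ range Nx, |(n : ℤ) - M| * a n i,
        ∑ n ∈ range N, ∑ i ∈ range Nx, |(n : ℤ) - M| ^ 2 * a n i,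
        ∑ n ∈ range N, ∑ i ∈ range Nx, |(n : ℤ) - M| ^ 3 * a n i) := by
  have ha : ∀ n < N, ∀ i < Nx, a n i < W := by
    intro n hn i hi
    have h1 : a n i ≤ ∑ i ∈ range Nx, a n i :=
      Finset.single_le_sum (f := fun i => a n i) (fun _ _ => Nat.zero_le _) (Finset.mem_range.2 hi)
    have h2 : ∑ i ∈ range Nx, a n i ≤ ∑ n ∈ range N, ∑ i ∈ range Nx, a n i :=
      Finset.single_le_sum (f := fun n => ∑ i ∈ range Nx, a n i) (fun _ _ => Nat.zero_le _) (Finset.mem_range.2 hn)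
    have h3 : 1 * ∑ n ∈ range N, ∑ i ∈ range Nx, a n i ≤ N ^ 3 * ∑ n ∈ range N, ∑ i ∈ range Nx, a n i :=
      Nat.mul_le_mul_right _ (Nat.one_le_pow _ _ (by omega))
    omega
  have hsp : ∑ n ∈ range N, ∑ i ∈ range Nx, a n i = ∑ n ∈ range M, ∑ i ∈ range Nx, a n i +
      ∑ n ∈ range (N - M), ∑ i ∈ range Nx, a (n + M) i := by
    have e : N = M + (N - M) := by omega
    conv_lhs => rw [e]
    rw [Finset.sum_range_add]
    simp only [Nat.add_comm M]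
  have hlo : N ^ 3 * ∑ n ∈ range M, ∑ i ∈ range Nx, a n i < W - 1 := by
    refine lt_of_le_of_lt (Nat.mul_le_mul_left _ ?_) h
    omega
  have hhi : N ^ 3 * ∑ n ∈ range (N - M), ∑ i ∈ range Nx, a (n + M) i < W - 1 := by
    refine lt_of_le_of_lt (Nat.mul_le_mul_left _ ?_) h
    omega
  have mlo := chain_mom_cube hW hNx hM a hlo
  have mhi := chain_mom_cube hW hNx (Nat.sub_le N M) (fun n i => a (n + M) i) hhi
  have key : ∀ f : ℤ → ℤ, ∑ n ∈ range N, ∑ i ∈ range Nx, f |(n : ℤ) - M| * a n i =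
      ∑ n ∈ range (N - M), ∑ i ∈ range Nx, f n * (a (n + M) i : ℤ) +
      ∑ n ∈ range M, ∑ i ∈ range Nx, f ((M : ℤ) - n) * (a n i : ℤ) := by
    intro f
    have e : N = M + (N - M) := by omega
    conv_lhs => rw [e]
    rw [Finset.sum_range_add, add_comm]
    congr 1
    · refine Finset.sum_congr rfl fun n _ => Finset.sum_congr rfl fun i _ => ?_
      rw [Nat.add_comm M n]
      have : ((n + M : ℕ) : ℤ) - M = n := by push_cast; ring
      rw [this, abs_of_nonneg (Int.natCast_nonneg n)]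
    · refine Finset.sum_congr rfl fun n hn => Finset.sum_congr rfl fun i _ => ?_
      have hn' := Finset.mem_range.1 hn
      rw [abs_sub_comm, abs_of_nonneg (by omega)]
  have k1 := key fun x => x
  have k2 := key fun x => x ^ 2
  have k3 := key fun x => x ^ 3
  unfold nD
  rw [split_div hW hM a ha, split_mod hW hM a ha, mlo, mhi, k1, k2, k3]
  simp only [Prod.mk.injEq]
  push_cast
  refine ⟨?_, ?_, ?_⟩
  · rw [Finset.mul_sum, add_sub_assoc, ← Finset.sum_sub_distrib]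
    congr 1
    refine Finset.sum_congr rfl fun n _ => ?_
    rw [Finset.mul_sum, ← Finset.sum_sub_distrib]
    refine Finset.sum_congr rfl fun i _ => ?_
    ring
  · have e1 : ∑ n ∈ range (N - M), ∑ i ∈ range Nx, (n : ℤ) ^ 2 * (a (n + M) i : ℤ) =
        2 * ∑ n ∈ range (N - M), ∑ i ∈ range Nx, (n.choose 2 : ℤ) * (a (n + M) i : ℤ) +
        ∑ n ∈ range (N - M), ∑ i ∈ range Nx, (n : ℤ) * (a (n + M) i : ℤ) := by
      simp only [Finset.mul_sum, ← Finset.sum_add_distrib]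
      refine Finset.sum_congr rfl fun n _ => Finset.sum_congr rfl fun i _ => ?_
      rw [chain_sq n]
      ring
    have e2 : ∑ n ∈ range M, ∑ i ∈ range Nx, ((M : ℤ) - n) ^ 2 * (a n i : ℤ) =
        (M : ℤ) * M * ∑ n ∈ range M, ∑ i ∈ range Nx, (a n i : ℤ) -
        2 * M * ∑ n ∈ range M, ∑ i ∈ range Nx, (n : ℤ) * (a n i : ℤ) +
        (2 * ∑ n ∈ range M, ∑ i ∈ range Nx, (n.choose 2 : ℤ) * (a n i : ℤ) +
          ∑ n ∈ range M, ∑ i ∈ range Nx, (n : ℤ) * (a n i : ℤ)) := by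
      simp only [Finset.mul_sum, ← Finset.sum_add_distrib, ← Finset.sum_sub_distrib]
      refine Finset.sum_congr rfl fun n _ => Finset.sum_congr rfl fun i _ => ?_
      have := chain_sq n
      linear_combination (a n i : ℤ) * this
    rw [e1, e2]
    ring
  · have e1 : ∑ n ∈ range (N - M), ∑ i ∈ range Nx, (n : ℤ) ^ 3 * (a (n + M) i : ℤ) =
        6 * ∑ n ∈ range (N - M), ∑ i ∈ range Nx, (n.choose 3 : ℤ) * (a (n + M) i : ℤ) +
        6 * ∑ n ∈ range (N - M), ∑ i ∈ range Nx, (n.choose 2 : ℤ) * (a (n + M) i : ℤ) +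
        ∑ n ∈ range (N - M), ∑ i ∈ range Nx, (n : ℤ) * (a (n + M) i : ℤ) := by
      simp only [Finset.mul_sum, ← Finset.sum_add_distrib]
      refine Finset.sum_congr rfl fun n _ => Finset.sum_congr rfl fun i _ => ?_
      rw [chain_cu n]
      ring
    have e2 : ∑ n ∈ range M, ∑ i ∈ range Nx, ((M : ℤ) - n) ^ 3 * (a n i : ℤ) =
        (M : ℤ) * M * M * ∑ n ∈ range M, ∑ i ∈ range Nx, (a n i : ℤ) -
        3 * (M * M) * ∑ n ∈ range M, ∑ i ∈ range Nx, (n : ℤ) * (a n i : ℤ) +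
        3 * M * (2 * ∑ n ∈ range M, ∑ i ∈ range Nx, (n.choose 2 : ℤ) * (a n i : ℤ) +
          ∑ n ∈ range M, ∑ i ∈ range Nx, (n : ℤ) * (a n i : ℤ)) -
        (6 * ∑ n ∈ range M, ∑ i ∈ range Nx, (n.choose 3 : ℤ) * (a n i : ℤ) +
          6 * ∑ n ∈ range M, ∑ i ∈ range Nx, (n.choose 2 : ℤ) * (a n i : ℤ) +
          ∑ n ∈ range M, ∑ i ∈ range Nx, (n : ℤ) * (a n i : ℤ)) := by
      simp only [Finset.mul_sum, mul_add, ← Finset.sum_add_distrib, ← Finset.sum_sub_distrib]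
      refine Finset.sum_congr rfl fun n _ => Finset.sum_congr rfl fun i _ => ?_
      have h2 := chain_sq n
      have h3 := chain_cu n
      linear_combination 3 * (M : ℤ) * (a n i : ℤ) * h2 - (a n i : ℤ) * h3
    rw [e1, e2]
    ring

end Pool.Agent.EM.Ck
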