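import Pool.Agent.EM.Ck.CheckC

/-!
# EM checker, CK-17: the bounds of `P` and the rational numbers of the certificate
-/

set_option autoImplicit false

open Polynomial Finset

namespace Pool.Agent.EM.Ck

/-- bounds of `P = pX p / 2^bP` on `[-1,1]` -/
def chkP1 (bP : ℕ) (p : List ℤ) (x : XNum ℚ) : Bool :=
  leQ (p.headD 0 + sab p.tail) x.Phi bP &&
  decide (x.Plo.num * 2 ^ bP ≤ (p.headD 0 - sab p.tail) * x.Plo.den) &&
  leQ (sab (wtsZ 1 p.tail)) x.dP bP

private theorem CheckP_coeff (p : List ℤ) (n : ℕ) : (pX p).coeff n = p.getD n 0 := by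
  induction p generalizing n with
  | nil => simp [pX, hor]
  | cons a p ih =>
    have h : pX (a :: p) = C a + X * pX p := rfl
    rw [h, coeff_add]
    cases n with
    | zero => simp
    | succ n =>
      rw [coeff_X_mul, ih, coeff_C_succ, zero_add]
      simp

private theorem CheckP_sab (p : List ℤ) (m : ℕ) : ∑ i ∈ range m, |(p.getD i 0 : ℚ)| ≤ sab p := by
  induction p generalizing m with
  | nil => simp [sab]
  | cons a p ih =>
    cases m with
    | zero => simp
    | succ m =>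
      rw [sum_range_succ']
      have h := ih m
      simp only [List.getD_cons_succ, List.getD_cons_zero, sab]
      have h1 : ((a.natAbs : ℕ) : ℚ) = |(a : ℚ)| := by
        rw [← Int.cast_natCast, Int.natCast_natAbs, Int.cast_abs]
      push_cast
      rw [h1]
      linarith

private theorem CheckP_wts (a : ℤ) (ha : 0 ≤ a) (p : List ℤ) (m : ℕ) :
    ∑ i ∈ range m, ((a : ℚ) + i) * |(p.getD i 0 : ℚ)| ≤ sab (wtsZ a p) := by
  induction p generalizing a m with
  | nil => simp [sab, wtsZ]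
  | cons b p ih =>
    cases m with
    | zero => simp
    | succ m =>
      rw [sum_range_succ']
      have h := ih (a + 1) (by omega) m
      simp only [List.getD_cons_succ, List.getD_cons_zero, sab, wtsZ]
      have h1 : (((a * b).natAbs : ℕ) : ℚ) = (a : ℚ) * |(b : ℚ)| := by
        rw [← Int.cast_natCast, Int.natCast_natAbs, Int.cast_abs, Int.cast_mul, abs_mul,
          abs_of_nonneg (show (0 : ℚ) ≤ a by exact_mod_cast ha)]
      push_cast at h h1 ⊢
      rw [h1]
      have h2 : ∑ i ∈ range m, ((a : ℚ) + (i + 1)) * |(p.getD i 0 : ℚ)| =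
          ∑ i ∈ range m, ((a : ℚ) + 1 + i) * |(p.getD i 0 : ℚ)| :=
        sum_congr rfl fun i _ => by ring
      rw [h2]
      linarith

private theorem CheckP_tail (p : List ℤ) (n : ℕ) : (pX p).coeff (n + 1) = p.tail.getD n 0 := by
  rw [CheckP_coeff]
  cases p with
  | nil => simp
  | cons a p => simp

private theorem CheckP_head (p : List ℤ) : (pX p).coeff 0 = p.headD 0 := by
  rw [CheckP_coeff]
  cases p with
  | nil => simp
  | cons a p => simp

private theorem CheckP_le {n : ℤ} {q : ℚ} {s : ℕ} (h : q.num * 2 ^ s ≤ n * q.den) :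
    q * 2 ^ s ≤ (n : ℚ) := by
  have hd : (0 : ℚ) < q.den := by exact_mod_cast q.den_pos
  have h1 : (q.num : ℚ) * 2 ^ s ≤ (n : ℚ) * q.den := by exact_mod_cast h
  have h2 : (q.num : ℚ) = q * q.den := (Rat.mul_den_eq_num q).symm
  rw [h2] at h1
  have h3 : q * 2 ^ s * q.den ≤ (n : ℚ) * q.den := by linarith
  exact le_of_mul_le_mul_right h3 hd

theorem chkP1_sound {bP : ℕ} {p : List ℤ} {x : XNum ℚ} (h : chkP1 bP p x = true) :
    ((pX p).coeff 0 : ℚ) + ∑ i ∈ Finset.range (pX p).natDegree, |((pX p).coeff (i + 1) : ℚ)| ≤ x.Phi * 2 ^ bP ∧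
    x.Plo * 2 ^ bP ≤ ((pX p).coeff 0 : ℚ) - ∑ i ∈ Finset.range (pX p).natDegree, |((pX p).coeff (i + 1) : ℚ)| ∧
    ∑ i ∈ Finset.range (pX p).natDegree, (i + 1) * |((pX p).coeff (i + 1) : ℚ)| ≤ x.dP * 2 ^ bP := by
  unfold chkP1 at h
  rw [Bool.and_eq_true, Bool.and_eq_true, decide_eq_true_eq] at h
  obtain ⟨⟨h1, h2⟩, h3⟩ := h
  have e1 := le_of_leQ h1
  have e2 := CheckP_le h2
  have e3 := le_of_leQ h3
  push_cast at e1 e2 e3
  have s1 := CheckP_sab p.tail (pX p).natDegree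
  have s2 := CheckP_wts 1 (by norm_num) p.tail (pX p).natDegree
  simp only [CheckP_tail, CheckP_head]
  push_cast at s2
  refine ⟨by linarith, by linarith, le_trans (le_of_eq ?_) (s2.trans e3)⟩
  exact sum_congr rfl fun i _ => by ring

/-- the rational numbers `h = hn / 2^bh`, `1 - eta' = tn / td`, `lam_i = L_i / 2^bL` -/
def chkN (hn bh bL : ℕ) (tn td L0 L1 L2 : ℤ) (x : XNum ℚ) : Bool :=
  decide (x.h.num * 2 ^ bh = hn * x.h.den) && decide (0 < td) &&
  decide ((x.eta'.den - x.eta'.num) * td = tn * x.eta'.den) &&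
  decide (x.lam0.num * 2 ^ bL = L0 * x.lam0.den) && decide (x.lam1.num * 2 ^ bL = L1 * x.lam1.den) &&
  decide (x.lam2.num * 2 ^ bL = L2 * x.lam2.den)

private theorem CheckP_eq {n : ℤ} {q : ℚ} {s : ℕ} (h : q.num * 2 ^ s = n * q.den) :
    q = (n : ℚ) / 2 ^ s := by
  have hd : (0 : ℚ) < q.den := by exact_mod_cast q.den_pos
  have h1 : (q.num : ℚ) * 2 ^ s = (n : ℚ) * q.den := by exact_mod_cast h
  have h2 : (q.num : ℚ) = q * q.den := (Rat.mul_den_eq_num q).symm
  rw [h2] at h1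
  rw [eq_div_iff (by positivity)]
  refine mul_right_cancel₀ hd.ne' ?_
  linarith

theorem chkN_sound {hn bh bL : ℕ} {tn td L0 L1 L2 : ℤ} {x : XNum ℚ}
    (h : chkN hn bh bL tn td L0 L1 L2 x = true) :
    x.h = hn / 2 ^ bh ∧ 1 - x.eta' = tn / td ∧ x.lam0 = L0 / 2 ^ bL ∧ x.lam1 = L1 / 2 ^ bL ∧
      x.lam2 = L2 / 2 ^ bL := by
  unfold chkN at h
  simp only [Bool.and_eq_true, decide_eq_true_eq] at h
  obtain ⟨⟨⟨⟨⟨h1, h2⟩, h3⟩, h4⟩, h5⟩, h6⟩ := h
  have h1' : x.h = ((hn : ℤ) : ℚ) / 2 ^ bh := CheckP_eq h1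
  refine ⟨by rw [h1', Int.cast_natCast], ?_, CheckP_eq h4, CheckP_eq h5, CheckP_eq h6⟩
  have hd : (0 : ℚ) < x.eta'.den := by exact_mod_cast x.eta'.den_pos
  have ht : (0 : ℚ) < td := by exact_mod_cast h2
  have e : ((x.eta'.den : ℚ) - x.eta'.num) * td = tn * x.eta'.den := by exact_mod_cast h3
  have e2 : (x.eta'.num : ℚ) = x.eta' * x.eta'.den := (Rat.mul_den_eq_num x.eta').symm
  rw [e2] at e
  rw [eq_div_iff ht.ne']
  refine mul_right_cancel₀ hd.ne' ?_
  linarith

end Pool.Agent.EM.Ck
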