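import Pool.Agent.EM.Ck.Evs
import Pool.Agent.helper69.EMN.Dig

/-!
# EM checker, CK-8: decoding of the data

A block `(s, z)` contains 16 modes with `nx` digits each, digit width `s` bits, lowest digit first; the coefficients are
the digits minus `2^(s-1)`.  The kernel spreads the digits to slots of `w` bits by mask halving (nothing is proved about
this), adds a constant so that all blocks have the offset `2^(S-1)`, and cuts with the mask `LM w nx S` (`nx` slots, `S` low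
bits of each slot): `decN`.  The polynomials `decP` are defined from the digits of the resulting numbers.
-/

set_option autoImplicit false

open Polynomial Finset

namespace Pool.Agent.EM.Ck

open Pool.Agent.helper69.EMN

/-! ## decoding (computation only) -/

def sp2 (sh z y : ℕ) : ℕ := Nat.add y (Nat.shiftLeft (Nat.sub z y) sh)

def spr : List (ℕ × ℕ) → ℕ → ℕ
  | [], z => z
  | p :: l, z => force (sp2 p.2 z (Nat.land z p.1)) (spr l)

/-- `∑_(j<N) 2^(e j)` -/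
def geo (e N : ℕ) : ℕ :=
  Nat.div (Nat.sub (Nat.shiftLeft 1 (Nat.mul e N)) 1) (Nat.sub (Nat.shiftLeft 1 e) 1)

/-- masks for the levels `i - 1, ..., 0` -/
def mskL (s w K : ℕ) : ℕ → List (ℕ × ℕ)
  | 0 => []
  | i + 1 => (Nat.mul (Nat.sub (Nat.shiftLeft 1 (s * 2 ^ i)) 1) (geo (2 * 2 ^ i * w) (2 ^ (K - 1 - i))),
      2 ^ i * (w - s)) :: mskL s w K i

def lvN (T : ℕ) (ms : List (ℕ × ℕ)) (c lm : ℕ) : ℕ → ℕ → List ℕ
  | 0, _ => []
  | q + 1, z => force (Nat.land (Nat.add (spr ms (Nat.mod z T)) c) lm) fun a =>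
      a :: force (Nat.div z T) (lvN T ms c lm q)

/-- the mask: `nx` slots of `w` bits, `S` low bits of each slot -/
def LM (w nx S : ℕ) : ℕ := Nat.mul (2 ^ S - 1) (geo w nx)

/-- the value of the offset polynomial -/
def og (w nx S : ℕ) : ℕ := Nat.mul (2 ^ (S - 1)) (geo w nx)

/-- wide leaves -/
def decN (w nx S : ℕ) (l : List (ℕ × ℕ)) : List ℕ :=
  force (LM w nx S) fun lm => l.flatMap fun p =>
    lvN (2 ^ (p.1 * nx)) (mskL p.1 w 5 5) (Nat.mul (2 ^ (S - 1) - 2 ^ (p.1 - 1)) (geo w nx)) lm 16 p.2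

/-! ## polynomials -/

/-- the polynomial of a leaf -/
noncomputable def lf (w nx S z : ℕ) : ℤ[X] :=
  ∑ i ∈ range nx, C (((z / (2 ^ w) ^ i % 2 ^ w : ℕ) : ℤ) - 2 ^ (S - 1)) * X ^ i

noncomputable def decP (w nx S : ℕ) (l : List (ℕ × ℕ)) : List ℤ[X] := (decN w nx S l).map (lf w nx S)

theorem geo_eq {e : ℕ} (he : 0 < e) (N : ℕ) : geo e N = ∑ j ∈ range N, (2 ^ e) ^ j := by
  have h := gg0_eq he N
  have h1 : gg0 e N = geo e N := rfl
  rw [h1] at h
  unfold sj at h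
  have h2 : ((∑ j ∈ range N, (2 ^ e) ^ j : ℕ) : ℤ) = ∑ n ∈ range N, (n : ℤ) ^ 0 * (2 ^ e) ^ n := by
    push_cast
    simp
  rw [← h2] at h
  exact_mod_cast h

theorem LM_eq {w : ℕ} (hw : 0 < w) (nx S : ℕ) : LM w nx S = rv (2 ^ w) (fun _ => 2 ^ S - 1) nx := by
  unfold LM rv
  rw [geo_eq hw, Nat.mul_eq, Finset.mul_sum]

theorem LM_lt {w S : ℕ} (hw : 0 < w) (hS : S ≤ w) (nx : ℕ) : LM w nx S < (2 ^ w) ^ nx := by
  rw [LM_eq hw]
  apply rv_lt
  intro k _
  have h1 : 2 ^ S ≤ 2 ^ w := Nat.pow_le_pow_right (by norm_num) hS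
  have h2 : 0 < 2 ^ S := Nat.two_pow_pos S
  show 2 ^ S - 1 < 2 ^ w
  omega

/-- a masked number: size and digits -/
theorem land_LM {w S : ℕ} (hw : 0 < w) (hS : S ≤ w) (nx y : ℕ) :
    Nat.land y (LM w nx S) < (2 ^ w) ^ nx ∧
      ∀ i < nx, Nat.land y (LM w nx S) / (2 ^ w) ^ i % 2 ^ w < 2 ^ S := by
  have h1 := LM_lt hw hS nx
  have h2 : Nat.land y (LM w nx S) = Nat.land (y % (2 ^ w) ^ nx) (LM w nx S) := by
    show y &&& LM w nx S = (y % (2 ^ w) ^ nx) &&& LM w nx S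
    rw [← pow_mul] at h1 ⊢
    have h3 : LM w nx S % 2 ^ (w * nx) = LM w nx S := Nat.mod_eq_of_lt h1
    have h4 : (y &&& LM w nx S) % 2 ^ (w * nx) = (y % 2 ^ (w * nx)) &&& (LM w nx S % 2 ^ (w * nx)) :=
      Nat.and_mod_two_pow
    have h5 : y &&& LM w nx S < 2 ^ (w * nx) := lt_of_le_of_lt Nat.and_le_right h1
    rw [h3, Nat.mod_eq_of_lt h5] at h4
    exact h4
  have h3 : y % (2 ^ w) ^ nx < (2 ^ w) ^ nx := Nat.mod_lt _ (by positivity)
  have h4 := rv_dig h3
  have h5 : ∀ k < nx, y % (2 ^ w) ^ nx / (2 ^ w) ^ k % 2 ^ w < 2 ^ w := fun k _ =>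
    Nat.mod_lt _ (by positivity)
  have h6 : ∀ k < nx, 2 ^ S - 1 < 2 ^ w := fun k _ => by
    have h1 : 2 ^ S ≤ 2 ^ w := Nat.pow_le_pow_right (by norm_num) hS
    have h2 : 0 < 2 ^ S := Nat.two_pow_pos S
    omega
  have h7 := land_rv w h5 h6
  rw [h4, ← LM_eq hw] at h7
  rw [h2]
  have h8 : ∀ k < nx, (y % (2 ^ w) ^ nx / (2 ^ w) ^ k % 2 ^ w) &&& (2 ^ S - 1) < 2 ^ S := fun k _ => by
    rw [Nat.and_two_pow_sub_one_eq_mod]
    exact Nat.mod_lt _ (Nat.two_pow_pos S)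
  have h9 : ∀ k < nx, (y % (2 ^ w) ^ nx / (2 ^ w) ^ k % 2 ^ w) &&& (2 ^ S - 1) < 2 ^ w := fun k hk =>
    (h8 k hk).trans_le (Nat.pow_le_pow_right (by norm_num) hS)
  show (y % (2 ^ w) ^ nx) &&& LM w nx S < (2 ^ w) ^ nx ∧
    ∀ i < nx, ((y % (2 ^ w) ^ nx) &&& LM w nx S) / (2 ^ w) ^ i % 2 ^ w < 2 ^ S
  rw [h7]
  refine ⟨rv_lt h9, fun i hi => ?_⟩
  rw [dig_rv (by positivity) h9 hi]
  exact h8 i hi

theorem mem_lvN {T : ℕ} {ms : List (ℕ × ℕ)} {c lm q z a : ℕ} (h : a ∈ lvN T ms c lm q z) :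
    ∃ y, a = Nat.land y lm := by
  induction q generalizing z with
  | zero => simp [lvN] at h
  | succ q ih =>
    rw [lvN, force_eq, force_eq, List.mem_cons] at h
    rcases h with h | h
    · exact ⟨_, h⟩
    · exact ih h

theorem length_lvN (T : ℕ) (ms : List (ℕ × ℕ)) (c lm q z : ℕ) : (lvN T ms c lm q z).length = q := by
  induction q generalizing z with
  | zero => rfl
  | succ q ih => rw [lvN, force_eq, force_eq, List.length_cons, ih]

theorem mem_decN {w nx S a : ℕ} {l : List (ℕ × ℕ)} (h : a ∈ decN w nx S l) :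
    ∃ y, a = Nat.land y (LM w nx S) := by
  rw [decN, force_eq, List.mem_flatMap] at h
  obtain ⟨p, _, h⟩ := h
  exact mem_lvN h

theorem length_decN (w nx S : ℕ) (l : List (ℕ × ℕ)) : (decN w nx S l).length = 16 * l.length := by
  rw [decN, force_eq]
  induction l with
  | nil => rfl
  | cons p l ih => rw [List.flatMap_cons, List.length_append, length_lvN, ih, List.length_cons]; ring

theorem length_decP (w nx S : ℕ) (l : List (ℕ × ℕ)) : (decP w nx S l).length = 16 * l.length := by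
  rw [decP, List.length_map, length_decN]

theorem evX_lf {w : ℕ} (hw : 0 < w) {S nx z : ℕ} (hz : z < (2 ^ w) ^ nx) :
    evX (2 ^ w) (lf w nx S z) = (z : ℤ) - og w nx S := by
  have h1 := rv_dig hz
  unfold lf og evX
  rw [geo_eq hw, Nat.mul_eq]
  simp only [map_sum, map_mul, map_pow, coe_evalRingHom, eval_C, eval_X]
  have h2 : ∀ i ∈ range nx, (((z / (2 ^ w) ^ i % 2 ^ w : ℕ) : ℤ) - 2 ^ (S - 1)) * ((2 ^ w : ℕ) : ℤ) ^ i =
      (((z / (2 ^ w) ^ i % 2 ^ w * (2 ^ w) ^ i : ℕ) : ℤ)) - ((2 ^ (S - 1) * (2 ^ w) ^ i : ℕ) : ℤ) := by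
    intro i _
    push_cast
    ring
  rw [sum_congr rfl h2, Finset.sum_sub_distrib, ← Nat.cast_sum, ← Nat.cast_sum, ← Finset.mul_sum]
  congr 2

theorem decN_ev {w S : ℕ} (hw : 0 < w) (hS : S ≤ w) (nx : ℕ) (l : List (ℕ × ℕ)) :
    (decP w nx S l).map (evX (2 ^ w)) = (decN w nx S l).map fun z : ℕ => (z : ℤ) - og w nx S := by
  unfold decP
  rw [List.map_map]
  apply List.map_congr_left
  intro a ha
  obtain ⟨y, rfl⟩ := mem_decN ha
  exact evX_lf hw (land_LM hw hS nx y).1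

theorem coeff_lf (w nx S z i : ℕ) : (lf w nx S z).coeff i =
    if i < nx then ((z / (2 ^ w) ^ i % 2 ^ w : ℕ) : ℤ) - 2 ^ (S - 1) else 0 := by
  unfold lf
  rw [finsetSum_coeff]
  simp only [coeff_C_mul, coeff_X_pow, mul_ite, mul_one, mul_zero]
  rw [Finset.sum_ite_eq]
  simp

theorem decP_deg {w nx S : ℕ} {l : List (ℕ × ℕ)} {p : ℤ[X]} (hp : p ∈ decP w nx S l) {i : ℕ}
    (hi : p.coeff i ≠ 0) : i < nx := by
  unfold decP at hp
  rw [List.mem_map] at hp
  obtain ⟨z, _, rfl⟩ := hp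
  rw [coeff_lf] at hi
  by_contra h
  rw [if_neg h] at hi
  exact hi rfl

theorem decP_coeff_le {w nx S : ℕ} (hw : 0 < w) (hS : S ≤ w) (hS0 : 0 < S) {l : List (ℕ × ℕ)} {p : ℤ[X]}
    (hp : p ∈ decP w nx S l) (i : ℕ) : (p.coeff i).natAbs ≤ 2 ^ (S - 1) := by
  unfold decP at hp
  rw [List.mem_map] at hp
  obtain ⟨z, hz, rfl⟩ := hp
  obtain ⟨y, rfl⟩ := mem_decN hz
  rw [coeff_lf]
  split_ifs with h
  · have h1 := (land_LM hw hS nx y).2 i h
    have h2 : 2 ^ S = 2 ^ (S - 1) + 2 ^ (S - 1) := by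
      obtain ⟨s, rfl⟩ : ∃ s, S = s + 1 := ⟨S - 1, by omega⟩
      rw [Nat.add_sub_cancel, pow_succ]
      ring
    have h3 : ((2 : ℤ) ^ (S - 1)) = ((2 ^ (S - 1) : ℕ) : ℤ) := by push_cast; rfl
    rw [h3]
    omega
  · simp

/-! ## symmetric and antisymmetric lists -/

/-- antisymmetric list of leaves with offset `O` -/
def asymN (O : ℕ) (l : List ℕ) : List ℕ :=
  (l.tail.map fun z => Nat.sub (Nat.mul 2 O) z).reverse ++ O :: l.tail

theorem length_asymN (O : ℕ) {l : List ℕ} (h : l ≠ []) : (asymN O l).length = 2 * l.length - 1 := by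
  cases l with
  | nil => exact absurd rfl h
  | cons a l =>
    simp only [asymN, List.tail_cons, List.length_append, List.length_reverse, List.length_map,
      List.length_cons]
    omega

theorem symL_ev {w S : ℕ} (hw : 0 < w) (hS : S ≤ w) (nx : ℕ) (l : List (ℕ × ℕ)) :
    (symL (decP w nx S l)).map (evX (2 ^ w)) =
      (symL (decN w nx S l)).map fun z : ℕ => (z : ℤ) - og w nx S := by
  rw [symL_map, decN_ev hw hS, ← symL_map]

theorem LM_le {w S : ℕ} (hw : 0 < w) (hS0 : 0 < S) (nx : ℕ) : LM w nx S ≤ 2 * og w nx S := by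
  unfold LM og
  rw [geo_eq hw, Nat.mul_eq, Nat.mul_eq, ← mul_assoc]
  apply Nat.mul_le_mul_right
  obtain ⟨s, rfl⟩ : ∃ s, S = s + 1 := ⟨S - 1, by omega⟩
  rw [Nat.add_sub_cancel, pow_succ]
  omega

theorem asymL_ev {w S : ℕ} (hw : 0 < w) (hS : S ≤ w) (hS0 : 0 < S) (nx : ℕ) (l : List (ℕ × ℕ)) :
    (asymL (decP w nx S l)).map (evX (2 ^ w)) =
      (asymN (og w nx S) (decN w nx S l)).map fun z : ℕ => (z : ℤ) - og w nx S := by
  rw [asymL_map, decN_ev hw hS]
  unfold asymL asymN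
  rw [List.map_append, List.map_reverse, List.map_cons, List.map_map, sub_self, ← List.map_tail,
    List.map_map]
  congr 2
  apply List.map_congr_left
  intro z hz
  obtain ⟨y, rfl⟩ := mem_decN (List.mem_of_mem_tail hz)
  have h1 : Nat.land y (LM w nx S) ≤ 2 * og w nx S := le_trans Nat.and_le_right (LM_le hw hS0 nx)
  have h2 : ((Nat.sub (Nat.mul 2 (og w nx S)) (Nat.land y (LM w nx S)) : ℕ) : ℤ) =
      2 * (og w nx S : ℤ) - Nat.land y (LM w nx S) := by
    show (((2 * og w nx S - Nat.land y (LM w nx S) : ℕ)) : ℤ) = _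
    rw [Nat.cast_sub h1]
    push_cast
    ring
  simp only [Function.comp_apply]
  rw [h2]
  ring

/-! ## sizes -/

theorem SB_decP {w S nx : ℕ} (hw : 0 < w) (hS : S ≤ w) (hS0 : 0 < S) (hnx : 0 < nx) (l : List (ℕ × ℕ)) :
    SB (mkA (decP w nx S l)) (16 * l.length - 1) (nx - 1) (16 * l.length * nx * 2 ^ (S - 1)) := by
  have h := SB_mkA (L := decP w nx S l) (k := nx - 1) (c := 2 ^ (S - 1))
    (fun p hp i hi => by have := decP_deg hp hi; omega)
    (fun p hp i => decP_coeff_le hw hS hS0 hp i)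
  rw [length_decP, Nat.sub_add_cancel hnx] at h
  exact h

theorem SB_symL {w S nx : ℕ} (hw : 0 < w) (hS : S ≤ w) (hS0 : 0 < S) (hnx : 0 < nx) (l : List (ℕ × ℕ)) :
    SB (mkA (symL (decP w nx S l))) (2 * (16 * l.length - 1)) (nx - 1)
      (32 * l.length * nx * 2 ^ (S - 1)) := by
  have hm : ∀ p ∈ symL (decP w nx S l), p ∈ decP w nx S l := fun p hp => by
    unfold symL at hp
    rw [List.mem_append, List.mem_reverse] at hp
    rcases hp with hp | hp
    · exact List.mem_of_mem_tail hp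
    · exact hp
  have h := SB_mkA (L := symL (decP w nx S l)) (k := nx - 1) (c := 2 ^ (S - 1))
    (fun p hp i hi => by have := decP_deg (hm p hp) hi; omega)
    (fun p hp i => decP_coeff_le hw hS hS0 (hm p hp) i)
  rw [length_symL, length_decP, Nat.sub_add_cancel hnx] at h
  refine h.mono (by omega) le_rfl ?_
  apply Nat.mul_le_mul_right
  apply Nat.mul_le_mul_right
  omega

theorem SB_asymL {w S nx : ℕ} (hw : 0 < w) (hS : S ≤ w) (hS0 : 0 < S) (hnx : 0 < nx) (l : List (ℕ × ℕ)) :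
    SB (mkA (asymL (decP w nx S l))) (2 * (16 * l.length - 1)) (nx - 1)
      (32 * l.length * nx * 2 ^ (S - 1)) := by
  have hm : ∀ p ∈ asymL (decP w nx S l), p = 0 ∨ p ∈ decP w nx S l ∨ -p ∈ decP w nx S l := fun p hp => by
    unfold asymL at hp
    rw [List.mem_append, List.mem_reverse, List.mem_map, List.mem_cons] at hp
    rcases hp with ⟨a, ha, rfl⟩ | hp | hp
    · right; right
      rw [neg_neg]
      exact List.mem_of_mem_tail ha
    · left; exact hp
    · right; left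
      exact List.mem_of_mem_tail hp
  rcases Nat.eq_zero_or_pos l.length with h0 | h0
  · have e1 : decP w nx S l = [] := List.eq_nil_of_length_eq_zero (by rw [length_decP, h0])
    rw [e1, h0]
    have e2 : mkA (asymL ([] : List ℤ[X])) = 0 := by
      simp [asymL, mkA, hor]
    rw [e2]
    constructor
    · intro n i hi
      simp [cf] at hi
    · simp [l1]
  have h := SB_mkA (L := asymL (decP w nx S l)) (k := nx - 1) (c := 2 ^ (S - 1))
    (fun p hp i hi => by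
      rcases hm p hp with rfl | hp | hp
      · simp at hi
      · have := decP_deg hp hi; omega
      · have := decP_deg hp (i := i) (by rw [coeff_neg]; exact neg_ne_zero.2 hi); omega)
    (fun p hp i => by
      rcases hm p hp with rfl | hp | hp
      · simp
      · exact decP_coeff_le hw hS hS0 hp i
      · have := decP_coeff_le hw hS hS0 hp i
        rw [coeff_neg, Int.natAbs_neg] at this
        exact this)
  have hne : decP w nx S l ≠ [] := fun e => by
    have := length_decP w nx S l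
    rw [e, List.length_nil] at this
    omega
  rw [length_asymL hne, length_decP, Nat.sub_add_cancel hnx] at h
  refine h.mono (by omega) le_rfl ?_
  apply Nat.mul_le_mul_right
  apply Nat.mul_le_mul_right
  omega

/-! ## the derivative with respect to the inner variable -/

/-- mask of the slots whose number has bit `b` -/
def xmk (w b : ℕ) : ℕ → ℕ
  | 0 => 0
  | n + 1 => Nat.add (xmk w b n) (Nat.mul (Nat.mul (Nat.mod (Nat.div n (2 ^ b)) 2) (2 ^ w - 1)) ((2 ^ w) ^ n))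

/-- `∑_(i<n) i W^(i-1)` -/
def gx (w : ℕ) : ℕ → ℕ
  | 0 => 0
  | n + 1 => gx w n + n * (2 ^ w) ^ (n - 1)

/-- derivative of all leaves of the combined number `V`; `g = ∑ Y^n` -/
def dxS (w nx g V : ℕ) : ℕ :=
  Nat.div (Nat.add (Nat.land V (Nat.mul (xmk w 0 nx) g)) (Nat.add (Nat.mul 2 (Nat.land V (Nat.mul (xmk w 1 nx) g)))
    (Nat.add (Nat.mul 4 (Nat.land V (Nat.mul (xmk w 2 nx) g)))
      (Nat.add (Nat.mul 8 (Nat.land V (Nat.mul (xmk w 3 nx) g)))
        (Nat.mul 16 (Nat.land V (Nat.mul (xmk w 4 nx) g))))))) (2 ^ w)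

/-- value of `dx f` -/
def evx (k e w nx S : ℕ) (zs : List ℕ) : ℤ :=
  force (gg0 e zs.length) fun g => force (combN k e zs) fun v =>
    Int.subNatNat (dxS w nx g v) (Nat.mul (Nat.mul (2 ^ (S - 1)) (gx w nx)) g)

theorem xmk_eq (w b n : ℕ) : xmk w b n = rv (2 ^ w) (fun i => i / 2 ^ b % 2 * (2 ^ w - 1)) n := by
  induction n with
  | zero => rfl
  | succ n ih => rw [xmk, rv_succ, ih]; rfl

theorem gx_eq (w n : ℕ) : gx w n = ∑ i ∈ range n, i * (2 ^ w) ^ (i - 1) := by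
  induction n with
  | zero => rfl
  | succ n ih => rw [gx, sum_range_succ, ih]

/-- derivative of a leaf -/
def dlN (w nx z : ℕ) : ℕ := ∑ i ∈ range nx, i * (z / (2 ^ w) ^ i % 2 ^ w) * (2 ^ w) ^ (i - 1)

theorem bits5 {i : ℕ} (h : i < 32) : i / 2 ^ 0 % 2 + 2 * (i / 2 ^ 1 % 2) + 4 * (i / 2 ^ 2 % 2) +
    8 * (i / 2 ^ 3 % 2) + 16 * (i / 2 ^ 4 % 2) = i := by
  interval_cases i <;> rfl

theorem land_xmk {w nx z : ℕ} (hz : z < (2 ^ w) ^ nx) (b : ℕ) :
    z &&& xmk w b nx = rv (2 ^ w) (fun i => i / 2 ^ b % 2 * (z / (2 ^ w) ^ i % 2 ^ w)) nx := by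
  have h1 := rv_dig hz
  have h2 : ∀ k < nx, z / (2 ^ w) ^ k % 2 ^ w < 2 ^ w := fun k _ => Nat.mod_lt _ (by positivity)
  have h3 : ∀ k < nx, k / 2 ^ b % 2 * (2 ^ w - 1) < 2 ^ w := fun k _ => by
    have e1 : k / 2 ^ b % 2 < 2 := Nat.mod_lt _ (by norm_num)
    have e2 : 0 < 2 ^ w := Nat.two_pow_pos w
    have e3 : k / 2 ^ b % 2 * (2 ^ w - 1) ≤ 1 * (2 ^ w - 1) := Nat.mul_le_mul_right _ (by omega)
    omega
  have h4 := land_rv w h2 h3
  rw [h1, ← xmk_eq] at h4
  rw [h4]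
  apply rv_congr
  intro k hk
  have e1 : k / 2 ^ b % 2 = 0 ∨ k / 2 ^ b % 2 = 1 := Nat.mod_two_eq_zero_or_one _
  rcases e1 with e1 | e1
  · rw [e1, zero_mul, zero_mul, Nat.and_zero]
  · rw [e1, one_mul, one_mul, Nat.and_two_pow_sub_one_eq_mod, Nat.mod_eq_of_lt (h2 k hk)]

theorem land5 {w nx z : ℕ} (hnx : nx ≤ 32) (hz : z < (2 ^ w) ^ nx) :
    (z &&& xmk w 0 nx) + (2 * (z &&& xmk w 1 nx) + (4 * (z &&& xmk w 2 nx) + (8 * (z &&& xmk w 3 nx) +
      16 * (z &&& xmk w 4 nx)))) = 2 ^ w * dlN w nx z := by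
  rw [land_xmk hz, land_xmk hz, land_xmk hz, land_xmk hz, land_xmk hz]
  unfold rv dlN
  rw [Finset.mul_sum, Finset.mul_sum, Finset.mul_sum, Finset.mul_sum, Finset.mul_sum,
    ← sum_add_distrib, ← sum_add_distrib, ← sum_add_distrib, ← sum_add_distrib]
  apply sum_congr rfl
  intro i hi
  rw [mem_range] at hi
  have h1 := bits5 (by omega : i < 32)
  have h2 : ∀ d p : ℕ, i / 2 ^ 0 % 2 * d * p + (2 * (i / 2 ^ 1 % 2 * d * p) + (4 * (i / 2 ^ 2 % 2 * d * p) +
      (8 * (i / 2 ^ 3 % 2 * d * p) + 16 * (i / 2 ^ 4 % 2 * d * p)))) = i * d * p := by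
    intro d p
    conv_rhs => rw [← h1]
    ring
  rw [h2]
  cases i with
  | zero => simp
  | succ i =>
    rw [Nat.add_sub_cancel, pow_succ]
    ring

theorem dxS_eq {e w nx : ℕ} (he : 0 < e) (hnx : nx ≤ 32) (hle : w * nx ≤ e) {z : ℕ → ℕ} {N : ℕ}
    (hz : ∀ n < N, z n < (2 ^ w) ^ nx) :
    dxS w nx (gg0 e N) (∑ n ∈ range N, z n * (2 ^ e) ^ n) = ∑ n ∈ range N, dlN w nx (z n) * (2 ^ e) ^ n := by
  have hle' : (2 ^ w) ^ nx ≤ 2 ^ e := by
    rw [← pow_mul]
    exact Nat.pow_le_pow_right (by norm_num) hle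
  have hz' : ∀ n < N, z n < 2 ^ e := fun n hn => (hz n hn).trans_le hle'
  have hg : gg0 e N = ∑ j ∈ range N, (2 ^ e) ^ j := geo_eq he N
  have key : ∀ b, Nat.land (∑ n ∈ range N, z n * (2 ^ e) ^ n) (Nat.mul (xmk w b nx) (gg0 e N)) =
      ∑ n ∈ range N, (z n &&& xmk w b nx) * (2 ^ e) ^ n := by
    intro b
    have hm : xmk w b nx < 2 ^ e := by
      refine lt_of_lt_of_le ?_ hle'
      rw [xmk_eq]
      apply rv_lt
      intro k _
      have e1 : k / 2 ^ b % 2 < 2 := Nat.mod_lt _ (by norm_num)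
      have e2 : 0 < 2 ^ w := Nat.two_pow_pos w
      have e3 : k / 2 ^ b % 2 * (2 ^ w - 1) ≤ 1 * (2 ^ w - 1) := Nat.mul_le_mul_right _ (by omega)
      show k / 2 ^ b % 2 * (2 ^ w - 1) < 2 ^ w
      omega
    have h1 := land_rv e (f := z) (g := fun _ => xmk w b nx) (n := N) hz' fun _ _ => hm
    have h2 : rv (2 ^ e) (fun _ => xmk w b nx) N = Nat.mul (xmk w b nx) (gg0 e N) := by
      rw [hg, Nat.mul_eq, Finset.mul_sum]
      rfl
    rw [h2] at h1
    exact h1
  unfold dxS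
  rw [key, key, key, key, key]
  simp only [Nat.add_eq, Nat.mul_eq]
  rw [Finset.mul_sum, Finset.mul_sum, Finset.mul_sum, Finset.mul_sum,
    ← sum_add_distrib, ← sum_add_distrib, ← sum_add_distrib, ← sum_add_distrib]
  have h1 : ∑ n ∈ range N, ((z n &&& xmk w 0 nx) * (2 ^ e) ^ n + (2 * ((z n &&& xmk w 1 nx) * (2 ^ e) ^ n) +
      (4 * ((z n &&& xmk w 2 nx) * (2 ^ e) ^ n) + (8 * ((z n &&& xmk w 3 nx) * (2 ^ e) ^ n) +
        16 * ((z n &&& xmk w 4 nx) * (2 ^ e) ^ n))))) =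
      2 ^ w * ∑ n ∈ range N, dlN w nx (z n) * (2 ^ e) ^ n := by
    rw [Finset.mul_sum]
    apply sum_congr rfl
    intro n hn
    rw [mem_range] at hn
    rw [← mul_assoc (2 ^ w), ← land5 hnx (hz n hn)]
    ring
  rw [h1]
  show 2 ^ w * _ / 2 ^ w = _
  rw [Nat.mul_div_cancel_left _ (Nat.two_pow_pos w)]

theorem evX_dlf (w S nx z : ℕ) :
    evX (2 ^ w) (derivative (lf w nx S z)) = (dlN w nx z : ℤ) - (2 ^ (S - 1) * gx w nx : ℕ) := by
  unfold lf dlN evX
  rw [gx_eq]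
  simp only [derivative_C_mul_X_pow, map_sum, map_mul, map_pow, coe_evalRingHom, eval_C, eval_X,
    Nat.cast_sum, Nat.cast_mul, Nat.cast_pow, Finset.mul_sum]
  rw [← Finset.sum_sub_distrib]
  apply sum_congr rfl
  intro i _
  push_cast
  ring

theorem evx_eq {w S nx k e : ℕ} (he : 0 < e) (hnx : nx ≤ 32) (hle : w * nx ≤ e)
    {zs : List ℕ} (hz : ∀ z ∈ zs, z < (2 ^ w) ^ nx) (hk : zs.length ≤ 2 ^ k) :
    evx k e w nx S zs = ev (2 ^ w) (2 ^ e) (dx (mkA (zs.map (lf w nx S)))) := by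
  unfold evx
  rw [force_eq, force_eq, Int.subNatNat_eq_coe, combN_eq k e zs hk, hor_eq_sum,
    dxS_eq he hnx hle (z := fun n => zs.getD n 0) (N := zs.length) (fun n hn => by
      show zs.getD n 0 < _
      rw [List.getD_eq_getElem _ _ hn]
      exact hz _ (List.getElem_mem hn)), dx_mkA, ev_mkA, hor_eq_sum]
  have hlen : (((zs.map (lf w nx S)).map derivative).map (evX (2 ^ w))).length = zs.length := by simp
  rw [hlen]
  have hg : (gg0 e zs.length : ℤ) = ∑ n ∈ range zs.length, ((2 : ℤ) ^ e) ^ n := by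
    rw [gg0_eq he]
    unfold sj
    simp
  simp only [Nat.mul_eq]
  push_cast
  rw [hg, Finset.mul_sum, ← Finset.sum_sub_distrib]
  apply sum_congr rfl
  intro n hn
  rw [mem_range] at hn
  rw [List.getD_eq_getElem _ (0 : ℤ) (by rw [hlen]; exact hn), List.getElem_map, List.getElem_map,
    List.getElem_map, evX_dlf, List.getD_eq_getElem _ _ hn]
  push_cast
  ring

/-! ## summary: the values computed by the kernel -/

section summary

variable {w S nx Nx k M : ℕ} {l : List (ℕ × ℕ)}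

theorem lt_of_mem_decN (hw : 0 < w) (hS : S ≤ w) {z : ℕ} (h : z ∈ decN w nx S l) : z < (2 ^ w) ^ nx := by
  obtain ⟨y, rfl⟩ := mem_decN h
  exact (land_LM hw hS nx y).1

/-- `f`, `D M f`, `D M (D M f)` -/
theorem evC1 (hw : 0 < w) (hS : S ≤ w) (hNx : 0 < Nx) (hl : 0 < l.length) (hk : 16 * l.length ≤ 2 ^ k) :
    evs k (w * Nx) M (og w nx S) (decN w nx S l) =
      (ev (2 ^ w) ((2 ^ w) ^ Nx) (mkA (decP w nx S l)), ev (2 ^ w) ((2 ^ w) ^ Nx) (D M (mkA (decP w nx S l))),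
        ev (2 ^ w) ((2 ^ w) ^ Nx) (D M (D M (mkA (decP w nx S l))))) := by
  rw [← pow_mul]
  exact evs_eq (Nat.mul_pos hw hNx) (decN_ev hw hS nx l) (by rw [length_decN]; omega)
    (by rw [length_decN]; exact hk)

/-- `dx f` -/
theorem evC2 (hw : 0 < w) (hS : S ≤ w) (hnx : nx ≤ 32) (hNx : 0 < Nx) (hle : nx ≤ Nx)
    (hk : 16 * l.length ≤ 2 ^ k) :
    evx k (w * Nx) w nx S (decN w nx S l) = ev (2 ^ w) ((2 ^ w) ^ Nx) (dx (mkA (decP w nx S l))) := by
  rw [← pow_mul]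
  exact evx_eq (Nat.mul_pos hw hNx) hnx (Nat.mul_le_mul_left _ hle) (fun z hz => lt_of_mem_decN hw hS hz)
    (by rw [length_decN]; exact hk)

theorem decP_reverse : (decP w nx S l).reverse = (decN w nx S l).reverse.map (lf w nx S) := by
  unfold decP
  rw [List.map_reverse]

/-- the reflected polynomials -/
theorem evC3 (hw : 0 < w) (hS : S ≤ w) (hNx : 0 < Nx) (hM : M + 1 ≤ 16 * l.length) (hk : 16 * l.length ≤ 2 ^ k) :
    evs k (w * Nx) (16 * l.length - 1 - M) (og w nx S) (decN w nx S l).reverse =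
      (ev (2 ^ w) ((2 ^ w) ^ Nx) (reflect (16 * l.length - 1) (mkA (decP w nx S l))),
        -ev (2 ^ w) ((2 ^ w) ^ Nx) (reflect (16 * l.length - 1) (D M (mkA (decP w nx S l)))),
        ev (2 ^ w) ((2 ^ w) ^ Nx) (reflect (16 * l.length - 1) (D M (D M (mkA (decP w nx S l)))))) := by
  have hlen : (decP w nx S l).length = 16 * l.length := length_decP w nx S l
  have hM' : M + 1 ≤ (decP w nx S l).length := by rw [hlen]; exact hM
  have h1 := reflect_D hM'
  have h2 := reflect_DD hM'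
  have h3 := reflect_mkA (decP w nx S l)
  rw [hlen] at h1 h2 h3
  rw [h1, h2, h3, map_neg, neg_neg, ← pow_mul]
  apply evs_eq (Nat.mul_pos hw hNx)
  · rw [List.map_reverse, decN_ev hw hS nx l, List.map_reverse]
  · rw [List.length_reverse, length_decN]
    omega
  · rw [List.length_reverse, length_decN]
    exact hk

theorem reflect_dx (L : List ℤ[X]) : reflect (L.length - 1) (dx (mkA L)) = dx (mkA L.reverse) := by
  rw [dx_mkA, dx_mkA, ← List.length_map (as := L) derivative, reflect_mkA, List.map_reverse]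

theorem evC4 (hw : 0 < w) (hS : S ≤ w) (hnx : nx ≤ 32) (hNx : 0 < Nx) (hle : nx ≤ Nx)
    (hk : 16 * l.length ≤ 2 ^ k) :
    evx k (w * Nx) w nx S (decN w nx S l).reverse =
      ev (2 ^ w) ((2 ^ w) ^ Nx) (reflect (16 * l.length - 1) (dx (mkA (decP w nx S l)))) := by
  have h1 := reflect_dx (decP w nx S l)
  rw [length_decP, decP_reverse] at h1
  rw [h1, ← pow_mul]
  exact evx_eq (Nat.mul_pos hw hNx) hnx (Nat.mul_le_mul_left _ hle)
    (fun z hz => lt_of_mem_decN hw hS (List.mem_reverse.1 hz))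
    (by rw [List.length_reverse, length_decN]; exact hk)

/-- symmetric lists -/
theorem evK1 (hw : 0 < w) (hS : S ≤ w) (hNx : 0 < Nx) (hl : 0 < l.length) (hk : 32 * l.length ≤ 2 ^ k) :
    evs k (w * Nx) M (og w nx S) (symL (decN w nx S l)) =
      (ev (2 ^ w) ((2 ^ w) ^ Nx) (mkA (symL (decP w nx S l))),
        ev (2 ^ w) ((2 ^ w) ^ Nx) (D M (mkA (symL (decP w nx S l)))),
        ev (2 ^ w) ((2 ^ w) ^ Nx) (D M (D M (mkA (symL (decP w nx S l)))))) := by
  rw [← pow_mul]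
  exact evs_eq (Nat.mul_pos hw hNx) (symL_ev hw hS nx l) (by rw [length_symL, length_decN]; omega)
    (by rw [length_symL, length_decN]; omega)

theorem evK3 (hw : 0 < w) (hS : S ≤ w) (hNx : 0 < Nx) (hl : 0 < l.length) (hk : 32 * l.length ≤ 2 ^ k) :
    ev3 k (w * Nx) M (og w nx S) (symL (decN w nx S l)) =
      ev (2 ^ w) ((2 ^ w) ^ Nx) (D M (D M (D M (mkA (symL (decP w nx S l)))))) := by
  rw [← pow_mul]
  exact ev3_eq (Nat.mul_pos hw hNx) (symL_ev hw hS nx l) (by rw [length_symL, length_decN]; omega)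
    (by rw [length_symL, length_decN]; omega)

theorem decN_ne_nil (hl : 0 < l.length) : decN w nx S l ≠ [] := fun h => by
  have := length_decN w nx S l
  rw [h, List.length_nil] at this
  omega

/-- antisymmetric lists -/
theorem evA1 (hw : 0 < w) (hS : S ≤ w) (hS0 : 0 < S) (hNx : 0 < Nx) (hl : 0 < l.length)
    (hk : 32 * l.length ≤ 2 ^ k) :
    evs k (w * Nx) M (og w nx S) (asymN (og w nx S) (decN w nx S l)) =
      (ev (2 ^ w) ((2 ^ w) ^ Nx) (mkA (asymL (decP w nx S l))),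
        ev (2 ^ w) ((2 ^ w) ^ Nx) (D M (mkA (asymL (decP w nx S l)))),
        ev (2 ^ w) ((2 ^ w) ^ Nx) (D M (D M (mkA (asymL (decP w nx S l)))))) := by
  rw [← pow_mul]
  exact evs_eq (Nat.mul_pos hw hNx) (asymL_ev hw hS hS0 nx l)
    (by rw [length_asymN _ (decN_ne_nil hl), length_decN]; omega)
    (by rw [length_asymN _ (decN_ne_nil hl), length_decN]; omega)

theorem evA3 (hw : 0 < w) (hS : S ≤ w) (hS0 : 0 < S) (hNx : 0 < Nx) (hl : 0 < l.length)
    (hk : 32 * l.length ≤ 2 ^ k) :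
    ev3 k (w * Nx) M (og w nx S) (asymN (og w nx S) (decN w nx S l)) =
      ev (2 ^ w) ((2 ^ w) ^ Nx) (D M (D M (D M (mkA (asymL (decP w nx S l)))))) := by
  rw [← pow_mul]
  exact ev3_eq (Nat.mul_pos hw hNx) (asymL_ev hw hS hS0 nx l)
    (by rw [length_asymN _ (decN_ne_nil hl), length_decN]; omega)
    (by rw [length_asymN _ (decN_ne_nil hl), length_decN]; omega)

end summary

end Pool.Agent.EM.Ck
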