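import Pool.Agent.EM.Ck.Comb

/-!
# EM checker: evaluation of polynomials given by lists of natural numbers with a common offset

The list `L` of mode polynomials has the values `z - O` at `x = W` (`zs` natural numbers).  `evs k e M O zs` computes the
integer values at `ζ = Y = 2^e` of `f = mkA L`, `D M f`, `D M (D M f)`, `D M (D M (D M f))` by binary splitting on natural
numbers; the offset is subtracted once by closed forms of `∑ n^j Y^n`.
-/

set_option autoImplicit false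

open Polynomial Finset

namespace Pool.Agent.EM.Ck

/-- evaluate `n` before applying `f` -/
def force {α : Type} (n : ℕ) (f : ℕ → α) : α := Nat.rec (f 0) (fun m _ => f (Nat.succ m)) n

theorem force_eq {α : Type} (n : ℕ) (f : ℕ → α) : force n f = f n := by
  cases n <;> rfl

def prN (e : ℕ) : List ℕ → List ℕ
  | a :: b :: l => Nat.add a (Nat.shiftLeft b e) :: prN e l
  | l => l

def combN : ℕ → ℕ → List ℕ → ℕ
  | 0, _, l => l.headD 0
  | k + 1, e, l => combN k (Nat.add e e) (prN e l)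

def wtsN : ℕ → List ℕ → List ℕ
  | _, [] => []
  | a, p :: l => Nat.mul a p :: wtsN (Nat.succ a) l

/-- `∑_(n<N) n^j Y^n`, `j = 0, 1, 2, 3`, `Y = 2^e`, `N ≥ 1` -/
def gg0 (e N : ℕ) : ℕ :=
  Nat.div (Nat.sub (Nat.shiftLeft 1 (Nat.mul e N)) 1) (Nat.sub (Nat.shiftLeft 1 e) 1)
def gg1 (e N g0 : ℕ) : ℕ :=
  Nat.div (Nat.sub (Nat.add (Nat.shiftLeft (N - 1) (Nat.mul e N)) 1) g0) (Nat.sub (Nat.shiftLeft 1 e) 1)
def gg2 (e N g0 g1 : ℕ) : ℕ :=
  Nat.div (Nat.sub (Nat.add (Nat.shiftLeft ((N - 1) * (N - 1)) (Nat.mul e N)) g0) (Nat.add 1 (Nat.mul 2 g1)))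
    (Nat.sub (Nat.shiftLeft 1 e) 1)
def gg3 (e N g0 g1 g2 : ℕ) : ℕ :=
  Nat.div (Nat.sub (Nat.add (Nat.shiftLeft ((N - 1) * (N - 1) * (N - 1)) (Nat.mul e N)) (Nat.add 1 (Nat.mul 3 g1)))
    (Nat.add (Nat.mul 3 g2) g0)) (Nat.sub (Nat.shiftLeft 1 e) 1)

/-- `∑ n^j (z_n - O) Y^n` -/
def aa (O V g : ℕ) : ℤ := Int.subNatNat V (Nat.mul O g)

def ev0 (k e O : ℕ) (zs : List ℕ) : ℤ :=
  force (gg0 e zs.length) fun g0 => force (combN k e zs) fun v0 => aa O v0 g0

/-- the values of `f`, `D M f`, `D M (D M f)` -/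
def evs (k e M O : ℕ) (zs : List ℕ) : ℤ × ℤ × ℤ :=
  force (gg0 e zs.length) fun g0 => force (gg1 e zs.length g0) fun g1 =>
  force (gg2 e zs.length g0 g1) fun g2 =>
  force (combN k e zs) fun v0 => force (combN k e (wtsN 0 zs)) fun v1 =>
  force (combN k e (wtsN 0 (wtsN 0 zs))) fun v2 =>
  (aa O v0 g0, aa O v1 g1 - M * aa O v0 g0, aa O v2 g2 - 2 * M * aa O v1 g1 + M * M * aa O v0 g0)

/-- the value of `D M (D M (D M f))` -/
def ev3 (k e M O : ℕ) (zs : List ℕ) : ℤ :=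
  force (gg0 e zs.length) fun g0 => force (gg1 e zs.length g0) fun g1 =>
  force (gg2 e zs.length g0 g1) fun g2 => force (gg3 e zs.length g0 g1 g2) fun g3 =>
  force (combN k e zs) fun v0 => force (combN k e (wtsN 0 zs)) fun v1 =>
  force (combN k e (wtsN 0 (wtsN 0 zs))) fun v2 =>
  force (combN k e (wtsN 0 (wtsN 0 (wtsN 0 zs)))) fun v3 =>
  aa O v3 g3 - 3 * M * aa O v2 g2 + 3 * M * M * aa O v1 g1 - M * M * M * aa O v0 g0

/-! ## sums -/

theorem hor_eq_sum {R : Type*} [CommSemiring R] (y : R) (l : List R) :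
    hor y l = ∑ n ∈ range l.length, l.getD n 0 * y ^ n := by
  induction l with
  | nil => simp [hor]
  | cons a l ih =>
    rw [hor, ih, List.length_cons, sum_range_succ']
    simp only [List.getD_cons_succ, List.getD_cons_zero, pow_zero, mul_one]
    rw [Finset.mul_sum, add_comm]
    congr 1
    apply sum_congr rfl
    intro n _
    ring

theorem getD_wts {R : Type*} [Ring R] (a : ℤ) (l : List R) (n : ℕ) :
    (wts a l).getD n 0 = ((a + n : ℤ) : R) * l.getD n 0 := by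
  induction l generalizing a n with
  | nil => simp [wts]
  | cons p l ih =>
    rw [wts]
    cases n with
    | zero => simp
    | succ n =>
      rw [List.getD_cons_succ, List.getD_cons_succ, ih]
      push_cast
      congr 1
      abel

theorem len_wts {R : Type*} [Ring R] (a : ℤ) (l : List R) : (wts a l).length = l.length := by
  induction l generalizing a with
  | nil => rfl
  | cons p l ih => rw [wts, List.length_cons, List.length_cons, ih]

theorem getD_wtsN (a : ℕ) (l : List ℕ) (n : ℕ) : (wtsN a l).getD n 0 = (a + n) * l.getD n 0 := by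
  induction l generalizing a n with
  | nil => simp [wtsN]
  | cons p l ih =>
    rw [wtsN]
    cases n with
    | zero => simp
    | succ n =>
      rw [List.getD_cons_succ, List.getD_cons_succ, ih]
      congr 1
      simp only [Nat.succ_eq_add_one]
      ring

theorem len_wtsN (a : ℕ) (l : List ℕ) : (wtsN a l).length = l.length := by
  induction l generalizing a with
  | nil => rfl
  | cons p l ih => rw [wtsN, List.length_cons, List.length_cons, ih]

theorem shl (a e : ℕ) : Nat.shiftLeft a e = a * 2 ^ e := Nat.shiftLeft_eq a e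

theorem hor_prN (e : ℕ) (l : List ℕ) : hor (2 ^ e * 2 ^ e) (prN e l) = hor (2 ^ e) l := by
  induction l using prN.induct with
  | case1 a b l ih =>
    rw [prN, hor, ih, hor, hor, shl, Nat.add_eq]
    ring
  | case2 l h =>
    match l, h with
    | [], _ => rfl
    | [a], _ => simp [prN, hor]
    | a :: b :: l, h => exact absurd rfl (h a b l)

theorem len_prN (e : ℕ) (l : List ℕ) : (prN e l).length = (l.length + 1) / 2 := by
  induction l using prN.induct with
  | case1 a b l ih =>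
    rw [prN, List.length_cons, ih, List.length_cons, List.length_cons]
    omega
  | case2 l h =>
    match l, h with
    | [], _ => rfl
    | [a], _ => simp [prN]
    | a :: b :: l, h => exact absurd rfl (h a b l)

theorem combN_eq (k e : ℕ) (l : List ℕ) (h : l.length ≤ 2 ^ k) : combN k e l = hor (2 ^ e) l := by
  induction k generalizing e l with
  | zero =>
    rw [pow_zero] at h
    match l, h with
    | [], _ => rfl
    | [a], _ => simp [combN, hor]
  | succ k ih =>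
    rw [combN, ih _ _ (by rw [len_prN, pow_succ] at *; omega), Nat.add_eq, pow_add, hor_prN]

theorem combN_sum (k e : ℕ) (l : List ℕ) (h : l.length ≤ 2 ^ k) :
    (combN k e l : ℤ) = ∑ n ∈ range l.length, (l.getD n 0 : ℤ) * (2 ^ e) ^ n := by
  rw [combN_eq k e l h, hor_eq_sum]
  push_cast
  rfl

/-! ## closed forms -/

/-- `∑_(n<N) n^j y^n` -/
def sj (y : ℤ) (j N : ℕ) : ℤ := ∑ n ∈ range N, (n : ℤ) ^ j * y ^ n

theorem sj_succ (y : ℤ) (j N : ℕ) : sj y j (N + 1) = sj y j N + (N : ℤ) ^ j * y ^ N :=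
  sum_range_succ _ _

theorem sj_nonneg {y : ℤ} (hy : 0 ≤ y) (j N : ℕ) : 0 ≤ sj y j N :=
  sum_nonneg fun n _ => by positivity

theorem sj0 (y : ℤ) (N : ℕ) : (y - 1) * sj y 0 N = y ^ N - 1 := by
  induction N with
  | zero => simp [sj]
  | succ N ih =>
    rw [sj_succ, mul_add, ih]
    ring

theorem sj1 (y : ℤ) (N : ℕ) : (y - 1) * sj y 1 (N + 1) = N * y ^ (N + 1) + 1 - sj y 0 (N + 1) := by
  induction N with
  | zero => simp [sj]
  | succ N ih =>
    rw [sj_succ, sj_succ y 0, mul_add, ih]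
    push_cast
    ring

theorem sj2 (y : ℤ) (N : ℕ) : (y - 1) * sj y 2 (N + 1) =
    N * N * y ^ (N + 1) + sj y 0 (N + 1) - (1 + 2 * sj y 1 (N + 1)) := by
  induction N with
  | zero => simp [sj]
  | succ N ih =>
    rw [sj_succ, sj_succ y 0, sj_succ y 1, mul_add, ih]
    push_cast
    ring

theorem sj3 (y : ℤ) (N : ℕ) : (y - 1) * sj y 3 (N + 1) =
    N * N * N * y ^ (N + 1) + (1 + 3 * sj y 1 (N + 1)) - (3 * sj y 2 (N + 1) + sj y 0 (N + 1)) := by
  induction N with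
  | zero => simp [sj]
  | succ N ih =>
    rw [sj_succ, sj_succ y 0, sj_succ y 1, sj_succ y 2, mul_add, ih]
    push_cast
    ring

theorem div_aux {a b y : ℕ} {s : ℤ} (hy : 2 ≤ y) (hs : 0 ≤ s)
    (h : ((y : ℤ) - 1) * s = a - b) : ((Nat.div (Nat.sub a b) (Nat.sub y 1) : ℕ) : ℤ) = s := by
  obtain ⟨n, rfl⟩ := Int.eq_ofNat_of_zero_le hs
  have h1 : (y - 1) * n + b = a := by
    have : (((y - 1) * n + b : ℕ) : ℤ) = a := by
      push_cast [Nat.cast_sub (by omega : 1 ≤ y)]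
      linarith
    exact_mod_cast this
  have h2 : Nat.sub a b = (y - 1) * n := by
    show a - b = _
    omega
  rw [h2]
  show (((y - 1) * n / (y - 1) : ℕ) : ℤ) = n
  rw [Nat.mul_div_cancel_left _ (by omega)]

theorem gg0_eq {e : ℕ} (he : 0 < e) (N : ℕ) : (gg0 e N : ℤ) = sj (2 ^ e) 0 N := by
  have hy : 2 ≤ 2 ^ e := by
    calc 2 = 2 ^ 1 := rfl
      _ ≤ 2 ^ e := Nat.pow_le_pow_right (by norm_num) he
  unfold gg0
  rw [shl, shl, one_mul, one_mul, Nat.mul_eq]
  apply div_aux hy (sj_nonneg (by positivity) _ _)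
  push_cast
  rw [sj0, pow_mul]

theorem gg1_eq {e : ℕ} (he : 0 < e) {N g0 : ℕ} (hN : 0 < N) (h0 : (g0 : ℤ) = sj (2 ^ e) 0 N) :
    (gg1 e N g0 : ℤ) = sj (2 ^ e) 1 N := by
  have hy : 2 ≤ 2 ^ e := by
    calc 2 = 2 ^ 1 := rfl
      _ ≤ 2 ^ e := Nat.pow_le_pow_right (by norm_num) he
  obtain ⟨N, rfl⟩ : ∃ n, N = n + 1 := ⟨N - 1, by omega⟩
  unfold gg1
  rw [shl, shl, one_mul, Nat.mul_eq, Nat.add_eq]
  apply div_aux hy (sj_nonneg (by positivity) _ _)
  push_cast
  rw [sj1, h0, pow_mul]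

theorem gg2_eq {e : ℕ} (he : 0 < e) {N g0 g1 : ℕ} (hN : 0 < N) (h0 : (g0 : ℤ) = sj (2 ^ e) 0 N)
    (h1 : (g1 : ℤ) = sj (2 ^ e) 1 N) : (gg2 e N g0 g1 : ℤ) = sj (2 ^ e) 2 N := by
  have hy : 2 ≤ 2 ^ e := by
    calc 2 = 2 ^ 1 := rfl
      _ ≤ 2 ^ e := Nat.pow_le_pow_right (by norm_num) he
  obtain ⟨N, rfl⟩ : ∃ n, N = n + 1 := ⟨N - 1, by omega⟩
  unfold gg2
  rw [shl, shl, one_mul, Nat.mul_eq, Nat.add_eq, Nat.add_eq, Nat.mul_eq]
  apply div_aux hy (sj_nonneg (by positivity) _ _)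
  push_cast
  rw [sj2, h0, h1, pow_mul]

theorem gg3_eq {e : ℕ} (he : 0 < e) {N g0 g1 g2 : ℕ} (hN : 0 < N) (h0 : (g0 : ℤ) = sj (2 ^ e) 0 N)
    (h1 : (g1 : ℤ) = sj (2 ^ e) 1 N) (h2 : (g2 : ℤ) = sj (2 ^ e) 2 N) :
    (gg3 e N g0 g1 g2 : ℤ) = sj (2 ^ e) 3 N := by
  have hy : 2 ≤ 2 ^ e := by
    calc 2 = 2 ^ 1 := rfl
      _ ≤ 2 ^ e := Nat.pow_le_pow_right (by norm_num) he
  obtain ⟨N, rfl⟩ : ∃ n, N = n + 1 := ⟨N - 1, by omega⟩
  unfold gg3
  rw [shl, shl, one_mul, Nat.mul_eq, Nat.mul_eq, Nat.mul_eq, Nat.add_eq, Nat.add_eq, Nat.add_eq]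
  apply div_aux hy (sj_nonneg (by positivity) _ _)
  push_cast
  rw [sj3, h0, h1, h2, pow_mul]

/-! ## the main theorems -/

theorem aa_eq (O V g : ℕ) : aa O V g = (V : ℤ) - O * g := by
  unfold aa
  rw [Int.subNatNat_eq_coe, Nat.mul_eq]
  push_cast
  rfl

/-- `∑ n^j (z_n - O) y^n` -/
def tj (y : ℤ) (O : ℕ) (zs : List ℕ) (j : ℕ) : ℤ :=
  ∑ n ∈ range zs.length, (n : ℤ) ^ j * ((zs.getD n 0 : ℤ) - O) * y ^ n

theorem tj_eq (y : ℤ) (O : ℕ) (zs : List ℕ) (j : ℕ) :
    tj y O zs j = ∑ n ∈ range zs.length, (n : ℤ) ^ j * (zs.getD n 0 : ℤ) * y ^ n -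
      O * sj y j zs.length := by
  unfold tj sj
  rw [Finset.mul_sum, ← Finset.sum_sub_distrib]
  apply sum_congr rfl
  intro n _
  ring

theorem t0_eq {k e O v g : ℕ} {zs : List ℕ} (hk : zs.length ≤ 2 ^ k) (hv : v = combN k e zs)
    (hg : (g : ℤ) = sj (2 ^ e) 0 zs.length) : aa O v g = tj (2 ^ e) O zs 0 := by
  rw [aa_eq, tj_eq, hg, hv, combN_sum k e _ hk]
  congr 1
  apply sum_congr rfl
  intro n _
  ring

theorem t1_eq {k e O v g : ℕ} {zs : List ℕ} (hk : zs.length ≤ 2 ^ k) (hv : v = combN k e (wtsN 0 zs))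
    (hg : (g : ℤ) = sj (2 ^ e) 1 zs.length) : aa O v g = tj (2 ^ e) O zs 1 := by
  rw [aa_eq, tj_eq, hg, hv, combN_sum k e _ (by rw [len_wtsN]; exact hk), len_wtsN]
  congr 1
  apply sum_congr rfl
  intro n _
  rw [getD_wtsN]
  push_cast
  ring

theorem t2_eq {k e O v g : ℕ} {zs : List ℕ} (hk : zs.length ≤ 2 ^ k)
    (hv : v = combN k e (wtsN 0 (wtsN 0 zs)))
    (hg : (g : ℤ) = sj (2 ^ e) 2 zs.length) : aa O v g = tj (2 ^ e) O zs 2 := by
  rw [aa_eq, tj_eq, hg, hv, combN_sum k e _ (by rw [len_wtsN, len_wtsN]; exact hk), len_wtsN, len_wtsN]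
  congr 1
  apply sum_congr rfl
  intro n _
  rw [getD_wtsN, getD_wtsN]
  push_cast
  ring

theorem t3_eq {k e O v g : ℕ} {zs : List ℕ} (hk : zs.length ≤ 2 ^ k)
    (hv : v = combN k e (wtsN 0 (wtsN 0 (wtsN 0 zs))))
    (hg : (g : ℤ) = sj (2 ^ e) 3 zs.length) : aa O v g = tj (2 ^ e) O zs 3 := by
  rw [aa_eq, tj_eq, hg, hv, combN_sum k e _ (by rw [len_wtsN, len_wtsN, len_wtsN]; exact hk),
    len_wtsN, len_wtsN, len_wtsN]
  congr 1
  apply sum_congr rfl
  intro n _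
  rw [getD_wtsN, getD_wtsN, getD_wtsN]
  push_cast
  ring

section

variable {W Y : ℕ} {L : List ℤ[X]} {zs : List ℕ} {O : ℕ}
  (h : L.map (evX W) = zs.map fun z : ℕ => (z : ℤ) - O)
include h

theorem hor_of (g : List ℤ → List ℤ) (c : ℕ → ℤ) (hl : ∀ l, (g l).length = l.length)
    (hg : ∀ l n, (g l).getD n 0 = c n * l.getD n 0) :
    hor (Y : ℤ) (g (L.map (evX W))) =
      ∑ n ∈ range zs.length, c n * ((zs.getD n 0 : ℤ) - O) * (Y : ℤ) ^ n := by
  rw [hor_eq_sum, hl, h, List.length_map]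
  apply sum_congr rfl
  intro n hn
  rw [hg]
  congr 2
  rw [mem_range] at hn
  rw [List.getD_eq_getElem _ _ (by rw [List.length_map]; exact hn), List.getElem_map,
    List.getD_eq_getElem _ _ hn]

theorem ev_f : ev W Y (mkA L) = tj Y O zs 0 := by
  rw [ev_mkA, hor_of h (fun l => l) (fun _ => 1) (fun _ => rfl) (fun _ _ => (one_mul _).symm)]
  unfold tj
  simp

theorem ev_Df (M : ℕ) : ev W Y (D M (mkA L)) = tj Y O zs 1 - M * tj Y O zs 0 := by
  rw [D_mkA, ev_mkA, wts_map, hor_of h (wts (-(M : ℤ))) (fun n => (n : ℤ) - M)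
    (fun l => len_wts _ l) (fun l n => by
      rw [getD_wts]
      push_cast
      ring)]
  unfold tj
  rw [Finset.mul_sum, ← Finset.sum_sub_distrib]
  apply sum_congr rfl
  intro n _
  ring

theorem ev_DDf (M : ℕ) : ev W Y (D M (D M (mkA L))) =
    tj Y O zs 2 - 2 * M * tj Y O zs 1 + M * M * tj Y O zs 0 := by
  rw [D_mkA, D_mkA, ev_mkA, wts_map, wts_map,
    hor_of h (fun l => wts (-(M : ℤ)) (wts (-(M : ℤ)) l)) (fun n => ((n : ℤ) - M) ^ 2)
    (fun l => by rw [len_wts, len_wts]) (fun l n => by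
      rw [getD_wts, getD_wts]
      push_cast
      ring)]
  unfold tj
  rw [Finset.mul_sum, Finset.mul_sum, ← Finset.sum_sub_distrib, ← Finset.sum_add_distrib]
  apply sum_congr rfl
  intro n _
  ring

theorem ev_DDDf (M : ℕ) : ev W Y (D M (D M (D M (mkA L)))) =
    tj Y O zs 3 - 3 * M * tj Y O zs 2 + 3 * M * M * tj Y O zs 1 - M * M * M * tj Y O zs 0 := by
  rw [D_mkA, D_mkA, D_mkA, ev_mkA, wts_map, wts_map, wts_map,
    hor_of h (fun l => wts (-(M : ℤ)) (wts (-(M : ℤ)) (wts (-(M : ℤ)) l)))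
    (fun n => ((n : ℤ) - M) ^ 3)
    (fun l => by rw [len_wts, len_wts, len_wts]) (fun l n => by
      rw [getD_wts, getD_wts, getD_wts]
      push_cast
      ring)]
  unfold tj
  rw [Finset.mul_sum, Finset.mul_sum, Finset.mul_sum, ← Finset.sum_sub_distrib,
    ← Finset.sum_add_distrib, ← Finset.sum_sub_distrib]
  apply sum_congr rfl
  intro n _
  ring

end

theorem ev0_eq {W e k O : ℕ} {L : List ℤ[X]} {zs : List ℕ} (he : 0 < e)
    (h : L.map (evX W) = zs.map fun z : ℕ => (z : ℤ) - O) (hk : zs.length ≤ 2 ^ k) :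
    ev0 k e O zs = ev W (2 ^ e) (mkA L) := by
  rw [ev_f h]
  unfold ev0
  rw [force_eq, force_eq]
  push_cast
  exact t0_eq hk rfl (gg0_eq he _)

theorem evs_eq {W e k M O : ℕ} {L : List ℤ[X]} {zs : List ℕ} (he : 0 < e)
    (h : L.map (evX W) = zs.map fun z : ℕ => (z : ℤ) - O) (hz : 0 < zs.length) (hk : zs.length ≤ 2 ^ k) :
    evs k e M O zs = (ev W (2 ^ e) (mkA L), ev W (2 ^ e) (D M (mkA L)),
      ev W (2 ^ e) (D M (D M (mkA L)))) := by
  rw [ev_f h, ev_Df h, ev_DDf h]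
  unfold evs
  rw [force_eq, force_eq, force_eq, force_eq, force_eq, force_eq]
  have h0 := gg0_eq he zs.length
  have h1 := gg1_eq he hz h0
  have h2 := gg2_eq he hz h0 h1
  push_cast
  rw [t0_eq hk rfl h0, t1_eq hk rfl h1, t2_eq hk rfl h2]

theorem ev3_eq {W e k M O : ℕ} {L : List ℤ[X]} {zs : List ℕ} (he : 0 < e)
    (h : L.map (evX W) = zs.map fun z : ℕ => (z : ℤ) - O) (hz : 0 < zs.length) (hk : zs.length ≤ 2 ^ k) :
    ev3 k e M O zs = ev W (2 ^ e) (D M (D M (D M (mkA L)))) := by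
  rw [ev_DDDf h]
  unfold ev3
  rw [force_eq, force_eq, force_eq, force_eq, force_eq, force_eq, force_eq, force_eq]
  have h0 := gg0_eq he zs.length
  have h1 := gg1_eq he hz h0
  have h2 := gg2_eq he hz h0 h1
  have h3 := gg3_eq he hz h0 h1 h2
  push_cast
  rw [t0_eq hk rfl h0, t1_eq hk rfl h1, t2_eq hk rfl h2, t3_eq hk rfl h3]

/-! ## reversal -/

theorem reverse_wts {L : List ℤ[X]} {M : ℕ} (hM : M + 1 ≤ L.length) :
    (wts (-(M : ℤ)) L).reverse = (wts (-((L.length - 1 - M : ℕ) : ℤ)) L.reverse).map fun a => -a := by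
  apply List.ext_getElem
  · simp [len_wts]
  · intro n h1 h2
    have hn : n < L.length := by
      rw [List.length_reverse, len_wts] at h1
      exact h1
    have e1 : ∀ (l : List ℤ[X]) (i : ℕ) (hi : i < l.length), l[i] = l.getD i 0 := fun l i hi =>
      (List.getD_eq_getElem _ _ hi).symm
    rw [List.getElem_reverse, List.getElem_map, e1, e1, getD_wts, getD_wts, len_wts,
      List.getD_eq_getElem _ _ (by omega), List.getD_eq_getElem _ _ (by rw [List.length_reverse]; exact hn),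
      List.getElem_reverse, ← neg_mul]
    congr 1
    rw [← Int.cast_neg]
    congr 1
    have e2 : ((L.length - 1 - M : ℕ) : ℤ) = (L.length : ℤ) - 1 - M := by omega
    have e3 : ((L.length - 1 - n : ℕ) : ℤ) = (L.length : ℤ) - 1 - n := by omega
    rw [e2, e3]
    ring

/-- the reflected derivative -/
theorem reflect_D {L : List ℤ[X]} {M : ℕ} (hM : M + 1 ≤ L.length) :
    reflect (L.length - 1) (D M (mkA L)) = -D (L.length - 1 - M) (mkA L.reverse) := by
  have e1 : L.length - 1 = (wts (-(M : ℤ)) L).length - 1 := by rw [len_wts]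
  rw [D_mkA, D_mkA]
  conv_lhs => rw [e1]
  rw [reflect_mkA, reverse_wts hM, mkA_neg]

theorem reflect_DD {L : List ℤ[X]} {M : ℕ} (hM : M + 1 ≤ L.length) :
    reflect (L.length - 1) (D M (D M (mkA L))) =
      D (L.length - 1 - M) (D (L.length - 1 - M) (mkA L.reverse)) := by
  have e1 : L.length - 1 = (wts (-(M : ℤ)) L).length - 1 := by rw [len_wts]
  have e2 : M + 1 ≤ (wts (-(M : ℤ)) L).length := by rw [len_wts]; exact hM
  have e3 : reflect ((wts (-(M : ℤ)) L).length - 1) (D M (mkA (wts (-(M : ℤ)) L))) =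
      -D ((wts (-(M : ℤ)) L).length - 1 - M) (mkA (wts (-(M : ℤ)) L).reverse) := reflect_D e2
  rw [D_mkA M L]
  conv_lhs => rw [e1]
  rw [e3, reverse_wts hM, len_wts, mkA_neg, ← D_mkA]
  unfold D
  rw [derivative_neg]
  ring

end Pool.Agent.EM.Ck
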