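import Pool.Agent.EM.Ck.RepL

/-!
# EM checker, CK-11: the certificate polynomial

With `t = tn/td`, `κ = fR bc Mc kc` (`κ, κ', κ''` represented by `kc`, `i D kc`, `- D D kc`), `a = fa bc Mc (ae, ao)`
(derivatives by `D2`), `q = 2^bc`, in units `q⁻⁴`:
`16 tn td q⁴ (cR - λ P + mg0) = tn² (4 a⁴ - 32 q a² a1 + 28 q² a1² + 24 q² a a2 - 8 q³ a3)
 + tn td (20 a² κ² - 40 q a1 κ² - 40 q a κ κ1 - 16 q² κ κ2 - 8 q² κ1²) + (25 td² - 20 tn td) κ⁴
 + 16 tn td q⁴ (mg0 - λ P)`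
where now `a, a1, ..., κ, κ1, κ2` are the functions times `q` (check with `field_simp; ring` from the definitions of `cb`,
`cb1`, `cb2`, `cR`; `P > 0` is not needed).  `qA = 2^bc X^Mc` represents the constant `q` with centre `Mc`.
The proof: the value of `PE` at `(θ, x)` is computed with `fn_mul`, `fn_add`, ... and compared; `fn2` of pairs:
`fn2 (M + N) (mul2 F G) = fn2 M F * fn2 N G`.
-/

set_option autoImplicit false

open scoped Real ContDiff ComplexConjugate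
open Polynomial

namespace Pool.Agent.EM.Ck

open Pool.Agent.helper19.EL

/-- a pair times an element of the ring -/
def sc2 {R : Type*} [Ring R] (z : R) (F : R × R) : R × R := (z * F.1, z * F.2)
def add2 {R : Type*} [Ring R] (F G : R × R) : R × R := (F.1 + G.1, F.2 + G.2)

/-- the certificate as a function of ring elements: `a, a1, a2, a3` pairs; `k, k1, k2` (`D` applied, without `i`);
`q` the constant `2^bc`; `z` the element representing `16 tn td q⁴ (mg0 - λ P)` -/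
def cE {R : Type*} [Ring R] (tn td : ℤ) (q : R) (a a1 a2 a3 : R × R) (k k1 k2 z : R) : R × R :=
  let u := mul2 a a
  let v := k * k
  let r := add2 (sc2 ((4 * tn : ℤ) : R) u) (((5 * td : ℤ) : R) * v, 0)
  add2 (add2
    (add2 (sc2 ((tn * tn * 4 : ℤ) : R) (mul2 u u)) (sc2 (((tn * td * 20 : ℤ) : R) * v) u))
    (add2 (sc2 (((-8 * tn : ℤ) : R) * q) (mul2 a1 r)) (sc2 (((tn * tn * 4 : ℤ) : R) * (q * q))
      (add2 (sc2 ((7 : ℤ) : R) (mul2 a1 a1)) (sc2 ((6 : ℤ) : R) (mul2 a a2))))))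
    (add2 (add2 (sc2 (((-8 * tn * tn : ℤ) : R) * (q * q * q)) a3)
      (sc2 (((-40 * tn * td : ℤ) : R) * q) (mul2 a (0, k * k1))))
      (((8 * tn * td : ℤ) : R) * (q * q) * (((2 : ℤ) : R) * (k * k2) + k1 * k1) +
        ((25 * td * td - 20 * tn * td : ℤ) : R) * (v * v) + z, 0))

/-- the element representing `16 tn td q⁴ (mg0 - λ P)`, centre `4 Mc` -/
noncomputable def zE (tn td : ℤ) (bc bL bP Mc : ℕ) (L0 L1 L2 G0 : ℤ) (p : ℤ[X]) : A :=
  ((16 * tn * td * 2 ^ (4 * bc - (bL + bP)) : ℤ) : A) *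
    (X ^ (4 * Mc) * C (C (G0 * 2 ^ bP) - (C L0 + C L1 * X + C L2 * X ^ 2) * p))

/-- the pair of the certificate, centre `4 Mc` -/
noncomputable def PE (tn td : ℤ) (bc bL bP Mc : ℕ) (L0 L1 L2 G0 : ℤ) (ae ao kc : A) (p : ℤ[X]) : A × A :=
  cE tn td (((2 ^ bc : ℤ) : A) * X ^ Mc) (ae, ao) (D2 Mc (ae, ao)) (D2 Mc (D2 Mc (ae, ao)))
    (D2 Mc (D2 Mc (D2 Mc (ae, ao)))) kc (D Mc kc) (D Mc (D Mc kc)) (zE tn td bc bL bP Mc L0 L1 L2 G0 p)

/-- value of a pair -/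
private noncomputable def FactsE_V (θ x : ℝ) (F : A × A) : ℂ := an θ x F.1 + Complex.I * an θ x F.2

private lemma FactsE_mul (θ x : ℝ) (F G : A × A) : FactsE_V θ x (mul2 F G) = FactsE_V θ x F * FactsE_V θ x G := by
  simp only [FactsE_V, mul2, map_sub, map_add, map_mul]
  linear_combination (-(an θ x F.2 * an θ x G.2)) * Complex.I_sq

private lemma FactsE_add (θ x : ℝ) (F G : A × A) : FactsE_V θ x (add2 F G) = FactsE_V θ x F + FactsE_V θ x G := by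
  simp only [FactsE_V, add2, map_add]
  ring

private lemma FactsE_sc (θ x : ℝ) (z : A) (F : A × A) : FactsE_V θ x (sc2 z F) = an θ x z * FactsE_V θ x F := by
  simp only [FactsE_V, sc2, map_mul]
  ring

private lemma FactsE_left (θ x : ℝ) (z : A) : FactsE_V θ x (z, 0) = an θ x z := by
  simp only [FactsE_V, map_zero, mul_zero, add_zero]

private lemma FactsE_right (θ x : ℝ) (z : A) : FactsE_V θ x (0, z) = Complex.I * an θ x z := by
  simp only [FactsE_V, map_zero, zero_add]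

private lemma FactsE_cE (θ x : ℝ) (tn td : ℤ) (q : A) (a a1 a2 a3 : A × A) (k k1 k2 z : A) :
    FactsE_V θ x (cE tn td q a a1 a2 a3 k k1 k2 z) =
      (4 * tn ^ 2 : ℂ) * FactsE_V θ x a ^ 4 + (20 * tn * td : ℂ) * an θ x k ^ 2 * FactsE_V θ x a ^ 2
      - (8 * tn : ℂ) * an θ x q * (FactsE_V θ x a1 * ((4 * tn : ℂ) * FactsE_V θ x a ^ 2 +
        (5 * td : ℂ) * an θ x k ^ 2))
      + (4 * tn ^ 2 : ℂ) * an θ x q ^ 2 * (7 * FactsE_V θ x a1 ^ 2 + 6 * (FactsE_V θ x a * FactsE_V θ x a2))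
      - (8 * tn ^ 2 : ℂ) * an θ x q ^ 3 * FactsE_V θ x a3
      - (40 * tn * td : ℂ) * an θ x q * (FactsE_V θ x a * (Complex.I * (an θ x k * an θ x k1)))
      + (8 * tn * td : ℂ) * an θ x q ^ 2 * (2 * (an θ x k * an θ x k2) + an θ x k1 ^ 2)
      + (25 * td ^ 2 - 20 * tn * td : ℂ) * an θ x k ^ 4 + an θ x z := by
  simp only [cE, FactsE_mul, FactsE_add, FactsE_sc, FactsE_left, FactsE_right, map_mul, map_add, map_intCast]
  push_cast
  ring

private lemma FactsE_fn (M : ℕ) (f : A) (θ x : ℝ) :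
    fn M f θ x = Complex.exp (-(M : ℂ) * (θ * Complex.I)) * an θ x f := rfl

private lemma FactsE_fn2 (M : ℕ) (F : A × A) (θ x : ℝ) :
    fn2 M F θ x = Complex.exp (-(M : ℂ) * (θ * Complex.I)) * FactsE_V θ x F := by
  rw [fn2, FactsE_fn, FactsE_fn, FactsE_V]
  ring

private lemma FactsE_X (θ x : ℝ) (M : ℕ) :
    Complex.exp (-(M : ℂ) * (θ * Complex.I)) * an θ x (X ^ M) = 1 := by
  have h : an θ x X = Complex.exp (θ * Complex.I) := by simp [an]
  rw [map_pow, h, ← Complex.exp_nat_mul, ← Complex.exp_add]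
  simp

private lemma FactsE_four (θ : ℝ) (M : ℕ) :
    Complex.exp (-((4 * M : ℕ) : ℂ) * (θ * Complex.I)) = Complex.exp (-(M : ℂ) * (θ * Complex.I)) ^ 4 := by
  rw [← Complex.exp_nat_mul]
  congr 1
  push_cast
  ring

private lemma FactsE_zE (θ x : ℝ) (tn td : ℤ) (bc bL bP Mc : ℕ) (L0 L1 L2 G0 : ℤ) (p : ℤ[X]) :
    Complex.exp (-((4 * Mc : ℕ) : ℂ) * (θ * Complex.I)) * an θ x (zE tn td bc bL bP Mc L0 L1 L2 G0 p) =
      16 * tn * td * 2 ^ (4 * bc - (bL + bP)) *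
        (G0 * 2 ^ bP - (L0 + L1 * x + L2 * x ^ 2) * anX x p) := by
  have h := FactsE_X θ x (4 * Mc)
  have hC : ∀ r : ℤ[X], an θ x (C r) = anX x r := fun r => by simp [an]
  have hX : anX x X = (x : ℂ) := by simp [anX]
  have hc : ∀ z : ℤ, anX x (C z) = (z : ℂ) := fun z => by simp [anX]
  have h1 : anX x (C (G0 * 2 ^ bP) - (C L0 + C L1 * X + C L2 * X ^ 2) * p) =
      G0 * 2 ^ bP - (L0 + L1 * x + L2 * x ^ 2) * anX x p := by
    rw [map_sub, hc]
    simp only [map_mul, map_add, map_pow, hX, hc]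
    push_cast
    ring
  rw [zE, map_mul, map_mul, hC, map_intCast, h1]
  push_cast at h ⊢
  linear_combination (16 * tn * td * 2 ^ (4 * bc - (bL + bP)) *
        (G0 * 2 ^ bP - (L0 + L1 * x + L2 * x ^ 2) * anX x p) : ℂ) * h

theorem rep_E {tn td : ℤ} {bc bL bP Mc : ℕ} {L0 L1 L2 G0 : ℤ} {ae ao kc : A} {p : ℤ[X]} (htn : 0 < tn)
    (htd : 0 < td) (hb : bL + bP ≤ 4 * bc) (hkc : ∀ θ x, (fn Mc kc θ x).im = 0)
    (hae : ∀ θ x, (fn Mc ae θ x).im = 0) (hao : ∀ θ x, (fn Mc ao θ x).re = 0) :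
    Rep2 (fun θ x => cR (tn / td) (fR bc Mc kc θ x) (pu (fR bc Mc kc) θ x) (pu (pu (fR bc Mc kc)) θ x)
        (fa bc Mc (ae, ao) θ x) (pu (fa bc Mc (ae, ao)) θ x) (pu (pu (fa bc Mc (ae, ao))) θ x)
        (pu (pu (pu (fa bc Mc (ae, ao)))) θ x) -
        ((L0 / 2 ^ bL : ℝ) + L1 / 2 ^ bL * x + L2 / 2 ^ bL * x ^ 2) * fP bP p x + G0 / 2 ^ bL)
      (1 / (16 * tn * td * 2 ^ (4 * bc))) (4 * Mc) (PE tn td bc bL bP Mc L0 L1 L2 G0 ae ao kc p) := by
  intro θ x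
  set e : ℂ := Complex.exp (-(Mc : ℂ) * (θ * Complex.I)) with he
  have he0 : e ≠ 0 := Complex.exp_ne_zero _
  have hq : (2 : ℂ) ^ bc ≠ 0 := pow_ne_zero _ two_ne_zero
  have hL : (2 : ℂ) ^ bL ≠ 0 := pow_ne_zero _ two_ne_zero
  have hP : (2 : ℂ) ^ bP ≠ 0 := pow_ne_zero _ two_ne_zero
  have htn' : (tn : ℂ) ≠ 0 := by exact_mod_cast htn.ne'
  have htd' : (td : ℂ) ≠ 0 := by exact_mod_cast htd.ne'
  -- curvature
  have rk : Rep (fR bc Mc kc) (1 / 2 ^ bc) Mc kc := rep_fR hkc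
  have ek := rk θ x
  have ek1 := rk.dpu θ x
  have ek2 := rk.dpu.dpu θ x
  have ra : Rep2 (fa bc Mc (ae, ao)) (1 / 2 ^ bc) Mc (ae, ao) := rep2_fa hae hao
  have ea := ra θ x
  have ea1 := ra.dpu θ x
  have ea2 := ra.dpu.dpu θ x
  have ea3 := ra.dpu.dpu.dpu θ x
  rw [FactsE_fn, ← he] at ek ek1 ek2
  rw [FactsE_fn2, ← he] at ea ea1 ea2 ea3
  have eP : ((fP bP p x : ℝ) : ℂ) = anX x p / 2 ^ bP := by
    rw [fP]
    push_cast
    congr 1
    apply Complex.ext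
    · simp
    · simp [anX_im]
  have hz := FactsE_zE θ x tn td bc bL bP Mc L0 L1 L2 G0 p
  have hX := FactsE_X θ x Mc
  rw [← he] at hX
  have h2 : (2 : ℂ) ^ (4 * bc) = 2 ^ (4 * bc - (bL + bP)) * (2 ^ bL * 2 ^ bP) := by
    rw [← pow_add, ← pow_add]
    congr 1
    omega
  have h3 : (2 : ℂ) ^ (4 * bc) = (2 ^ bc) ^ 4 := by
    rw [← pow_mul]
    congr 1
    omega
  have hqA : an θ x (((2 ^ bc : ℤ) : A) * X ^ Mc) = 2 ^ bc * e⁻¹ := by
    rw [map_mul, map_intCast]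
    have : an θ x (X ^ Mc) = e⁻¹ := by
      field_simp
      linear_combination hX
    rw [this]
    push_cast
    rfl
  rw [FactsE_fn2, PE, FactsE_cE, hqA]
  rw [mul_add, mul_add, hz, FactsE_four, ← he]
  simp only [cR, cb, cb1, cb2]
  push_cast
  rw [ek, ek1, ek2, ea, ea1, ea2, ea3, eP]
  generalize FactsE_V θ x (ae, ao) = a
  generalize FactsE_V θ x (D2 Mc (ae, ao)) = a1
  generalize FactsE_V θ x (D2 Mc (D2 Mc (ae, ao))) = a2
  generalize FactsE_V θ x (D2 Mc (D2 Mc (D2 Mc (ae, ao)))) = a3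
  generalize an θ x kc = k
  generalize an θ x (D Mc kc) = k1
  generalize an θ x (D Mc (D Mc kc)) = k2
  generalize anX x p = P
  generalize (2 : ℂ) ^ (4 * bc - (bL + bP)) = w at h2 ⊢
  rw [h3] at h2 ⊢
  generalize (2 : ℂ) ^ bc = q at hq h2 ⊢
  generalize (2 : ℂ) ^ bL = l at hL h2 ⊢
  generalize (2 : ℂ) ^ bP = m at hP h2 ⊢
  have hz2 : (1 : ℂ) / (16 * tn * td * q ^ 4) * (16 * tn * td * w * (G0 * m - (L0 + L1 * x + L2 * x ^ 2) * P)) =
      G0 / l - (L0 / l + L1 / l * x + L2 / l * x ^ 2) * (P / m) := by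
    rw [h2]
    have hw : w ≠ 0 := by
      rintro rfl
      rw [zero_mul] at h2
      exact hq (pow_eq_zero_iff (by norm_num) |>.1 h2)
    field_simp
  rw [mul_add, hz2]
  field_simp
  linear_combination (-(e ^ 2 * tn * q ^ 2 * td * k * k2 * l * m * 1024) -
    e ^ 2 * tn * q ^ 2 * td * k1 ^ 2 * l * m * 512) * Complex.I_sq

end Pool.Agent.EM.Ck
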