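import Pool.Agent.EM.Ck.FactsC
import Pool.Agent.EM.Ck.FactsE
import Pool.Agent.EM.EM19

/-!
# EM checker, CK-12: from polynomial data with `l¹` bounds to `XFacts`

Every field of `XFacts` follows from a `Rep` (`rep_B`, `rep_A`, `rep_R`, `rep_fR`, `rep2_fa`, `rep_E`), the derivative rules
`Rep.dpu`, `Rep.dpt`, and the bound `Rep.abs_le` (`‖c‖ * l1 ≤ ..`; the hypotheses are inequalities in `ℚ`, cast them).
`pu (fun θ x => g θ x - g' θ x) = pu g - pu g'` for smooth `g, g'` (`Rep.contDiff`, `contDiff_fn`).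
`P`: `anX_eq_sum`; `|x| ≤ 1`.
-/

set_option autoImplicit false

open scoped Real ContDiff ComplexConjugate
open Polynomial

namespace Pool.Agent.EM.Ck

open Pool.Agent.helper19.EL

/-- polynomial data of one interval -/
structure PD where
  (b bP bK bc hn bh e N M MK Mc bL : ℕ) (tn td L0 L1 L2 G0 : ℤ)
  (f0 k kc ae ao : A) (p : ℤ[X]) (x : XNum ℚ)

namespace PD

noncomputable def pB (d : PD) : A := PB d.b d.M d.N d.f0
noncomputable def pA (d : PD) : A := PA d.b d.M d.N d.bK d.MK d.f0 d.k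
noncomputable def pR (d : PD) : A :=
  PR d.b d.M d.N d.bK d.MK d.bP d.hn d.bh d.e (max d.N (3 * d.MK)) d.f0 d.k d.p
/-- `2^bK (K - Kc)`, centre `MK` -/
noncomputable def pc (d : PD) : A := d.k - ((2 ^ (d.bK - d.bc) : ℤ) : A) * (X ^ (d.MK - d.Mc) * d.kc)
noncomputable def pE (d : PD) : A × A :=
  PE d.tn d.td d.bc d.bL d.bP d.Mc d.L0 d.L1 d.L2 d.G0 d.ae d.ao d.kc d.p

/-- everything which is checked -/
structure Ok (d : PD) : Prop where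
  hf : d.f0.natDegree ≤ d.N
  hM : d.M ≤ d.N
  hMK : d.MK ≤ d.N
  hMc : d.Mc ≤ d.MK
  hb1 : d.bK ≤ 2 * d.b + 1
  hb2 : 2 * d.b + d.bP ≤ d.e
  hb3 : d.bh + 3 * d.bK ≤ d.e
  hb4 : d.bL + d.bP ≤ 4 * d.bc
  hb5 : d.bc ≤ d.bK
  htn : 0 < d.tn
  htd : 0 < d.td
  sk : ∀ θ x, (fn d.MK d.k θ x).im = 0
  skc : ∀ θ x, (fn d.Mc d.kc θ x).im = 0
  sae : ∀ θ x, (fn d.Mc d.ae θ x).im = 0
  sao : ∀ θ x, (fn d.Mc d.ao θ x).re = 0
  h : d.x.h = d.hn / 2 ^ d.bh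
  eta : 1 - d.x.eta' = d.tn / d.td
  lam0 : d.x.lam0 = d.L0 / 2 ^ d.bL
  lam1 : d.x.lam1 = d.L1 / 2 ^ d.bL
  lam2 : d.x.lam2 = d.L2 / 2 ^ d.bL
  P_le : (d.p.coeff 0 : ℚ) + ∑ i ∈ Finset.range d.p.natDegree, |(d.p.coeff (i + 1) : ℚ)| ≤ d.x.Phi * 2 ^ d.bP
  le_P : d.x.Plo * 2 ^ d.bP ≤ (d.p.coeff 0 : ℚ) - ∑ i ∈ Finset.range d.p.natDegree, |(d.p.coeff (i + 1) : ℚ)|
  dP : ∑ i ∈ Finset.range d.p.natDegree, (i + 1) * |(d.p.coeff (i + 1) : ℚ)| ≤ d.x.dP * 2 ^ d.bP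
  B0 : (l1 d.pB : ℚ) ≤ d.x.eB0 * 2 ^ (2 * d.b)
  B1 : (l1 (D d.N d.pB) : ℚ) ≤ d.x.eB1 * 2 ^ (2 * d.b)
  B2 : (l1 (D d.N (D d.N d.pB)) : ℚ) ≤ d.x.eB2 * 2 ^ (2 * d.b)
  Bx : (l1 (dx d.pB) : ℚ) ≤ d.x.eBx * 2 ^ (2 * d.b)
  A0 : (l1 d.pA : ℚ) ≤ d.x.eA0 * 2 ^ (2 * d.b + 1)
  A1 : (l1 (D d.N d.pA) : ℚ) ≤ d.x.eA1 * 2 ^ (2 * d.b + 1)
  A2 : (l1 (D d.N (D d.N d.pA)) : ℚ) ≤ d.x.eA2 * 2 ^ (2 * d.b + 1)
  Ax : (l1 (dx d.pA) : ℚ) ≤ d.x.eAx * 2 ^ (2 * d.b + 1)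
  R : (l1 d.pR : ℚ) ≤ d.x.eR * (8 * 2 ^ d.e)
  K0 : (l1 d.k : ℚ) ≤ d.x.k0 * 2 ^ d.bK
  K1 : (l1 (D d.MK d.k) : ℚ) ≤ d.x.k1 * 2 ^ d.bK
  K2 : (l1 (D d.MK (D d.MK d.k)) : ℚ) ≤ d.x.k2 * 2 ^ d.bK
  Kx : (l1 (dx d.k) : ℚ) ≤ d.x.kx * 2 ^ d.bK
  c0 : (l1 d.pc : ℚ) ≤ d.x.ec0 * 2 ^ d.bK
  c1 : (l1 (D d.MK d.pc) : ℚ) ≤ d.x.ec1 * 2 ^ d.bK
  c2 : (l1 (D d.MK (D d.MK d.pc)) : ℚ) ≤ d.x.ec2 * 2 ^ d.bK
  kc0 : (l1 d.kc : ℚ) ≤ d.x.kc0 * 2 ^ d.bc
  kc1 : (l1 (D d.Mc d.kc) : ℚ) ≤ d.x.kc1 * 2 ^ d.bc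
  kc2 : (l1 (D d.Mc (D d.Mc d.kc)) : ℚ) ≤ d.x.kc2 * 2 ^ d.bc
  a0 : (l1 d.ae + l1 d.ao : ℚ) ≤ d.x.A0 * 2 ^ d.bc
  a1 : (l1 (D d.Mc d.ae) + l1 (D d.Mc d.ao) : ℚ) ≤ d.x.A1 * 2 ^ d.bc
  a2 : (l1 (D d.Mc (D d.Mc d.ae)) + l1 (D d.Mc (D d.Mc d.ao)) : ℚ) ≤ d.x.A2 * 2 ^ d.bc
  a3 : (l1 (D d.Mc (D d.Mc (D d.Mc d.ae))) + l1 (D d.Mc (D d.Mc (D d.Mc d.ao))) : ℚ) ≤ d.x.A3 * 2 ^ d.bc
  cert : (l1 d.pE.1 + l1 d.pE.2 : ℚ) ≤ 16 * d.tn * d.td * 2 ^ (4 * d.bc) * (d.G0 / 2 ^ d.bL - d.x.mg)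

/-! ### Auxiliary lemmas -/

theorem Facts_le {g : ℝ → ℝ → ℝ} {c : ℂ} {M : ℕ} {f : A} (h : Rep g c M f) {Q : ℚ} (hQ : 0 < Q)
    (hc : ‖c‖ = 1 / (Q : ℝ)) {r : ℚ} (hl : (l1 f : ℚ) ≤ r * Q) (θ : ℝ) {x : ℝ}
    (hx : x ∈ Set.Icc (-1 : ℝ) 1) : |g θ x| ≤ (r : ℝ) := by
  have h1 := h.abs_le θ hx
  have hQ' : (0 : ℝ) < (Q : ℝ) := by exact_mod_cast hQ
  have h2 : ((l1 f : ℕ) : ℝ) ≤ (r : ℝ) * (Q : ℝ) := by exact_mod_cast hl
  rw [hc] at h1
  refine h1.trans ?_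
  rw [one_div, inv_mul_eq_div, div_le_iff₀ hQ']
  exact h2

theorem Facts_le2 {g : ℝ → ℝ → ℝ} {c : ℂ} {M : ℕ} {F : A × A} (h : Rep2 g c M F) {Q : ℚ} (hQ : 0 < Q)
    (hc : ‖c‖ = 1 / (Q : ℝ)) {r : ℚ} (hl : ((l1 F.1 : ℚ) + l1 F.2) ≤ r * Q) (θ : ℝ) {x : ℝ}
    (hx : x ∈ Set.Icc (-1 : ℝ) 1) : |g θ x| ≤ (r : ℝ) := by
  have h1 := h.abs_le θ hx
  have hQ' : (0 : ℝ) < (Q : ℝ) := by exact_mod_cast hQ
  have h2 : ((l1 F.1 : ℕ) : ℝ) + ((l1 F.2 : ℕ) : ℝ) ≤ (r : ℝ) * (Q : ℝ) := by exact_mod_cast hl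
  rw [hc] at h1
  refine h1.trans ?_
  rw [one_div, inv_mul_eq_div, div_le_iff₀ hQ']
  exact h2

/-- norms of the constants -/
theorem Facts_n (b : ℕ) : ‖(1 / 2 ^ b : ℂ)‖ = 1 / (((2 : ℚ) ^ b : ℚ) : ℝ) := by
  rw [norm_div, norm_one, norm_pow, Complex.norm_ofNat]
  push_cast
  rfl

theorem Facts_nI {c : ℂ} {r : ℝ} (h : ‖c‖ = r) : ‖c * Complex.I‖ = r := by
  rw [norm_mul, Complex.norm_I, mul_one, h]

theorem Facts_pu {F G : ℝ → ℝ → ℝ} (h1 : ContDiff ℝ ∞ fun p : ℝ × ℝ => F p.1 p.2 - G p.1 p.2)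
    (h2 : ContDiff ℝ ∞ fun p : ℝ × ℝ => G p.1 p.2) :
    pu (fun θ x => F θ x - G θ x) = fun θ x => pu F θ x - pu G θ x := by
  have h3 : ContDiff ℝ ∞ fun p : ℝ × ℝ => F p.1 p.2 := by
    have := h1.add h2
    simpa using this
  funext θ x
  have e : ContDiff ℝ ∞ fun θ' : ℝ => ((θ', x) : ℝ × ℝ) := contDiff_id.prodMk contDiff_const
  have dF : DifferentiableAt ℝ (fun θ' => F θ' x) θ :=
    ((h3.comp e).differentiable (by simp)).differentiableAt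
  have dG : DifferentiableAt ℝ (fun θ' => G θ' x) θ :=
    ((h2.comp e).differentiable (by simp)).differentiableAt
  simp only [pu]
  exact deriv_fun_sub dF dG

theorem Facts_pt {F G : ℝ → ℝ → ℝ} (h1 : ContDiff ℝ ∞ fun p : ℝ × ℝ => F p.1 p.2 - G p.1 p.2)
    (h2 : ContDiff ℝ ∞ fun p : ℝ × ℝ => G p.1 p.2) :
    pt (fun θ x => F θ x - G θ x) = fun θ x => pt F θ x - pt G θ x := by
  have h3 : ContDiff ℝ ∞ fun p : ℝ × ℝ => F p.1 p.2 := by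
    have := h1.add h2
    simpa using this
  funext θ x
  have e : ContDiff ℝ ∞ fun x' : ℝ => ((θ, x') : ℝ × ℝ) := contDiff_const.prodMk contDiff_id
  have dF : DifferentiableAt ℝ (fun x' => F θ x') x :=
    ((h3.comp e).differentiable (by simp)).differentiableAt
  have dG : DifferentiableAt ℝ (fun x' => G θ x') x :=
    ((h2.comp e).differentiable (by simp)).differentiableAt
  simp only [pt]
  exact deriv_fun_sub dF dG

theorem Facts_pu1 {F : ℝ → ℝ → ℝ} : pu (fun θ x => F θ x - 1) = pu F := by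
  funext θ x
  simp only [pu]
  exact deriv_sub_const (1 : ℝ)

theorem Facts_pt1 {F : ℝ → ℝ → ℝ} : pt (fun θ x => F θ x - 1) = pt F := by
  funext θ x
  simp only [pt]
  exact deriv_sub_const (1 : ℝ)

/-- the value of an integer polynomial -/
theorem Facts_val (p : ℤ[X]) (x : ℝ) : (anX x p).re =
    (p.coeff 0 : ℝ) + ∑ i ∈ Finset.range p.natDegree, (p.coeff (i + 1) : ℝ) * x ^ (i + 1) := by
  rw [anX_eq_sum x p le_rfl, Complex.ofReal_re, Finset.sum_range_succ', pow_zero, mul_one, add_comm]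

theorem Facts_sum {x : ℝ} (hx : x ∈ Set.Icc (-1 : ℝ) 1) (p : ℤ[X]) :
    |∑ i ∈ Finset.range p.natDegree, (p.coeff (i + 1) : ℝ) * x ^ (i + 1)| ≤
      ∑ i ∈ Finset.range p.natDegree, |(p.coeff (i + 1) : ℝ)| := by
  refine (Finset.abs_sum_le_sum_abs _ _).trans (Finset.sum_le_sum fun i _ => ?_)
  rw [abs_mul, abs_pow]
  exact mul_le_of_le_one_right (abs_nonneg _) (pow_le_one₀ (abs_nonneg _) (abs_le.2 hx))

theorem Facts_der (p : ℤ[X]) {x : ℝ} (hx : x ∈ Set.Icc (-1 : ℝ) 1) : |(anX x (derivative p)).re| ≤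
    ∑ i ∈ Finset.range p.natDegree, ((i : ℝ) + 1) * |(p.coeff (i + 1) : ℝ)| := by
  have h1 : (derivative p).natDegree ≤ p.natDegree := (natDegree_derivative_le p).trans (Nat.sub_le _ _)
  rw [anX_eq_sum x _ h1, Complex.ofReal_re, Finset.sum_range_succ]
  have h2 : (derivative p).coeff p.natDegree = 0 := by
    rw [coeff_derivative, coeff_eq_zero_of_natDegree_lt (Nat.lt_succ_self _), zero_mul]
  rw [h2, Int.cast_zero, zero_mul, add_zero]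
  refine (Finset.abs_sum_le_sum_abs _ _).trans (Finset.sum_le_sum fun i _ => ?_)
  rw [abs_mul, abs_pow, coeff_derivative]
  have h3 : |x| ^ i ≤ 1 := pow_le_one₀ (abs_nonneg _) (abs_le.2 hx)
  push_cast
  rw [abs_mul]
  have h4 : |(i : ℝ) + 1| = (i : ℝ) + 1 := abs_of_nonneg (by positivity)
  rw [h4, mul_comm |((p.coeff (i + 1) : ℤ) : ℝ)|]
  exact mul_le_of_le_one_right (mul_nonneg (by positivity) (abs_nonneg _)) h3

theorem Facts_Dneg (M : ℕ) (f : A) : D M (-f) = -D M f := by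
  rw [D, D, derivative_neg]
  ring

theorem xfacts (d : PD) (h : d.Ok) :
    XFacts (fC d.b d.M d.f0) (fR d.bK d.MK d.k) (fR d.bc d.Mc d.kc) (fa d.bc d.Mc (d.ae, d.ao)) (fP d.bP d.p)
      d.x.cast := by
  -- representations
  have rB := rep_B (b := d.b) h.hf h.hM
  have rA := rep_A (b := d.b) (bK := d.bK) h.hf h.hM h.hMK h.hb1 h.sk
  have rK : Rep (fR d.bK d.MK d.k) (1 / 2 ^ d.bK) d.MK d.k := rep_fR h.sk
  have rKc : Rep (fR d.bc d.Mc d.kc) (1 / 2 ^ d.bc) d.Mc d.kc := rep_fR h.skc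
  have ra : Rep2 (fa d.bc d.Mc (d.ae, d.ao)) (1 / 2 ^ d.bc) d.Mc (d.ae, d.ao) := rep2_fa h.sae h.sao
  have rR := rep_R (b := d.b) (bK := d.bK) (MK := d.MK) (bP := d.bP) (hn := d.hn) (bh := d.bh) (e := d.e)
    (c := max d.N (3 * d.MK)) (k := d.k) (p := d.p) h.hf h.hM h.sk h.hb2 h.hb3 (le_max_left _ _)
    (le_max_right _ _)
  have rE := rep_E (bc := d.bc) (bL := d.bL) (bP := d.bP) (Mc := d.Mc) (L0 := d.L0) (L1 := d.L1) (L2 := d.L2)
    (G0 := d.G0) (ae := d.ae) (ao := d.ao) (kc := d.kc) (p := d.p) h.htn h.htd h.hb4 h.skc h.sae h.sao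
  have rc : Rep (fun θ x => fR d.bK d.MK d.k θ x - fR d.bc d.Mc d.kc θ x) (1 / 2 ^ d.bK) d.MK d.pc := by
    have h1 := rKc.shift (d.MK - d.Mc)
    rw [Nat.add_sub_cancel' h.hMc] at h1
    have h2 : (1 / 2 ^ d.bK : ℂ) * ((2 ^ (d.bK - d.bc) : ℤ) : ℂ) = 1 / 2 ^ d.bc := by
      have h3 : (2 : ℂ) ^ d.bK = 2 ^ (d.bK - d.bc) * 2 ^ d.bc := by
        rw [← pow_add, Nat.sub_add_cancel h.hb5]
      have h4 : (2 : ℂ) ^ (d.bK - d.bc) ≠ 0 := pow_ne_zero _ two_ne_zero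
      have h5 : (2 : ℂ) ^ d.bc ≠ 0 := pow_ne_zero _ two_ne_zero
      rw [h3]
      push_cast
      field_simp
    exact rK.sub (h1.scale _ h2)
  -- positivity
  have q : ∀ n : ℕ, (0 : ℚ) < 2 ^ n := fun n => by positivity
  have cK := rK.contDiff
  have cKc := rKc.contDiff
  have cA := rA.contDiff
  have cc := rc.contDiff
  -- differences
  have eA1 := Facts_pu cA cK
  have eA2 : pu (pu (fun θ x => xA (fC d.b d.M d.f0) θ x - fR d.bK d.MK d.k θ x)) =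
      fun θ x => pu (pu (xA (fC d.b d.M d.f0))) θ x - pu (pu (fR d.bK d.MK d.k)) θ x := by
    have h1 := rA.dpu.contDiff
    rw [eA1] at h1 ⊢
    exact Facts_pu h1 rK.dpu.contDiff
  have eAx := Facts_pt cA cK
  have ec1 := Facts_pu cc cKc
  have ec2 : pu (pu (fun θ x => fR d.bK d.MK d.k θ x - fR d.bc d.Mc d.kc θ x)) =
      fun θ x => pu (pu (fR d.bK d.MK d.k)) θ x - pu (pu (fR d.bc d.Mc d.kc)) θ x := by
    have h1 := rc.dpu.contDiff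
    rw [ec1] at h1 ⊢
    exact Facts_pu h1 rKc.dpu.contDiff
  have iB : ‖(1 / 2 ^ (2 * d.b) : ℂ)‖ = 1 / (((2 : ℚ) ^ (2 * d.b) : ℚ) : ℝ) := Facts_n _
  have iA : ‖(1 / 2 ^ (2 * d.b + 1) : ℂ)‖ = 1 / (((2 : ℚ) ^ (2 * d.b + 1) : ℚ) : ℝ) := Facts_n _
  have iK : ‖(1 / 2 ^ d.bK : ℂ)‖ = 1 / (((2 : ℚ) ^ d.bK : ℚ) : ℝ) := Facts_n _
  have ic : ‖(1 / 2 ^ d.bc : ℂ)‖ = 1 / (((2 : ℚ) ^ d.bc : ℚ) : ℝ) := Facts_n _
  have hP1 : ∀ x ∈ Set.Icc (-1 : ℝ) 1, fP d.bP d.p x ≤ (d.x.Phi : ℝ) := fun x hx => by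
    have h1 := h.P_le
    have h2 : ((d.p.coeff 0 : ℤ) : ℝ) + ∑ i ∈ Finset.range d.p.natDegree, |((d.p.coeff (i + 1) : ℤ) : ℝ)| ≤
        (d.x.Phi : ℝ) * 2 ^ d.bP := by exact_mod_cast h1
    have h3 := (abs_le.1 (Facts_sum hx d.p)).2
    rw [fP, div_le_iff₀ (by positivity), Facts_val]
    linarith
  have hP2 : ∀ x ∈ Set.Icc (-1 : ℝ) 1, (d.x.Plo : ℝ) ≤ fP d.bP d.p x := fun x hx => by
    have h1 := h.le_P
    have h2 : (d.x.Plo : ℝ) * 2 ^ d.bP ≤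
        ((d.p.coeff 0 : ℤ) : ℝ) - ∑ i ∈ Finset.range d.p.natDegree, |((d.p.coeff (i + 1) : ℤ) : ℝ)| := by
      exact_mod_cast h1
    have h3 := (abs_le.1 (Facts_sum hx d.p)).1
    rw [fP, le_div_iff₀ (by positivity), Facts_val]
    linarith
  have hP3 : ∀ x ∈ Set.Icc (-1 : ℝ) 1, |deriv (fP d.bP d.p) x| ≤ (d.x.dP : ℝ) := fun x hx => by
    have h1 := h.dP
    have h2 : ∑ i ∈ Finset.range d.p.natDegree, ((i : ℝ) + 1) * |((d.p.coeff (i + 1) : ℤ) : ℝ)| ≤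
        (d.x.dP : ℝ) * 2 ^ d.bP := by exact_mod_cast h1
    have h3 : HasDerivAt (fP d.bP d.p) ((anX x (derivative d.p)).re / 2 ^ d.bP) x :=
      (hasDerivAt_anX d.p x).div_const _
    have h4 : (0 : ℝ) < 2 ^ d.bP := by positivity
    rw [h3.deriv, abs_div, abs_of_pos h4, div_le_iff₀ h4]
    exact (Facts_der d.p hx).trans h2
  exact
    { sC := contDiff_const.mul (contDiff_fn _ _)
      sK := cK
      sKc := cKc
      sa := ra.contDiff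
      sP := (contDiff_anX d.p).div_const _
      pC := fun θ x => by rw [fC, fC, fn_per]
      pK := rK.per
      pKc := rKc.per
      pa := ra.per
      P_le := hP1
      le_P := hP2
      dP := hP3
      B0 := fun x hx θ => Facts_le rB (q _) iB h.B0 θ hx
      B1 := fun x hx θ => by
        have := Facts_le rB.dpu (q _) (Facts_nI iB) h.B1 θ hx
        rwa [Facts_pu1] at this
      B2 := fun x hx θ => by
        have := Facts_le rB.dpu.dpu (q _) (Facts_nI (Facts_nI iB)) h.B2 θ hx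
        rwa [Facts_pu1] at this
      Bx := fun x hx θ => by
        have := Facts_le rB.dpt (q _) iB h.Bx θ hx
        rwa [Facts_pt1] at this
      A0 := fun x hx θ => Facts_le rA (q _) iA h.A0 θ hx
      A1 := fun x hx θ => by
        have := Facts_le rA.dpu (q _) (Facts_nI iA) h.A1 θ hx
        rwa [eA1] at this
      A2 := fun x hx θ => by
        have := Facts_le rA.dpu.dpu (q _) (Facts_nI (Facts_nI iA)) h.A2 θ hx
        rwa [eA2] at this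
      Ax := fun x hx θ => by
        have := Facts_le rA.dpt (q _) iA h.Ax θ hx
        rwa [eAx] at this
      R := fun x hx θ => by
        have hc : ‖(1 / (8 * 2 ^ d.e) : ℂ)‖ = 1 / ((8 * (2 : ℚ) ^ d.e : ℚ) : ℝ) := by
          rw [norm_div, norm_one, norm_mul, norm_pow, Complex.norm_ofNat, Complex.norm_ofNat]
          push_cast
          rfl
        have h1 := Facts_le rR (by positivity) hc h.R θ hx
        have h2 : d.x.cast.h = (d.hn : ℝ) / 2 ^ d.bh := by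
          rw [XNum.cast_h, h.h]
          push_cast
          rfl
        rw [h2]
        exact h1
      K0 := fun x hx θ => Facts_le rK (q _) iK h.K0 θ hx
      K1 := fun x hx θ => Facts_le rK.dpu (q _) (Facts_nI iK) h.K1 θ hx
      K2 := fun x hx θ => Facts_le rK.dpu.dpu (q _) (Facts_nI (Facts_nI iK)) h.K2 θ hx
      Kx := fun x hx θ => Facts_le rK.dpt (q _) iK h.Kx θ hx
      c0 := fun x hx θ => Facts_le rc (q _) iK h.c0 θ hx
      c1 := fun x hx θ => by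
        have := Facts_le rc.dpu (q _) (Facts_nI iK) h.c1 θ hx
        rwa [ec1] at this
      c2 := fun x hx θ => by
        have := Facts_le rc.dpu.dpu (q _) (Facts_nI (Facts_nI iK)) h.c2 θ hx
        rwa [ec2] at this
      kc0 := fun x hx θ => Facts_le rKc (q _) ic h.kc0 θ hx
      kc1 := fun x hx θ => Facts_le rKc.dpu (q _) (Facts_nI ic) h.kc1 θ hx
      kc2 := fun x hx θ => Facts_le rKc.dpu.dpu (q _) (Facts_nI (Facts_nI ic)) h.kc2 θ hx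
      a0 := fun x hx θ => Facts_le2 ra (q _) ic h.a0 θ hx
      a1 := fun x hx θ => Facts_le2 ra.dpu (q _) ic (by
        have := h.a1
        simp only [D2, l1_neg]
        linarith) θ hx
      a2 := fun x hx θ => Facts_le2 ra.dpu.dpu (q _) ic (by
        have := h.a2
        simp only [D2, Facts_Dneg, l1_neg]
        linarith) θ hx
      a3 := fun x hx θ => Facts_le2 ra.dpu.dpu.dpu (q _) ic (by
        have := h.a3
        simp only [D2, Facts_Dneg, l1_neg]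
        linarith) θ hx
      cert := fun x hx θ => by
        have htn : (0 : ℚ) < d.tn := by exact_mod_cast h.htn
        have htd : (0 : ℚ) < d.td := by exact_mod_cast h.htd
        have hQ : (0 : ℚ) < 16 * d.tn * d.td * 2 ^ (4 * d.bc) := by positivity
        have hc : ‖(1 / (16 * d.tn * d.td * 2 ^ (4 * d.bc)) : ℂ)‖ =
            1 / ((16 * d.tn * d.td * 2 ^ (4 * d.bc) : ℚ) : ℝ) := by
          have a1 : |(d.tn : ℝ)| = d.tn := abs_of_pos (by exact_mod_cast h.htn)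
          have a2 : |(d.td : ℝ)| = d.td := abs_of_pos (by exact_mod_cast h.htd)
          rw [norm_div, norm_one, norm_mul, norm_mul, norm_mul, norm_pow, Complex.norm_ofNat,
            Complex.norm_ofNat, Complex.norm_intCast, Complex.norm_intCast, a1, a2]
          push_cast
          rfl
        have h0 := h.cert
        have h1 := Facts_le2 rE hQ hc (r := d.G0 / 2 ^ d.bL - d.x.mg) (by
          rw [mul_comm]
          exact h0) θ hx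
        have h2 := (abs_le.1 h1).2
        have e1 : 1 - d.x.cast.eta' = (d.tn : ℝ) / d.td := by
          rw [XNum.cast_etap]
          have := congrArg (fun r : ℚ => (r : ℝ)) h.eta
          push_cast at this
          exact this
        have e2 : d.x.cast.lam0 = (d.L0 : ℝ) / 2 ^ d.bL := by
          rw [XNum.cast_lam0, h.lam0]
          push_cast
          rfl
        have e3 : d.x.cast.lam1 = (d.L1 : ℝ) / 2 ^ d.bL := by
          rw [XNum.cast_lam1, h.lam1]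
          push_cast
          rfl
        have e4 : d.x.cast.lam2 = (d.L2 : ℝ) / 2 ^ d.bL := by
          rw [XNum.cast_lam2, h.lam2]
          push_cast
          rfl
        rw [e1, e2, e3, e4, XNum.cast_mg]
        push_cast at h2
        linarith }

end PD

end Pool.Agent.EM.Ck
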