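import Pool.Agent.EM.Ck.L1

/-!
# EM checker, CK-6: trigonometric polynomials with polynomial coefficients as functions

`fn M f θ x = exp (- i M θ) f(x, exp (i θ))`.  Hints: `an θ x` is a ring homomorphism; for derivatives use
`Polynomial.induction_on'` (sums and monomials `C p * X^n`, `p` a polynomial in `x`), or `HasDerivAt` of `Polynomial.eval`.
`D M f = X * derivative f - M * f`.
-/

set_option autoImplicit false

open scoped Real ContDiff ComplexConjugate
open Polynomial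

namespace Pool.Agent.EM.Ck

private lemma Fn_exp (M : ℕ) (θ : ℝ) : Complex.exp (-(M : ℂ) * (θ * Complex.I)) =
    (Complex.exp (θ * Complex.I) ^ M)⁻¹ := by
  rw [← Complex.exp_nat_mul, ← Complex.exp_neg]
  congr 1
  ring

private lemma Fn_ne (θ : ℝ) : Complex.exp (θ * Complex.I) ≠ 0 := Complex.exp_ne_zero _

private lemma Fn_norm (θ : ℝ) : ‖Complex.exp (θ * Complex.I)‖ = 1 :=
  Complex.norm_exp_ofReal_mul_I θ

private lemma Fn_eq (M : ℕ) (f : A) (θ x : ℝ) : fn M f θ x =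
    (Complex.exp (θ * Complex.I) ^ M)⁻¹ * an θ x f := by
  rw [fn, Fn_exp]

private lemma Fn_an_X (θ x : ℝ) : an θ x X = Complex.exp (θ * Complex.I) := by
  simp [an]

private lemma Fn_an_C (θ x : ℝ) (p : ℤ[X]) : an θ x (C p) = anX x p := by
  simp [an]

private lemma Fn_an_eval₂ (θ x : ℝ) (f : A) :
    an θ x f = eval₂ (anX x) (Complex.exp (θ * Complex.I)) f := by
  rw [an, RingHom.comp_apply, coe_mapRingHom, coe_evalRingHom, eval_map]

private lemma Fn_an_sum (θ x : ℝ) (f : A) :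
    an θ x f = ∑ n ∈ f.support, anX x (f.coeff n) * Complex.exp (θ * Complex.I) ^ n := by
  rw [Fn_an_eval₂, eval₂_eq_sum, Polynomial.sum]

theorem fn_add (M : ℕ) (f g : A) (θ x : ℝ) : fn M (f + g) θ x = fn M f θ x + fn M g θ x := by
  rw [fn, fn, fn, map_add, mul_add]

theorem fn_sub (M : ℕ) (f g : A) (θ x : ℝ) : fn M (f - g) θ x = fn M f θ x - fn M g θ x := by
  rw [fn, fn, fn, map_sub, mul_sub]

theorem fn_neg (M : ℕ) (f : A) (θ x : ℝ) : fn M (-f) θ x = -fn M f θ x := by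
  rw [fn, fn, map_neg, mul_neg]

theorem fn_mul (M N : ℕ) (f g : A) (θ x : ℝ) : fn (M + N) (f * g) θ x = fn M f θ x * fn N g θ x := by
  rw [Fn_eq, Fn_eq, Fn_eq, map_mul, pow_add, mul_inv]
  ring

theorem fn_int_mul (M : ℕ) (z : ℤ) (f : A) (θ x : ℝ) : fn M ((z : A) * f) θ x = z * fn M f θ x := by
  rw [fn, fn, map_mul, map_intCast]
  ring

theorem fn_shift (M j : ℕ) (f : A) (θ x : ℝ) : fn (M + j) (X ^ j * f) θ x = fn M f θ x := by
  rw [Fn_eq, Fn_eq, map_mul, map_pow, Fn_an_X, pow_add, mul_inv, mul_assoc, ← mul_assoc _ _ (an θ x f),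
    inv_mul_cancel₀ (pow_ne_zero _ (Fn_ne θ)), one_mul]

theorem fn_one (θ x : ℝ) : fn 0 1 θ x = 1 := by
  rw [Fn_eq, map_one, pow_zero, inv_one, mul_one]

theorem fn_X_pow (j : ℕ) (θ x : ℝ) : fn j (X ^ j) θ x = 1 := by
  have h := fn_shift 0 j 1 θ x
  rw [zero_add, mul_one, fn_one] at h
  exact h

theorem fn_C_mul (M : ℕ) (p : ℤ[X]) (f : A) (θ x : ℝ) : fn M (C p * f) θ x = anX x p * fn M f θ x := by
  rw [fn, fn, map_mul, Fn_an_C]
  ring

private lemma Fn_anX (x : ℝ) (p : ℤ[X]) :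
    anX x p = ((eval x (p.map (Int.castRingHom ℝ)) : ℝ) : ℂ) := by
  have h := hom_eval₂ p (Int.castRingHom ℝ) Complex.ofRealHom x
  rw [anX, coe_eval₂RingHom, eval_map, ← Complex.ofRealHom_eq_coe, ← Complex.ofRealHom_eq_coe, h]
  congr 1

theorem anX_im (x : ℝ) (p : ℤ[X]) : (anX x p).im = 0 := by
  rw [Fn_anX, Complex.ofReal_im]

theorem anX_eq_sum (x : ℝ) (p : ℤ[X]) {k : ℕ} (hk : p.natDegree ≤ k) :
    anX x p = ((∑ i ∈ Finset.range (k + 1), (p.coeff i : ℝ) * x ^ i : ℝ) : ℂ) := by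
  rw [Fn_anX, eval_map, eval₂_eq_sum_range' _ (Nat.lt_succ_of_le hk)]
  rfl

theorem hasDerivAt_anX (p : ℤ[X]) (x : ℝ) : HasDerivAt (fun x => (anX x p).re) (anX x (derivative p)).re x := by
  simp only [Fn_anX, Complex.ofReal_re, ← derivative_map]
  exact Polynomial.hasDerivAt _ x

private lemma Fn_cd (q : ℝ[X]) : ContDiff ℝ ∞ fun x : ℝ => eval x q := by
  have h := Polynomial.contDiff_aeval (𝕜 := ℝ) q ∞
  simpa only [Polynomial.coe_aeval_eq_eval] using h

theorem contDiff_anX (p : ℤ[X]) : ContDiff ℝ ∞ fun x => (anX x p).re := by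
  simp only [Fn_anX, Complex.ofReal_re]
  exact Fn_cd _

private lemma Fn_norm_anX {x : ℝ} (hx : x ∈ Set.Icc (-1 : ℝ) 1) (p : ℤ[X]) :
    ‖anX x p‖ ≤ ((p.sum fun _ a => a.natAbs : ℕ) : ℝ) := by
  have h1 : anX x p = ∑ n ∈ p.support, ((p.coeff n : ℤ) : ℂ) * (x : ℂ) ^ n := by
    rw [anX, coe_eval₂RingHom, eval₂_eq_sum, Polynomial.sum]
    rfl
  rw [h1, Polynomial.sum]
  refine (norm_sum_le _ _).trans ?_
  push_cast
  refine Finset.sum_le_sum fun n _ => ?_
  rw [norm_mul, norm_pow, Complex.norm_real, Complex.norm_intCast, Real.norm_eq_abs]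
  have h2 : |x| ≤ 1 := abs_le.2 hx
  have h3 : |x| ^ n ≤ 1 := pow_le_one₀ (abs_nonneg _) h2
  rw [Nat.cast_natAbs, Int.cast_abs]
  exact mul_le_of_le_one_right (abs_nonneg _) h3

theorem norm_fn_le (M : ℕ) (f : A) (θ : ℝ) {x : ℝ} (hx : x ∈ Set.Icc (-1 : ℝ) 1) : ‖fn M f θ x‖ ≤ l1 f := by
  rw [Fn_eq, norm_mul, norm_inv, norm_pow, Fn_norm, one_pow, inv_one, one_mul, Fn_an_sum]
  refine (norm_sum_le _ _).trans ?_
  rw [l1, Polynomial.sum]
  push_cast
  refine Finset.sum_le_sum fun n _ => ?_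
  rw [norm_mul, norm_pow, Fn_norm, one_pow, mul_one]
  exact Fn_norm_anX hx _

private lemma Fn_cd_exp : ContDiff ℝ ∞ fun p : ℝ × ℝ => Complex.exp (p.1 * Complex.I) :=
  ((Complex.ofRealCLM.contDiff.comp contDiff_fst).mul contDiff_const).cexp

private lemma Fn_cd_anX (q : ℤ[X]) : ContDiff ℝ ∞ fun p : ℝ × ℝ => anX p.2 q := by
  simp only [Fn_anX]
  exact Complex.ofRealCLM.contDiff.comp ((Fn_cd (q.map (Int.castRingHom ℝ))).comp contDiff_snd)

theorem contDiff_fn (M : ℕ) (f : A) : ContDiff ℝ ∞ fun p : ℝ × ℝ => fn M f p.1 p.2 := by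
  simp only [Fn_eq, Fn_an_sum]
  refine ContDiff.mul (ContDiff.inv (Fn_cd_exp.pow M) fun p => pow_ne_zero _ (Fn_ne p.1)) ?_
  exact ContDiff.sum fun n _ => (Fn_cd_anX _).mul (Fn_cd_exp.pow n)

theorem fn_per (M : ℕ) (f : A) (θ x : ℝ) : fn M f (θ + 2 * π) x = fn M f θ x := by
  have h : Complex.exp (((θ + 2 * π : ℝ) : ℂ) * Complex.I) = Complex.exp (θ * Complex.I) := by
    rw [← Complex.exp_periodic (θ * Complex.I)]
    congr 1
    push_cast
    ring
  rw [Fn_eq, Fn_eq, Fn_an_eval₂, Fn_an_eval₂, h]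

private lemma Fn_der_exp (θ : ℝ) : HasDerivAt (fun θ : ℝ => Complex.exp (θ * Complex.I))
    (Complex.exp (θ * Complex.I) * Complex.I) θ := by
  have h1 : HasDerivAt (fun θ : ℝ => (θ : ℂ) * Complex.I) (1 * Complex.I) θ :=
    (Complex.ofRealCLM.hasDerivAt (x := θ)).mul_const Complex.I
  rw [one_mul] at h1
  exact h1.cexp

theorem hasDerivAt_fn_θ (M : ℕ) (f : A) (θ x : ℝ) :
    HasDerivAt (fun θ => fn M f θ x) (Complex.I * fn M (D M f) θ x) θ := by
  have h1 : HasDerivAt (fun θ : ℝ => Complex.exp (-(M : ℂ) * (θ * Complex.I)))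
      (Complex.exp (-(M : ℂ) * (θ * Complex.I)) * (-(M : ℂ) * Complex.I)) θ := by
    have h2 : HasDerivAt (fun θ : ℝ => -(M : ℂ) * ((θ : ℂ) * Complex.I)) (-(M : ℂ) * (1 * Complex.I)) θ :=
      ((Complex.ofRealCLM.hasDerivAt (x := θ)).mul_const Complex.I).const_mul _
    rw [one_mul] at h2
    exact h2.cexp
  have h3 : HasDerivAt (fun θ : ℝ => an θ x f)
      (eval (Complex.exp (θ * Complex.I)) (derivative (f.map (anX x))) *
        (Complex.exp (θ * Complex.I) * Complex.I)) θ := by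
    have h4 : (fun θ : ℝ => an θ x f) =
        (fun z => eval z (f.map (anX x))) ∘ (fun θ : ℝ => Complex.exp (θ * Complex.I)) := by
      funext t
      rfl
    rw [h4]
    exact HasDerivAt.comp θ (Polynomial.hasDerivAt _ _) (Fn_der_exp θ)
  have h5 := h1.mul h3
  refine h5.congr_deriv ?_
  have h6 : an θ x (derivative f) = eval (Complex.exp (θ * Complex.I)) (derivative (f.map (anX x))) := by
    rw [derivative_map]
    rfl
  rw [← h6, fn, D, map_sub, map_mul, map_mul, Fn_an_X, map_natCast]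
  ring

private lemma Fn_an_dx (θ x : ℝ) (f : A) :
    an θ x (dx f) = ∑ n ∈ f.support, anX x (derivative (f.coeff n)) * Complex.exp (θ * Complex.I) ^ n := by
  rw [dx, Polynomial.sum, map_sum]
  refine Finset.sum_congr rfl fun n _ => ?_
  rw [← C_mul_X_pow_eq_monomial, map_mul, map_pow, Fn_an_X, Fn_an_C]

theorem hasDerivAt_fn_x (M : ℕ) (f : A) (θ x : ℝ) :
    HasDerivAt (fun x => fn M f θ x) (fn M (dx f) θ x) x := by
  have h1 : ∀ p : ℤ[X], HasDerivAt (fun x : ℝ => anX x p) (anX x (derivative p)) x := fun p => by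
    simp only [Fn_anX, ← derivative_map]
    exact (Polynomial.hasDerivAt (p.map (Int.castRingHom ℝ)) x).ofReal_comp
  have h2 : HasDerivAt (fun x : ℝ => an θ x f) (an θ x (dx f)) x := by
    simp only [Fn_an_dx]
    have h3 : (fun x : ℝ => an θ x f) = fun x : ℝ =>
        ∑ n ∈ f.support, anX x (f.coeff n) * Complex.exp (θ * Complex.I) ^ n := by
      funext t
      exact Fn_an_sum θ t f
    rw [h3]
    exact HasDerivAt.fun_sum fun n _ => (h1 _).mul_const _
  exact h2.const_mul _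

/-- complex conjugation reverses the coefficients -/
theorem conj_fn {M N : ℕ} {f : A} (h : f.natDegree ≤ N) (hM : M ≤ N) (θ x : ℝ) :
    (starRingEnd ℂ) (fn M f θ x) = fn (N - M) (reflect N f) θ x := by
  have he : (starRingEnd ℂ) (Complex.exp (θ * Complex.I)) = (Complex.exp (θ * Complex.I))⁻¹ := by
    rw [← Complex.exp_conj, map_mul, Complex.conj_ofReal, Complex.conj_I, mul_neg, Complex.exp_neg]
  have hc : (starRingEnd ℂ).comp (anX x) = anX x := by
    apply RingHom.ext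
    intro p
    rw [RingHom.comp_apply, Fn_anX, Complex.conj_ofReal]
  have hne := Fn_ne θ
  have hinv : (Complex.exp (θ * Complex.I))⁻¹ ≠ 0 := inv_ne_zero hne
  let : Invertible ((Complex.exp (θ * Complex.I))⁻¹) := invertibleOfNonzero hinv
  have h1 := eval₂_reflect_mul_pow (anX x) ((Complex.exp (θ * Complex.I))⁻¹) N f h
  rw [invOf_eq_inv, inv_inv] at h1
  rw [Fn_eq, Fn_eq, map_mul, map_inv₀, map_pow, he, Fn_an_eval₂, Fn_an_eval₂, hom_eval₂, hc, he, ← h1,
    inv_pow, inv_pow, inv_inv]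
  have h2 : Complex.exp (θ * Complex.I) ^ N =
      Complex.exp (θ * Complex.I) ^ M * Complex.exp (θ * Complex.I) ^ (N - M) := by
    rw [← pow_add]
    congr 1
    omega
  rw [h2, mul_inv]
  have h3 := pow_ne_zero M hne
  field_simp

end Pool.Agent.EM.Ck
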