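import Pool.Agent.EM.Ck.Comb
import Pool.Agent.EM.Ck.Fn

/-!
# EM checker, CK-9: symmetric and antisymmetric polynomials have real / imaginary values

`conj_fn` with `N = 2 (l.length - 1)` and `reverse_symL`, `reverse_asymL`, `reflect_mkA`.
-/

set_option autoImplicit false

open Polynomial

namespace Pool.Agent.EM.Ck

private theorem Sym_natDegree (L : List ℤ[X]) : (mkA L).natDegree ≤ L.length - 1 := by
  rw [natDegree_le_iff_coeff_eq_zero]
  intro n hn
  rw [coeff_mkA, List.getD_eq_default _ _ (by omega)]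

private theorem Sym_conj {L : List ℤ[X]} {M : ℕ} (h : L.length - 1 = 2 * M) (θ x : ℝ) :
    (starRingEnd ℂ) (fn M (mkA L) θ x) = fn M (mkA L.reverse) θ x := by
  rw [conj_fn (Sym_natDegree L) (by omega) θ x, reflect_mkA]
  congr 1
  omega

theorem im_symL (l : List ℤ[X]) (θ x : ℝ) : (fn (l.length - 1) (mkA (symL l)) θ x).im = 0 := by
  have h := Sym_conj (L := symL l) (M := l.length - 1) (by rw [length_symL]; omega) θ x
  rw [reverse_symL] at h
  exact Complex.conj_eq_iff_im.mp h

theorem re_asymL {l : List ℤ[X]} (hl : l ≠ []) (θ x : ℝ) : (fn (l.length - 1) (mkA (asymL l)) θ x).re = 0 := by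
  have h := Sym_conj (L := asymL l) (M := l.length - 1) (by rw [length_asymL hl]; omega) θ x
  rw [reverse_asymL, mkA_neg, fn_neg] at h
  have h2 := congrArg Complex.re h
  rw [Complex.conj_re, Complex.neg_re] at h2
  linarith

end Pool.Agent.EM.Ck
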