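import Pool.Agent.EM.Ck.CheckE
import Pool.Agent.EM.Ck.CheckP
import Pool.Agent.EM.Ck.Facts
import Pool.Agent.EM.Ck.Evs
import Pool.Agent.EM.Ck.Dec
import Pool.Agent.EM.Ck.Sym

/-!
# EM checker, CK-18: the data of one interval and the complete check
-/

set_option autoImplicit false

open Polynomial

namespace Pool.Agent.EM.Ck

/-- the data of one interval.  `w`: digit width of the evaluation; `Nx`, `Nxe`: digits per mode (curve part and
certificate part); `SC, SK, Sc, Sa`: largest digit widths of the data; the blocks contain 16 modes. -/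
structure XData where
  (w Nx Nxe : ℕ)
  (b bP bK bc hn bh e M nx nc bL SC SK Sc Sa : ℕ)
  (tn td L0 L1 L2 G0 : ℤ)
  (cB kB kcB aeB aoB : List (ℕ × ℕ))
  (p : List ℤ)
  (x : XNum ℚ)

namespace XData

variable (d : XData)

def N : ℕ := 16 * d.cB.length - 1
def MK : ℕ := 16 * d.kB.length - 1
def Mc : ℕ := 16 * d.kcB.length - 1

noncomputable def LC : List ℤ[X] := decP d.w d.nx d.SC d.cB
noncomputable def LK : List ℤ[X] := decP d.w d.nx d.SK d.kB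
noncomputable def Lc : List ℤ[X] := decP d.w d.nc d.Sc d.kcB
noncomputable def Le : List ℤ[X] := decP d.w d.nc d.Sa d.aeB
noncomputable def Lo : List ℤ[X] := decP d.w d.nc d.Sa d.aoB

/-- the polynomial data -/
noncomputable def pd : PD where
  b := d.b
  bP := d.bP
  bK := d.bK
  bc := d.bc
  hn := d.hn
  bh := d.bh
  e := d.e
  N := d.N
  M := d.M
  MK := d.MK
  Mc := d.Mc
  bL := d.bL
  tn := d.tn
  td := d.td
  L0 := d.L0
  L1 := d.L1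
  L2 := d.L2
  G0 := d.G0
  f0 := mkA d.LC
  k := mkA (symL d.LK)
  kc := mkA (symL d.Lc)
  ae := mkA (symL d.Le)
  ao := mkA (asymL d.Lo)
  p := pX d.p
  x := d.x

/-! ## the integer values -/

def cv : CV :=
  let zs := decN d.w d.nx d.SC d.cB
  let O := og d.w d.nx d.SC
  let v := evs 12 (d.w * d.Nx) d.M O zs
  let r := evs 12 (d.w * d.Nx) (d.N - d.M) O zs.reverse
  ⟨v.1, v.2.1, v.2.2, evx 12 (d.w * d.Nx) d.w d.nx d.SC zs, r.1, -r.2.1, r.2.2,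
    evx 12 (d.w * d.Nx) d.w d.nx d.SC zs.reverse⟩

def kv : KV :=
  let v := evs 12 (d.w * d.Nx) d.MK (og d.w d.nx d.SK) (symL (decN d.w d.nx d.SK d.kB))
  ⟨v.1, v.2.1, v.2.2⟩

/-- `Kc` with `Ny` digits per mode -/
def kcv (Ny : ℕ) : KV :=
  let v := evs 12 (d.w * Ny) d.Mc (og d.w d.nc d.Sc) (symL (decN d.w d.nc d.Sc d.kcB))
  ⟨v.1, v.2.1, v.2.2⟩

def aev : AV :=
  let O := og d.w d.nc d.Sa
  let zs := symL (decN d.w d.nc d.Sa d.aeB)
  let v := evs 12 (d.w * d.Nxe) d.Mc O zs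
  ⟨v.1, v.2.1, v.2.2, ev3 12 (d.w * d.Nxe) d.Mc O zs⟩

def aov : AV :=
  let O := og d.w d.nc d.Sa
  let zs := asymN O (decN d.w d.nc d.Sa d.aoB)
  let v := evs 12 (d.w * d.Nxe) d.Mc O zs
  ⟨v.1, v.2.1, v.2.2, ev3 12 (d.w * d.Nxe) d.Mc O zs⟩

/-! ## crude norms -/

def bC : ℕ := 16 * d.cB.length * d.nx * 2 ^ (d.SC - 1)
def bKK : ℕ := 32 * d.kB.length * d.nx * 2 ^ (d.SK - 1)
def bcc : ℕ := 32 * d.kcB.length * d.nc * 2 ^ (d.Sc - 1)
def ba : ℕ := 32 * d.kcB.length * d.nc * 2 ^ (d.Sa - 1)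

/-! ## the checks -/

def chkG : Bool :=
  decide (0 < d.w) && decide (0 < d.Nx) && decide (0 < d.Nxe) && decide (0 < d.nc) && decide (d.nc ≤ d.nx) &&
  decide (d.nx ≤ 32) && decide (d.nx ≤ d.Nx) && decide (0 < d.SC) && decide (0 < d.SK) && decide (0 < d.Sc) &&
  decide (0 < d.Sa) && decide (d.SC ≤ d.w) && decide (d.SK ≤ d.w) && decide (d.Sc ≤ d.w) && decide (d.Sa ≤ d.w) &&
  decide (0 < d.cB.length) && decide (0 < d.kB.length) && decide (0 < d.kcB.length) &&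
  decide (16 * d.cB.length ≤ 4096) && decide (32 * d.kB.length ≤ 4096) && decide (32 * d.kcB.length ≤ 4096) &&
  decide (d.aeB.length = d.kcB.length) && decide (d.aoB.length = d.kcB.length) &&
  decide (d.M ≤ d.N) && decide (d.MK ≤ d.N) && decide (d.Mc ≤ d.MK) && decide (d.bK ≤ 2 * d.b + 1) &&
  decide (2 * d.b + d.bP ≤ d.e) && decide (d.bh + 3 * d.bK ≤ d.e) && decide (d.bL + d.bP ≤ 4 * d.bc) &&
  decide (d.bc ≤ d.bK) && decide (0 < d.tn) && chkP1 d.bP d.p d.x && chkN d.hn d.bh d.bL d.tn d.td d.L0 d.L1 d.L2 d.x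

def chkB1 : Bool := chkB d.w d.Nx d.M d.N (d.nx - 1) d.bC d.b d.cv d.x
def chkA1 : Bool := chkA d.w d.Nx d.M d.N (d.nx - 1) d.bC d.b d.bK d.MK d.bKK d.cv d.kv d.x
def chkR1 : Bool :=
  chkR d.w d.Nx d.M d.N (d.nx - 1) d.bC d.b d.bK d.MK d.bKK d.bP d.hn d.bh d.e d.cv d.kv d.p d.x
def chkK1 : Bool := chkK d.w d.Nx (d.nx - 1) d.bK d.MK d.bKK d.kv d.x
def chkc1 : Bool := chkc d.w d.Nx (d.nx - 1) d.bK d.MK d.bKK d.bc d.Mc d.bcc d.kv (d.kcv d.Nx).v0 d.x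
def chkKc1 : Bool := chkKc d.w d.Nxe (d.nc - 1) d.bc d.Mc d.bcc (d.kcv d.Nxe) d.x
def chka1 : Bool := chka d.w d.Nxe (d.nc - 1) d.bc d.Mc d.ba d.aev.v0 d.aov.v0 d.x
def chkE1 : Bool :=
  chkE d.w d.Nxe (d.nc - 1) d.bc d.bL d.bP d.Mc d.bcc d.ba d.tn d.td d.L0 d.L1 d.L2 d.G0 (d.kcv d.Nxe) d.aev d.aov
    d.p d.x

/-- the complete check -/
def chk : Bool :=
  d.chkG && d.chkB1 && d.chkA1 && d.chkR1 && d.chkK1 && d.chkc1 && d.chkKc1 && d.chka1 && d.chkE1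

/-- the facts contained in `chkG` -/
structure G : Prop where
  w : 0 < d.w
  Nx : 0 < d.Nx
  Nxe : 0 < d.Nxe
  nc : 0 < d.nc
  ncx : d.nc ≤ d.nx
  nx32 : d.nx ≤ 32
  nxN : d.nx ≤ d.Nx
  SC0 : 0 < d.SC
  SK0 : 0 < d.SK
  Sc0 : 0 < d.Sc
  Sa0 : 0 < d.Sa
  SC : d.SC ≤ d.w
  SK : d.SK ≤ d.w
  Sc : d.Sc ≤ d.w
  Sa : d.Sa ≤ d.w
  cB : 0 < d.cB.length
  kB : 0 < d.kB.length
  kcB : 0 < d.kcB.length
  cB' : 16 * d.cB.length ≤ 4096
  kB' : 32 * d.kB.length ≤ 4096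
  kcB' : 32 * d.kcB.length ≤ 4096
  ae : d.aeB.length = d.kcB.length
  ao : d.aoB.length = d.kcB.length
  M : d.M ≤ d.N
  MK : d.MK ≤ d.N
  Mc : d.Mc ≤ d.MK
  b1 : d.bK ≤ 2 * d.b + 1
  b2 : 2 * d.b + d.bP ≤ d.e
  b3 : d.bh + 3 * d.bK ≤ d.e
  b4 : d.bL + d.bP ≤ 4 * d.bc
  b5 : d.bc ≤ d.bK
  tn : 0 < d.tn
  p : chkP1 d.bP d.p d.x = true
  n : chkN d.hn d.bh d.bL d.tn d.td d.L0 d.L1 d.L2 d.x = true

theorem g (h : d.chkG = true) : d.G := by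
  simp only [chkG, Bool.and_eq_true, decide_eq_true_eq] at h
  obtain ⟨⟨⟨⟨⟨⟨⟨⟨⟨⟨⟨⟨⟨⟨⟨⟨⟨⟨⟨⟨⟨⟨⟨⟨⟨⟨⟨⟨⟨⟨⟨⟨⟨h1, h2⟩, h3⟩, h4⟩, h5⟩, h6⟩, h7⟩, h8⟩, h9⟩, h10⟩, h11⟩, h12⟩, h13⟩,
    h14⟩, h15⟩, h16⟩, h17⟩, h18⟩, h19⟩, h20⟩, h21⟩, h22⟩, h23⟩, h24⟩, h25⟩, h26⟩, h27⟩, h28⟩, h29⟩, h30⟩, h31⟩,
    h32⟩, h33⟩, h34⟩ := h
  exact ⟨h1, h2, h3, h4, h5, h6, h7, h8, h9, h10, h11, h12, h13, h14, h15, h16, h17, h18, h19, h20, h21, h22, h23,
    h24, h25, h26, h27, h28, h29, h30, h31, h32, h33, h34⟩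

section

variable {d} (g : d.G)
include g

theorem cv_ok : d.cv.Ok d.w d.Nx d.M d.N (mkA d.LC) := by
  have hk : 16 * d.cB.length ≤ 2 ^ 12 := g.cB'
  have hM : d.M + 1 ≤ 16 * d.cB.length := by
    have h1 := g.M
    have h2 := g.cB
    unfold N at h1
    omega
  have e1 := evC1 (M := d.M) (nx := d.nx) (l := d.cB) g.w g.SC g.Nx g.cB hk
  have e2 := evC2 (l := d.cB) g.w g.SC g.nx32 g.Nx g.nxN hk
  have e3 := evC3 (nx := d.nx) (l := d.cB) g.w g.SC g.Nx hM hk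
  have e4 := evC4 (l := d.cB) g.w g.SC g.nx32 g.Nx g.nxN hk
  constructor
  · exact (congrArg Prod.fst e1).symm
  · exact (congrArg (fun v => v.2.1) e1).symm
  · exact (congrArg (fun v => v.2.2) e1).symm
  · exact e2.symm
  · exact (congrArg Prod.fst e3).symm
  · have h := congrArg (fun v => -v.2.1) e3
    simp only [neg_neg] at h
    exact h.symm
  · exact (congrArg (fun v => v.2.2) e3).symm
  · exact e4.symm

theorem kv_ok : d.kv.Ok d.w d.Nx d.MK (mkA (symL d.LK)) := by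
  have e1 := evK1 (M := d.MK) (nx := d.nx) (l := d.kB) (k := 12) g.w g.SK g.Nx g.kB g.kB'
  constructor
  · exact (congrArg Prod.fst e1).symm
  · exact (congrArg (fun v => v.2.1) e1).symm
  · exact (congrArg (fun v => v.2.2) e1).symm

theorem kcv_ok {Ny : ℕ} (hNy : 0 < Ny) : (d.kcv Ny).Ok d.w Ny d.Mc (mkA (symL d.Lc)) := by
  have e1 := evK1 (M := d.Mc) (nx := d.nc) (l := d.kcB) (k := 12) g.w g.Sc hNy g.kcB g.kcB'
  constructor
  · exact (congrArg Prod.fst e1).symm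
  · exact (congrArg (fun v => v.2.1) e1).symm
  · exact (congrArg (fun v => v.2.2) e1).symm

theorem aev_ok : d.aev.Ok d.w d.Nxe d.Mc (mkA (symL d.Le)) := by
  have hl : 0 < d.aeB.length := by rw [g.ae]; exact g.kcB
  have hk : 32 * d.aeB.length ≤ 2 ^ 12 := by rw [g.ae]; exact g.kcB'
  have e1 := evK1 (M := d.Mc) (nx := d.nc) (l := d.aeB) g.w g.Sa g.Nxe hl hk
  have e3 := evK3 (M := d.Mc) (nx := d.nc) (l := d.aeB) g.w g.Sa g.Nxe hl hk
  constructor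
  · exact (congrArg Prod.fst e1).symm
  · exact (congrArg (fun v => v.2.1) e1).symm
  · exact (congrArg (fun v => v.2.2) e1).symm
  · exact e3.symm

theorem aov_ok : d.aov.Ok d.w d.Nxe d.Mc (mkA (asymL d.Lo)) := by
  have hl : 0 < d.aoB.length := by rw [g.ao]; exact g.kcB
  have hk : 32 * d.aoB.length ≤ 2 ^ 12 := by rw [g.ao]; exact g.kcB'
  have e1 := evA1 (M := d.Mc) (nx := d.nc) (l := d.aoB) g.w g.Sa g.Sa0 g.Nxe hl hk
  have e3 := evA3 (M := d.Mc) (nx := d.nc) (l := d.aoB) g.w g.Sa g.Sa0 g.Nxe hl hk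
  constructor
  · exact (congrArg Prod.fst e1).symm
  · exact (congrArg (fun v => v.2.1) e1).symm
  · exact (congrArg (fun v => v.2.2) e1).symm
  · exact e3.symm

theorem sbC : SB (mkA d.LC) d.N (d.nx - 1) d.bC :=
  SB_decP g.w g.SC g.SC0 (lt_of_lt_of_le g.nc g.ncx) d.cB

theorem sbK : SB (mkA (symL d.LK)) (2 * d.MK) (d.nx - 1) d.bKK :=
  SB_symL g.w g.SK g.SK0 (lt_of_lt_of_le g.nc g.ncx) d.kB

theorem sbc : SB (mkA (symL d.Lc)) (2 * d.Mc) (d.nc - 1) d.bcc :=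
  SB_symL g.w g.Sc g.Sc0 g.nc d.kcB

theorem sbc' : SB (mkA (symL d.Lc)) (2 * d.Mc) (d.nx - 1) d.bcc :=
  (sbc g).mono le_rfl (Nat.sub_le_sub_right g.ncx 1) le_rfl

theorem sbe : SB (mkA (symL d.Le)) (2 * d.Mc) (d.nc - 1) d.ba := by
  have h := SB_symL g.w g.Sa g.Sa0 g.nc d.aeB
  rw [g.ae] at h
  exact h

theorem sbo : SB (mkA (asymL d.Lo)) (2 * d.Mc) (d.nc - 1) d.ba := by
  have h := SB_asymL g.w g.Sa g.Sa0 g.nc d.aoB
  rw [g.ao] at h
  exact h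

end

theorem ok (h : d.chk = true) : d.pd.Ok := by
  simp only [chk, Bool.and_eq_true] at h
  obtain ⟨⟨⟨⟨⟨⟨⟨⟨h0, hB⟩, hA⟩, hR⟩, hK⟩, hc⟩, hKc⟩, ha⟩, hE⟩ := h
  have g := d.g h0
  have rB := chkB_sound (sbC g) (cv_ok g) hB
  have rA := chkA_sound (sbC g) (sbK g) (cv_ok g) (kv_ok g) hA
  have rR := chkR_sound (sbC g) (sbK g) (cv_ok g) (kv_ok g) hR
  have rK := chkK_sound (sbK g) (kv_ok g) hK
  have rc := chkc_sound (sbK g) (kv_ok g) (sbc' g) (kcv_ok g g.Nx).v0 hc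
  have rKc := chkKc_sound (sbc g) (kcv_ok g g.Nxe) hKc
  have ra := chka_sound (sbe g) (sbo g) (aev_ok g).v0 (aov_ok g).v0 ha
  have rE := chkE_sound (sbc g) (sbe g) (sbo g) (kcv_ok g g.Nxe) (aev_ok g) (aov_ok g) hE
  have rP := chkP1_sound g.p
  have rN := chkN_sound g.n
  have htd : 0 < d.td := by
    have h1 := g.n
    simp only [chkN, Bool.and_eq_true, decide_eq_true_eq] at h1
    exact h1.1.1.1.1.2
  have lK : d.MK = d.LK.length - 1 := by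
    unfold MK LK
    rw [length_decP]
  have lc : d.Mc = d.Lc.length - 1 := by
    unfold Mc Lc
    rw [length_decP]
  have le : d.Mc = d.Le.length - 1 := by
    unfold Mc Le
    rw [length_decP, g.ae]
  have lo : d.Mc = d.Lo.length - 1 := by
    unfold Mc Lo
    rw [length_decP, g.ao]
  have hne : d.Lo ≠ [] := fun e => by
    have h1 : d.Lo.length = 16 * d.aoB.length := length_decP _ _ _ _
    have h2 := g.kcB
    rw [e, List.length_nil, g.ao] at h1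
    omega
  exact {
    hf := (sbC g).natDegree_le
    hM := g.M
    hMK := g.MK
    hMc := g.Mc
    hb1 := g.b1
    hb2 := g.b2
    hb3 := g.b3
    hb4 := g.b4
    hb5 := g.b5
    htn := g.tn
    htd := htd
    sk := fun θ x => by
      show (fn d.MK (mkA (symL d.LK)) θ x).im = 0
      rw [lK]
      exact im_symL _ θ x
    skc := fun θ x => by
      show (fn d.Mc (mkA (symL d.Lc)) θ x).im = 0
      rw [lc]
      exact im_symL _ θ x
    sae := fun θ x => by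
      show (fn d.Mc (mkA (symL d.Le)) θ x).im = 0
      rw [le]
      exact im_symL _ θ x
    sao := fun θ x => by
      show (fn d.Mc (mkA (asymL d.Lo)) θ x).re = 0
      rw [lo]
      exact re_asymL hne θ x
    h := rN.1
    eta := rN.2.1
    lam0 := rN.2.2.1
    lam1 := rN.2.2.2.1
    lam2 := rN.2.2.2.2
    P_le := rP.1
    le_P := rP.2.1
    dP := rP.2.2
    B0 := rB.1
    B1 := rB.2.1
    B2 := rB.2.2.1
    Bx := rB.2.2.2
    A0 := rA.1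
    A1 := rA.2.1
    A2 := rA.2.2.1
    Ax := rA.2.2.2
    R := rR
    K0 := rK.1
    K1 := rK.2.1
    K2 := rK.2.2.1
    Kx := rK.2.2.2
    c0 := rc.1
    c1 := rc.2.1
    c2 := rc.2.2
    kc0 := rKc.1
    kc1 := rKc.2.1
    kc2 := rKc.2.2
    a0 := ra.1
    a1 := ra.2.1
    a2 := ra.2.2.1
    a3 := ra.2.2.2
    cert := rE }

/-- **The check of one interval.** -/
theorem xfacts (h : d.chk = true) :
    XFacts (fC d.b d.M (mkA d.LC)) (fR d.bK d.MK (mkA (symL d.LK))) (fR d.bc d.Mc (mkA (symL d.Lc)))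
      (fa d.bc d.Mc (mkA (symL d.Le), mkA (asymL d.Lo))) (fP d.bP (pX d.p)) d.x.cast :=
  d.pd.xfacts (d.ok h)

end XData

end Pool.Agent.EM.Ck
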