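import Pool.Agent.EM.Ck.L1

/-!
# EM checker, CK-5: polynomials given by lists

`hor` commutes with ring homomorphisms; `comb` evaluates `hor` by binary splitting; coefficients of `mkA L`; the
operations `D`, `dx`, `reflect` on `mkA L`; symmetric and antisymmetric lists.
-/

set_option autoImplicit false

open Polynomial

namespace Pool.Agent.EM.Ck

/-- one step of binary splitting -/
def pr (Y : ℤ) : List ℤ → List ℤ
  | a :: b :: l => (a + b * Y) :: pr Y l
  | l => l

/-- evaluation by binary splitting (for the kernel) -/
def comb : ℕ → ℤ → List ℤ → ℤ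
  | 0, _, l => l.headD 0
  | k + 1, Y, l => comb k (Y * Y) (pr Y l)

/-- weights (for the kernel) -/
def wtsZ : ℤ → List ℤ → List ℤ
  | _, [] => []
  | a, p :: l => a * p :: wtsZ (a + 1) l

/-- antisymmetric list (for the kernel) -/
def asymZ (l : List ℤ) : List ℤ := (l.tail.map Int.neg).reverse ++ 0 :: l.tail

private theorem Comb_pr (Y : ℤ) : ∀ (n : ℕ) (l : List ℤ), l.length ≤ n →
    hor (Y * Y) (pr Y l) = hor Y l ∧ 2 * (pr Y l).length ≤ l.length + 1 := by
  intro n
  induction n using Nat.strong_induction_on with
  | _ n ih =>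
    intro l hl
    match l, hl with
    | [], _ => simp [pr, hor]
    | [a], _ => simp [pr, hor]
    | a :: b :: l, hl =>
      simp only [List.length_cons] at hl
      obtain ⟨h1, h2⟩ := ih (n - 2) (by omega) l (by omega)
      simp only [pr, hor, List.length_cons]
      refine ⟨?_, by omega⟩
      rw [h1]
      ring

theorem comb_eq (k : ℕ) (Y : ℤ) (l : List ℤ) (h : l.length ≤ 2 ^ k) : comb k Y l = hor Y l := by
  induction k generalizing Y l with
  | zero =>
    match l, h with
    | [], _ => simp [comb, hor]
    | [a], _ => simp [comb, hor]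
    | a :: b :: l, h => simp at h
  | succ k ih =>
    obtain ⟨h1, h2⟩ := Comb_pr Y _ l le_rfl
    rw [comb, ih (Y * Y) (pr Y l) (by rw [pow_succ] at h; omega), h1]

theorem wtsZ_eq (a : ℤ) (l : List ℤ) : wtsZ a l = wts a l := by
  induction l generalizing a with
  | nil => rfl
  | cons p l ih =>
    simp only [wtsZ, wts, Int.cast_id]
    rw [ih]

theorem asymZ_eq (l : List ℤ) : asymZ l = asymL l := by
  rfl

theorem hor_map {R S : Type*} [CommRing R] [CommRing S] (φ : R →+* S) (y : R) (l : List R) :
    φ (hor y l) = hor (φ y) (l.map φ) := by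
  induction l with
  | nil => simp [hor]
  | cons a l ih => simp only [hor, List.map_cons, map_add, map_mul, ih]

theorem hor_append {R : Type*} [CommRing R] (y : R) (l l' : List R) :
    hor y (l ++ l') = hor y l + y ^ l.length * hor y l' := by
  induction l with
  | nil => simp [hor]
  | cons a l ih =>
    simp only [List.cons_append, hor, List.length_cons, ih]
    ring

private theorem Comb_ev_C (W Y : ℕ) (p : ℤ[X]) : ev W Y (C p) = evX W p := by
  simp [ev]

private theorem Comb_ev_X (W Y : ℕ) : ev W Y X = (Y : ℤ) := by
  simp [ev]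

theorem ev_mkA (W Y : ℕ) (L : List ℤ[X]) : ev W Y (mkA L) = hor (Y : ℤ) (L.map (evX W)) := by
  rw [mkA, hor_map, Comb_ev_X, List.map_map]
  congr 1
  apply List.map_congr_left
  intro p _
  exact Comb_ev_C W Y p

theorem ev_C (W Y : ℕ) (p : ℤ[X]) : ev W Y (C p) = evX W p :=
  Comb_ev_C W Y p

theorem ev_X (W Y : ℕ) : ev W Y X = (Y : ℤ) :=
  Comb_ev_X W Y

private theorem Comb_mkA_cons (a : ℤ[X]) (L : List ℤ[X]) : mkA (a :: L) = C a + X * mkA L := rfl

theorem coeff_mkA (L : List ℤ[X]) (n : ℕ) : (mkA L).coeff n = L.getD n 0 := by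
  induction L generalizing n with
  | nil => simp [mkA, hor]
  | cons a L ih =>
    rw [Comb_mkA_cons, coeff_add]
    cases n with
    | zero => simp
    | succ n =>
      rw [coeff_X_mul, ih, coeff_C_succ, zero_add]
      simp

private theorem Comb_getD_wts (a : ℤ) (L : List ℤ[X]) (n : ℕ) :
    (wts a L).getD n 0 = ((a + n : ℤ) : ℤ[X]) * L.getD n 0 := by
  induction L generalizing a n with
  | nil => simp [wts]
  | cons p L ih =>
    cases n with
    | zero => simp [wts]
    | succ n =>
      simp only [wts, List.getD_cons_succ]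
      rw [ih]
      congr 2
      push_cast
      ring

private theorem Comb_coeff_D (M : ℕ) (f : A) (n : ℕ) :
    (D M f).coeff n = ((n : ℤ[X]) - M) * f.coeff n := by
  have h : (M : A) = C (M : ℤ[X]) := by simp
  rw [D, coeff_sub, h, coeff_C_mul]
  cases n with
  | zero => simp
  | succ n =>
    rw [coeff_X_mul, coeff_derivative]
    push_cast
    ring

theorem D_mkA (M : ℕ) (L : List ℤ[X]) : D M (mkA L) = mkA (wts (-(M : ℤ)) L) := by
  ext1 n
  rw [Comb_coeff_D, coeff_mkA, coeff_mkA, Comb_getD_wts]
  congr 1
  push_cast
  ring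

private theorem Comb_coeff_dx (f : A) (n : ℕ) : (dx f).coeff n = derivative (f.coeff n) := by
  rw [dx, Polynomial.sum_def, finsetSum_coeff]
  simp only [coeff_monomial]
  rw [Finset.sum_ite_eq']
  split_ifs with h
  · rfl
  · rw [notMem_support_iff.mp h, derivative_zero]

theorem dx_mkA (L : List ℤ[X]) : dx (mkA L) = mkA (L.map derivative) := by
  ext1 n
  rw [Comb_coeff_dx, coeff_mkA, coeff_mkA]
  rcases Nat.lt_or_ge n L.length with h | h
  · rw [List.getD_eq_getElem _ _ h, List.getD_eq_getElem _ _ (by simpa using h), List.getElem_map]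
  · rw [List.getD_eq_default _ _ h, List.getD_eq_default _ _ (by simpa using h), derivative_zero]

theorem reflect_mkA (L : List ℤ[X]) : reflect (L.length - 1) (mkA L) = mkA L.reverse := by
  ext1 n
  rw [coeff_reflect, coeff_mkA, coeff_mkA]
  rcases Nat.lt_or_ge n L.length with h | h
  · rw [revAt_le (by omega), List.getD_eq_getElem _ _ (by omega),
      List.getD_eq_getElem _ _ (by simpa using h), List.getElem_reverse]
  · rw [List.getD_eq_default L.reverse _ (by simpa using h)]
    rcases Nat.eq_zero_or_pos L.length with h0 | h0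
    · rw [List.length_eq_zero_iff] at h0
      subst h0
      simp
    · rw [revAt_eq_self_of_lt (by omega), List.getD_eq_default _ _ h]

/-- `c` bounds the absolute values of all coefficients -/
theorem SB_mkA {L : List ℤ[X]} {k c : ℕ} (hk : ∀ p ∈ L, ∀ i, p.coeff i ≠ 0 → i ≤ k)
    (hc : ∀ p ∈ L, ∀ i, (p.coeff i).natAbs ≤ c) :
    SB (mkA L) (L.length - 1) k (L.length * (k + 1) * c) := by
  have h0 : ∀ n i, (cf (mkA L) n i).natAbs ≤ c := by
    intro n i
    rw [cf, coeff_mkA]
    rcases Nat.lt_or_ge n L.length with h | h
    · rw [List.getD_eq_getElem _ _ h]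
      exact hc _ (List.getElem_mem h) i
    · rw [List.getD_eq_default _ _ h]
      simp
  have h1 : ∀ n i, cf (mkA L) n i ≠ 0 → n ≤ L.length - 1 ∧ i ≤ k := by
    intro n i hne
    rw [cf, coeff_mkA] at hne
    rcases Nat.lt_or_ge n L.length with h | h
    · rw [List.getD_eq_getElem _ _ h] at hne
      exact ⟨by omega, hk _ (List.getElem_mem h) i hne⟩
    · rw [List.getD_eq_default _ _ h] at hne
      simp at hne
  refine ⟨h1, ?_⟩
  rcases Nat.eq_zero_or_pos L.length with hL | hL
  · rw [List.length_eq_zero_iff] at hL
    subst hL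
    simp [mkA, hor, l1]
  · have h2 : SB (mkA L) (L.length - 1) k (l1 (mkA L)) := ⟨h1, le_rfl⟩
    rw [l1_eq_sum h2]
    have h3 : L.length - 1 + 1 = L.length := by omega
    rw [h3]
    calc ∑ n ∈ Finset.range L.length, ∑ i ∈ Finset.range (k + 1), (cf (mkA L) n i).natAbs
        ≤ ∑ n ∈ Finset.range L.length, ∑ i ∈ Finset.range (k + 1), c :=
          Finset.sum_le_sum fun n _ => Finset.sum_le_sum fun i _ => h0 n i
      _ = L.length * (k + 1) * c := by
          simp only [Finset.sum_const, Finset.card_range, smul_eq_mul]
          ring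

theorem wts_map {R S : Type*} [Ring R] [Ring S] (φ : R →+* S) (a : ℤ) (l : List R) :
    (wts a l).map φ = wts a (l.map φ) := by
  induction l generalizing a with
  | nil => rfl
  | cons p l ih => simp only [wts, List.map_cons, map_mul, map_intCast, ih]

theorem length_wts {R : Type*} [Ring R] (a : ℤ) (l : List R) : (wts a l).length = l.length := by
  induction l generalizing a with
  | nil => rfl
  | cons p l ih => simp only [wts, List.length_cons, ih]

theorem symL_map {R S : Type*} (φ : R → S) (l : List R) : (symL l).map φ = symL (l.map φ) := by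
  simp [symL, List.map_append, List.map_reverse, List.map_tail]

theorem asymL_map {R S : Type*} [Ring R] [Ring S] (φ : R →+* S) (l : List R) :
    (asymL l).map φ = asymL (l.map φ) := by
  cases l with
  | nil => simp [asymL]
  | cons a t =>
    simp only [asymL, List.tail_cons, List.map_append, List.map_cons, List.map_reverse, map_zero,
      List.map_map]
    congr 2
    apply List.map_congr_left
    intro x _
    simp

theorem length_symL {R : Type*} (l : List R) : (symL l).length = 2 * l.length - 1 := by
  simp only [symL, List.length_append, List.length_reverse, List.length_tail]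
  omega

theorem length_asymL {R : Type*} [Ring R] {l : List R} (h : l ≠ []) : (asymL l).length = 2 * l.length - 1 := by
  have h1 : 0 < l.length := List.length_pos_iff.mpr h
  simp only [asymL, List.length_append, List.length_reverse, List.length_map, List.length_tail,
    List.length_cons]
  omega

theorem reverse_symL {R : Type*} (l : List R) : (symL l).reverse = symL l := by
  cases l with
  | nil => rfl
  | cons a t => simp [symL]

theorem reverse_asymL {R : Type*} [Ring R] (l : List R) : (asymL l).reverse = (asymL l).map fun a => -a := by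
  cases l with
  | nil => simp [asymL]
  | cons a t => simp [asymL]

theorem mkA_neg (L : List ℤ[X]) : mkA (L.map fun a => -a) = -mkA L := by
  induction L with
  | nil => simp [mkA, hor]
  | cons a L ih =>
    rw [List.map_cons, Comb_mkA_cons, Comb_mkA_cons, ih, C_neg]
    ring

theorem mem_wts {a : ℤ} {l : List ℤ[X]} {p : ℤ[X]} (h : p ∈ wts a l) :
    ∃ (z : ℤ) (q : ℤ[X]), q ∈ l ∧ p = (z : ℤ[X]) * q := by
  induction l generalizing a with
  | nil => simp [wts] at h
  | cons b l ih =>
    simp only [wts, List.mem_cons] at h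
    rcases h with h | h
    · exact ⟨a, b, List.mem_cons_self, h⟩
    · obtain ⟨z, q, hq, h1⟩ := ih h
      exact ⟨z, q, List.mem_cons_of_mem _ hq, h1⟩

end Pool.Agent.EM.Ck
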