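import Pool.Agent.EM.Ck.RepL

/-!
# EM checker, CK-10: the identities (B), (A), (R) for the explicit curve

`C = fC b M f = i 2^(-b) fn M f`.  With `X1 = D M f`: `pu C = - 2^(-b) fn M X1`, `pu (pu C) = - i 2^(-b) fn M (D M X1)`
(`hasDerivAt_fn_θ`), `pt C = i 2^(-b) fn M (dx f)`; complex conjugation is `reflect N` with centre `N - M` (`conj_fn`).
`‖z‖² = z conj z`; `Im z`, `Re z` through `z ∓ conj z`.
-/

set_option autoImplicit false

open scoped Real ContDiff ComplexConjugate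
open Polynomial

namespace Pool.Agent.EM.Ck

open Pool.Agent.helper19.EL

/-- `2^(2b) (|C_θ|² - 1)`, centre `N` -/
noncomputable def PB (b M N : ℕ) (f : A) : A :=
  D M f * reflect N (D M f) - ((2 ^ (2 * b) : ℤ) : A) * X ^ N

/-- `2^(2b+1) (Im (conj C_θ C_θθ) - K)`, centre `N` -/
noncomputable def PA (b M N bK MK : ℕ) (f k : A) : A :=
  reflect N (D M f) * D M (D M f) + D M f * reflect N (D M (D M f)) -
    ((2 ^ (2 * b + 1 - bK) : ℤ) : A) * (X ^ (N - MK) * k)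

/-- `p' f + 4 p f'` (derivatives in `x`) -/
noncomputable def PQ (p : ℤ[X]) (f g : A) : A := C (derivative p) * f + C (4 * p) * g

/-- `8 · 2^e` times the residual, centre `cR` -/
noncomputable def PR (b M N bK MK bP hn bh e c : ℕ) (f k : A) (p : ℤ[X]) : A :=
  X ^ (c - 3 * MK) * (((hn * 4 * 2 ^ (e - (bh + 3 * bK)) : ℤ) : A) * (k * k * k) -
      ((hn * 8 * 2 ^ (e - (bh + bK)) : ℤ) : A) * (X ^ (2 * MK) * D MK (D MK k))) -
    X ^ (c - N) * (((2 ^ (e - (2 * b + bP)) : ℤ) : A) *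
      (PQ p f (dx f) * reflect N (D M f) + PQ p (reflect N f) (reflect N (dx f)) * D M f))

theorem natDegree_D_le {M N : ℕ} {f : A} (hf : f.natDegree ≤ N) : (D M f).natDegree ≤ N := by
  rw [D]
  refine natDegree_le_iff_coeff_eq_zero.2 fun n hn => ?_
  have h1 : f.coeff n = 0 := coeff_eq_zero_of_natDegree_lt (lt_of_le_of_lt hf hn)
  obtain ⟨m, rfl⟩ : ∃ m, n = m + 1 := ⟨n - 1, by omega⟩
  rw [coeff_sub, coeff_X_mul, coeff_derivative, h1, zero_mul, coeff_natCast_mul, h1, mul_zero, sub_zero]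

theorem natDegree_dx_le {N : ℕ} {f : A} (hf : f.natDegree ≤ N) : (dx f).natDegree ≤ N := by
  rw [dx, Polynomial.sum]
  refine natDegree_sum_le_of_forall_le _ _ fun n hn => ?_
  exact (natDegree_monomial_le _).trans ((le_natDegree_of_mem_supp n hn).trans hf)

theorem pu_fC (b M : ℕ) (f : A) (θ x : ℝ) : pu (fC b M f) θ x = -(1 / 2 ^ b) * fn M (D M f) θ x := by
  have h : HasDerivAt (fun θ' => fC b M f θ' x) (Complex.I / 2 ^ b * (Complex.I * fn M (D M f) θ x)) θ :=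
    (hasDerivAt_fn_θ M f θ x).const_mul (Complex.I / 2 ^ b)
  rw [pu, h.deriv]
  linear_combination (1 / 2 ^ b) * fn M (D M f) θ x * Complex.I_mul_I

theorem pu_pu_fC (b M : ℕ) (f : A) (θ x : ℝ) :
    pu (pu (fC b M f)) θ x = -(Complex.I / 2 ^ b) * fn M (D M (D M f)) θ x := by
  have h0 : pu (fC b M f) = fun θ x => -(1 / 2 ^ b) * fn M (D M f) θ x := by
    funext θ x
    exact pu_fC b M f θ x
  have h : HasDerivAt (fun θ' => pu (fC b M f) θ' x)
      (-(1 / 2 ^ b) * (Complex.I * fn M (D M (D M f)) θ x)) θ := by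
    rw [h0]
    exact (hasDerivAt_fn_θ M (D M f) θ x).const_mul (-(1 / 2 ^ b) : ℂ)
  rw [pu, h.deriv]
  ring

theorem pt_fC (b M : ℕ) (f : A) (θ x : ℝ) : pt (fC b M f) θ x = Complex.I / 2 ^ b * fn M (dx f) θ x := by
  have h : HasDerivAt (fun x' => fC b M f θ x') (Complex.I / 2 ^ b * fn M (dx f) θ x) x :=
    (hasDerivAt_fn_x M f θ x).const_mul (Complex.I / 2 ^ b)
  rw [pt, h.deriv]

/-- the value of a product with a reflected polynomial -/
private theorem FactsC_fn_mul_conj {M N : ℕ} {f g : A} (hg : g.natDegree ≤ N) (hM : M ≤ N) (θ x : ℝ) :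
    fn N (f * reflect N g) θ x = fn M f θ x * (starRingEnd ℂ) (fn M g θ x) := by
  rw [conj_fn hg hM, ← fn_mul, Nat.add_sub_cancel' hM]

private theorem FactsC_fn_conj_mul {M N : ℕ} {f g : A} (hg : g.natDegree ≤ N) (hM : M ≤ N) (θ x : ℝ) :
    fn N (reflect N g * f) θ x = (starRingEnd ℂ) (fn M g θ x) * fn M f θ x := by
  rw [mul_comm, FactsC_fn_mul_conj hg hM, mul_comm]

private theorem FactsC_im (z : ℂ) : ((z.im : ℝ) : ℂ) = (z - (starRingEnd ℂ) z) / (2 * Complex.I) := by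
  rw [Complex.im_eq_sub_conj]

private theorem FactsC_fR {b M : ℕ} {k : A} (hk : ∀ θ x, (fn M k θ x).im = 0) (θ x : ℝ) :
    ((fR b M k θ x : ℝ) : ℂ) = fn M k θ x / 2 ^ b := by
  have h : fn M k θ x = (((fn M k θ x).re : ℝ) : ℂ) := by
    apply Complex.ext
    · simp
    · simpa using hk θ x
  rw [fR]
  push_cast
  rw [← h]

theorem rep_B {b M N : ℕ} {f : A} (hf : f.natDegree ≤ N) (hM : M ≤ N) :
    Rep (fun θ x => xB (fC b M f) θ x - 1) (1 / 2 ^ (2 * b)) N (PB b M N f) := by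
  intro θ x
  have h1 : ((xB (fC b M f) θ x : ℝ) : ℂ) =
      1 / 2 ^ (2 * b) * (fn M (D M f) θ x * (starRingEnd ℂ) (fn M (D M f) θ x)) := by
    rw [xB, pu_fC]
    push_cast
    rw [← Complex.mul_conj']
    simp only [map_mul, map_neg, map_div₀, map_one, map_pow, Complex.conj_ofNat]
    ring
  have h2 : ((2 : ℂ) ^ (2 * b)) ≠ 0 := pow_ne_zero _ two_ne_zero
  rw [PB, fn_sub, fn_int_mul, fn_X_pow, FactsC_fn_mul_conj (natDegree_D_le hf) hM]
  push_cast
  rw [h1]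
  field_simp

theorem rep_A {b M N bK MK : ℕ} {f k : A} (hf : f.natDegree ≤ N) (hM : M ≤ N) (hMK : MK ≤ N)
    (hb : bK ≤ 2 * b + 1) (hk : ∀ θ x, (fn MK k θ x).im = 0) :
    Rep (fun θ x => xA (fC b M f) θ x - fR bK MK k θ x) (1 / 2 ^ (2 * b + 1)) N (PA b M N bK MK f k) := by
  intro θ x
  have h1 : ((xA (fC b M f) θ x : ℝ) : ℂ) =
      1 / 2 ^ (2 * b + 1) * ((starRingEnd ℂ) (fn M (D M f) θ x) * fn M (D M (D M f)) θ x +
        fn M (D M f) θ x * (starRingEnd ℂ) (fn M (D M (D M f)) θ x)) := by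
    rw [xA, pu_fC, pu_pu_fC, FactsC_im]
    simp only [map_mul, map_neg, map_div₀, map_one, map_pow, Complex.conj_ofNat, Complex.conj_conj,
      Complex.conj_I]
    have hI := Complex.I_ne_zero
    field_simp
    ring
  have h3 : fn N (X ^ (N - MK) * k) θ x = fn MK k θ x := by
    have h := fn_shift MK (N - MK) k θ x
    rwa [Nat.add_sub_cancel' hMK] at h
  have h4 : (2 : ℂ) ^ (2 * b + 1) = 2 ^ (2 * b + 1 - bK) * 2 ^ bK := by
    rw [← pow_add]
    congr 1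
    omega
  have h5 : ((2 : ℂ) ^ (2 * b + 1 - bK)) ≠ 0 := pow_ne_zero _ two_ne_zero
  have h6 : ((2 : ℂ) ^ bK) ≠ 0 := pow_ne_zero _ two_ne_zero
  rw [PA, fn_sub, fn_add, fn_int_mul, h3, FactsC_fn_mul_conj (natDegree_D_le (natDegree_D_le hf)) hM,
    FactsC_fn_conj_mul (natDegree_D_le hf) hM]
  push_cast
  rw [h1, FactsC_fR hk, h4]
  field_simp

private theorem FactsC_fP (b : ℕ) (p : ℤ[X]) (x : ℝ) : ((fP b p x : ℝ) : ℂ) = anX x p / 2 ^ b := by
  have h : anX x p = (((anX x p).re : ℝ) : ℂ) := by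
    apply Complex.ext
    · simp
    · simpa using anX_im x p
  rw [fP]
  push_cast
  rw [← h]

private theorem FactsC_dP (b : ℕ) (p : ℤ[X]) (x : ℝ) :
    ((deriv (fP b p) x : ℝ) : ℂ) = anX x (derivative p) / 2 ^ b := by
  have h : HasDerivAt (fP b p) ((anX x (derivative p)).re / 2 ^ b) x := (hasDerivAt_anX p x).div_const _
  rw [h.deriv]
  exact FactsC_fP b (derivative p) x

theorem rep_R {b M N bK MK bP hn bh e c : ℕ} {f k : A} {p : ℤ[X]} (hf : f.natDegree ≤ N) (hM : M ≤ N)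
    (hk : ∀ θ x, (fn MK k θ x).im = 0) (he1 : 2 * b + bP ≤ e) (he2 : bh + 3 * bK ≤ e) (hc1 : N ≤ c)
    (hc2 : 3 * MK ≤ c) :
    Rep (fun θ x => xR (fC b M f) (fR bK MK k) (fP bP p) (hn / 2 ^ bh) θ x) (1 / (8 * 2 ^ e)) c
      (PR b M N bK MK bP hn bh e c f k p) := by
  intro θ x
  have hI := Complex.I_ne_zero
  -- the two imaginary parts
  have h1 : (((fC b M f θ x * (starRingEnd ℂ) (pu (fC b M f) θ x)).im : ℝ) : ℂ) =
      -(1 / (2 * (2 ^ b * 2 ^ b))) * (fn M f θ x * (starRingEnd ℂ) (fn M (D M f) θ x) +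
        (starRingEnd ℂ) (fn M f θ x) * fn M (D M f) θ x) := by
    rw [fC, pu_fC, FactsC_im]
    simp only [map_mul, map_neg, map_div₀, map_one, map_pow, Complex.conj_ofNat, Complex.conj_conj,
      Complex.conj_I]
    field_simp
    ring
  have h2 : (((pt (fC b M f) θ x * (starRingEnd ℂ) (pu (fC b M f) θ x)).im : ℝ) : ℂ) =
      -(1 / (2 * (2 ^ b * 2 ^ b))) * (fn M (dx f) θ x * (starRingEnd ℂ) (fn M (D M f) θ x) +
        (starRingEnd ℂ) (fn M (dx f) θ x) * fn M (D M f) θ x) := by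
    rw [pt_fC, pu_fC, FactsC_im]
    simp only [map_mul, map_neg, map_div₀, map_one, map_pow, Complex.conj_ofNat, Complex.conj_conj,
      Complex.conj_I]
    field_simp
    ring
  -- the curvature
  have h3 : ((pu (pu (fR bK MK k)) θ x : ℝ) : ℂ) = -fn MK (D MK (D MK k)) θ x / 2 ^ bK := by
    have h := (rep_fR (b := bK) hk).dpu.dpu θ x
    rw [h]
    linear_combination (1 / 2 ^ bK) * fn MK (D MK (D MK k)) θ x * Complex.I_mul_I
  have h4 : ((fR bK MK k θ x : ℝ) : ℂ) = fn MK k θ x / 2 ^ bK := FactsC_fR hk θ x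
  -- the values of the polynomial
  have h5 : fn c (X ^ (c - 3 * MK) * (((hn * 4 * 2 ^ (e - (bh + 3 * bK)) : ℤ) : A) * (k * k * k) -
      ((hn * 8 * 2 ^ (e - (bh + bK)) : ℤ) : A) * (X ^ (2 * MK) * D MK (D MK k)))) θ x =
      (hn * 4 * 2 ^ (e - (bh + 3 * bK)) : ℂ) * fn MK k θ x ^ 3 -
        (hn * 8 * 2 ^ (e - (bh + bK)) : ℂ) * fn MK (D MK (D MK k)) θ x := by
    have h := fn_shift (3 * MK) (c - 3 * MK) (((hn * 4 * 2 ^ (e - (bh + 3 * bK)) : ℤ) : A) * (k * k * k) -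
      ((hn * 8 * 2 ^ (e - (bh + bK)) : ℤ) : A) * (X ^ (2 * MK) * D MK (D MK k))) θ x
    rw [Nat.add_sub_cancel' hc2] at h
    rw [h, fn_sub, fn_int_mul, fn_int_mul]
    have e1 : 3 * MK = MK + MK + MK := by ring
    have e2 : 3 * MK = MK + 2 * MK := by ring
    have h6 : fn (3 * MK) (k * k * k) θ x = fn MK k θ x ^ 3 := by
      rw [e1, fn_mul, fn_mul]
      ring
    have h7 : fn (3 * MK) (X ^ (2 * MK) * D MK (D MK k)) θ x = fn MK (D MK (D MK k)) θ x := by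
      rw [e2, fn_shift]
    rw [h6, h7]
    push_cast
    ring
  have h8 : fn c (X ^ (c - N) * (((2 ^ (e - (2 * b + bP)) : ℤ) : A) *
      (PQ p f (dx f) * reflect N (D M f) + PQ p (reflect N f) (reflect N (dx f)) * D M f))) θ x =
      (2 ^ (e - (2 * b + bP)) : ℂ) *
        ((anX x (derivative p) * fn M f θ x + 4 * anX x p * fn M (dx f) θ x) *
            (starRingEnd ℂ) (fn M (D M f) θ x) +
          (anX x (derivative p) * (starRingEnd ℂ) (fn M f θ x) +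
            4 * anX x p * (starRingEnd ℂ) (fn M (dx f) θ x)) * fn M (D M f) θ x) := by
    have h := fn_shift N (c - N) (((2 ^ (e - (2 * b + bP)) : ℤ) : A) *
      (PQ p f (dx f) * reflect N (D M f) + PQ p (reflect N f) (reflect N (dx f)) * D M f)) θ x
    rw [Nat.add_sub_cancel' hc1] at h
    have h9 : fn M (PQ p f (dx f)) θ x =
        anX x (derivative p) * fn M f θ x + 4 * anX x p * fn M (dx f) θ x := by
      rw [PQ, fn_add, fn_C_mul, fn_C_mul, map_mul, map_ofNat]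
    have h10 : fn (N - M) (PQ p (reflect N f) (reflect N (dx f))) θ x =
        anX x (derivative p) * (starRingEnd ℂ) (fn M f θ x) +
            4 * anX x p * (starRingEnd ℂ) (fn M (dx f) θ x) := by
      rw [PQ, fn_add, fn_C_mul, fn_C_mul, map_mul, map_ofNat, conj_fn hf hM,
        conj_fn (natDegree_dx_le hf) hM]
    have h11 : fn N (PQ p (reflect N f) (reflect N (dx f)) * D M f) θ x =
        fn (N - M) (PQ p (reflect N f) (reflect N (dx f))) θ x * fn M (D M f) θ x := by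
      rw [← fn_mul, Nat.sub_add_cancel hM]
    rw [h, fn_int_mul, fn_add, FactsC_fn_mul_conj (natDegree_D_le hf) hM, h11, h9, h10]
    push_cast
    ring
  have g1 : (2 : ℂ) ^ e = 2 ^ (e - (2 * b + bP)) * (2 ^ b * 2 ^ b * 2 ^ bP) := by
    rw [← pow_add, ← pow_add, ← pow_add]
    congr 1
    omega
  have g2 : (2 : ℂ) ^ e = 2 ^ (e - (bh + bK)) * (2 ^ bh * 2 ^ bK) := by
    rw [← pow_add, ← pow_add]
    congr 1
    omega
  have g3 : (2 : ℂ) ^ e = 2 ^ (e - (bh + 3 * bK)) * (2 ^ bh * (2 ^ bK) ^ 3) := by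
    rw [← pow_mul, ← pow_add, ← pow_add]
    congr 1
    omega
  have n0 : ((2 : ℂ) ^ e) ≠ 0 := pow_ne_zero _ two_ne_zero
  have n1 : ((2 : ℂ) ^ b) ≠ 0 := pow_ne_zero _ two_ne_zero
  have n2 : ((2 : ℂ) ^ bP) ≠ 0 := pow_ne_zero _ two_ne_zero
  have n3 : ((2 : ℂ) ^ bh) ≠ 0 := pow_ne_zero _ two_ne_zero
  have n4 : ((2 : ℂ) ^ bK) ≠ 0 := pow_ne_zero _ two_ne_zero
  have f1 : (2 : ℂ) ^ (e - (2 * b + bP)) = 2 ^ e / (2 ^ b * 2 ^ b * 2 ^ bP) := by
    rw [g1]
    field_simp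
  have f2 : (2 : ℂ) ^ (e - (bh + bK)) = 2 ^ e / (2 ^ bh * 2 ^ bK) := by
    rw [g2]
    field_simp
  have f3 : (2 : ℂ) ^ (e - (bh + 3 * bK)) = 2 ^ e / (2 ^ bh * (2 ^ bK) ^ 3) := by
    rw [g3]
    field_simp
  rw [PR, fn_sub, h5, h8, f1, f2, f3]
  change ((xR (fC b M f) (fR bK MK k) (fP bP p) (hn / 2 ^ bh) θ x : ℝ) : ℂ) = _
  rw [xR]
  push_cast
  rw [h1, h2, h3, h4, FactsC_fP, FactsC_dP]
  generalize (2 : ℂ) ^ e = Q0 at *
  generalize (2 : ℂ) ^ b = Q1 at *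
  generalize (2 : ℂ) ^ bP = Q2 at *
  generalize (2 : ℂ) ^ bh = Q3 at *
  generalize (2 : ℂ) ^ bK = Q4 at *
  field_simp
  ring

end Pool.Agent.EM.Ck
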