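import Pool.Agent.EM.Ck.KF
import Pool.Agent.EM.Ck.Comb
import Pool.Agent.EM.Ck.FactsC

/-!
# EM checker, CK-14: the checks (B), (A), (R) on integers

`CV`: the integer values of `f, D f, D D f, dx f` and of their reversals; `KV`: of `k, D k, D D k`.
`Vl w Nx f V` means that `V` is the value of `f` at `x = 2^w`, `ζ = (2^w)^Nx` (a ring homomorphism: `Vl.mul`, ...).
The sizes (`SB`) come from the exact norms of the factors (`l1_of_sz0`), then `l1_of_sz` gives the exact norms of the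
products, compared with the rational numbers by `leQ`.
-/

set_option autoImplicit false

open Polynomial Finset

namespace Pool.Agent.EM.Ck

section Vl

variable {w Nx : ℕ} {f g : A} {U V : ℤ}

theorem Vl.mul (h : Vl w Nx f U) (h' : Vl w Nx g V) : Vl w Nx (f * g) (U * V) := by
  unfold Vl at *
  rw [map_mul, h, h']

theorem Vl.add (h : Vl w Nx f U) (h' : Vl w Nx g V) : Vl w Nx (f + g) (U + V) := by
  unfold Vl at *
  rw [map_add, h, h']

theorem Vl.sub (h : Vl w Nx f U) (h' : Vl w Nx g V) : Vl w Nx (f - g) (U - V) := by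
  unfold Vl at *
  rw [map_sub, h, h']

theorem Vl.neg (h : Vl w Nx f U) : Vl w Nx (-f) (-U) := by
  unfold Vl at *
  rw [map_neg, h]

theorem Vl.int (h : Vl w Nx f U) (z : ℤ) : Vl w Nx ((z : A) * f) (z * U) := by
  unfold Vl at *
  rw [map_mul, h, map_intCast]
  simp

theorem Vl.pow (w Nx j : ℕ) : Vl w Nx (X ^ j) ((pw (pw (2 ^ w) Nx) j : ℕ) : ℤ) := by
  unfold Vl
  rw [map_pow, ev_X, pw_eq, pw_eq]
  push_cast
  rfl

theorem Vl.shift (h : Vl w Nx f U) (j : ℕ) : Vl w Nx (X ^ j * f) ((pw (pw (2 ^ w) Nx) j : ℕ) * U) :=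
  (Vl.pow w Nx j).mul h

end Vl

/-- the polynomial in `x` given by a list -/
noncomputable def pX (p : List ℤ) : ℤ[X] := hor X (p.map C)

/-- sum of absolute values -/
def sab : List ℤ → ℕ
  | [] => 0
  | a :: l => a.natAbs + sab l

/-- value of a list at `W` (kernel) -/
def horZ (W : ℤ) : List ℤ → ℤ
  | [] => 0
  | a :: l => a + W * horZ W l

private theorem CheckC_pX_cons (a : ℤ) (p : List ℤ) : pX (a :: p) = C a + X * pX p := rfl

theorem evX_pX (W : ℕ) (p : List ℤ) : evX W (pX p) = horZ W p := by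
  induction p with
  | nil => simp [pX, hor, horZ]
  | cons a p ih =>
    rw [CheckC_pX_cons, map_add, map_mul, ih]
    simp [evX, horZ]

private theorem CheckC_coeff (p : List ℤ) (n : ℕ) : (pX p).coeff n = p.getD n 0 := by
  induction p generalizing n with
  | nil => simp [pX, hor]
  | cons a p ih =>
    rw [CheckC_pX_cons, coeff_add]
    cases n with
    | zero => simp
    | succ n =>
      rw [coeff_X_mul, ih, coeff_C_succ, zero_add]
      simp

private theorem CheckC_getD (a : ℤ) (p : List ℤ) (n : ℕ) : (wtsZ a p).getD n 0 = (a + n) * p.getD n 0 := by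
  induction p generalizing a n with
  | nil => simp [wtsZ]
  | cons b p ih =>
    cases n with
    | zero => simp [wtsZ]
    | succ n =>
      simp only [wtsZ, List.getD_cons_succ]
      rw [ih]
      push_cast
      ring

private theorem CheckC_length (a : ℤ) (p : List ℤ) : (wtsZ a p).length = p.length := by
  induction p generalizing a with
  | nil => rfl
  | cons b p ih => simp only [wtsZ, List.length_cons, ih]

private theorem CheckC_tail (p : List ℤ) (n : ℕ) : p.tail.getD n 0 = p.getD (n + 1) 0 := by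
  cases p with
  | nil => simp
  | cons a p => simp

theorem derivative_pX (p : List ℤ) : derivative (pX p) = pX (wtsZ 1 p.tail) := by
  ext n
  rw [coeff_derivative, CheckC_coeff, CheckC_coeff, CheckC_getD, CheckC_tail]
  ring

theorem natDegree_pX_le (p : List ℤ) : (pX p).natDegree ≤ p.length - 1 := by
  rw [natDegree_le_iff_coeff_eq_zero]
  intro n hn
  rw [CheckC_coeff]
  exact List.getD_eq_default _ _ (by omega)

private theorem CheckC_sab (p : List ℤ) (m : ℕ) : ∑ i ∈ range m, (p.getD i 0).natAbs ≤ sab p := by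
  induction p generalizing m with
  | nil => simp [sab]
  | cons a p ih =>
    cases m with
    | zero => simp
    | succ m =>
      rw [sum_range_succ']
      have h := ih m
      simp only [List.getD_cons_succ, List.getD_cons_zero, sab]
      omega

theorem SB_C_pX {p : List ℤ} {n : ℕ} (h : p.length ≤ n + 1) : SB (C (pX p)) 0 n (sab p) := by
  have h1 := natDegree_pX_le p
  refine SB.C (by omega) ?_
  simp only [CheckC_coeff]
  exact CheckC_sab p (n + 1)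

/-- integer values for the curve -/
structure CV where
  (v0 v1 v2 vx r0 r1 r2 rx : ℤ)

structure CV.Ok (w Nx M N : ℕ) (f : A) (c : CV) : Prop where
  v0 : Vl w Nx f c.v0
  v1 : Vl w Nx (D M f) c.v1
  v2 : Vl w Nx (D M (D M f)) c.v2
  vx : Vl w Nx (dx f) c.vx
  r0 : Vl w Nx (reflect N f) c.r0
  r1 : Vl w Nx (reflect N (D M f)) c.r1
  r2 : Vl w Nx (reflect N (D M (D M f))) c.r2
  rx : Vl w Nx (reflect N (dx f)) c.rx

/-- integer values for the curvature -/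
structure KV where
  (v0 v1 v2 : ℤ)

structure KV.Ok (w Nx MK : ℕ) (k : A) (c : KV) : Prop where
  v0 : Vl w Nx k c.v0
  v1 : Vl w Nx (D MK k) c.v1
  v2 : Vl w Nx (D MK (D MK k)) c.v2

/-- exact `l¹` norm of a value of degree `N` -/
def nn (w Nx N : ℕ) (V : ℤ) : ℕ := n0 (2 ^ w) (zabK w Nx N V)

/-- comparison of the norms (weights `1, |m|, m²` and `i`) of a value with four rational numbers -/
def cmp4 (w Nx N M : ℕ) (V : ℤ) (q0 q1 q2 qx : ℚ) (s : ℕ) : Bool :=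
  let Z := zabK w Nx N V
  let m := nDK (2 ^ w) Nx M Z
  leQ (n0 (2 ^ w) Z) q0 s && leQ m.1 q1 s && leQ m.2.1 q2 s && leQ (nXK (2 ^ w) Nx Z) qx s

theorem cmp4_sound {w Nx N M k B s : ℕ} {f : A} {V : ℤ} {q0 q1 q2 qx : ℚ} (h : SB f N k B)
    (hs : sz w Nx N k B = true) (hV : Vl w Nx f V) (hM : M ≤ N) (hc : cmp4 w Nx N M V q0 q1 q2 qx s = true) :
    (l1 f : ℚ) ≤ q0 * 2 ^ s ∧ (l1 (D M f) : ℚ) ≤ q1 * 2 ^ s ∧ (l1 (D M (D M f)) : ℚ) ≤ q2 * 2 ^ s ∧
      (l1 (dx f) : ℚ) ≤ qx * 2 ^ s := by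
  obtain ⟨h0, h1, h2, _, h3⟩ := l1_of_sz h hs hV hM
  simp only [cmp4, Bool.and_eq_true] at hc
  obtain ⟨⟨⟨c0, c1⟩, c2⟩, c3⟩ := hc
  have e0 := le_of_leQ c0
  have e1 := le_of_leQ c1
  have e2 := le_of_leQ c2
  have e3 := le_of_leQ c3
  rw [← h0] at e0
  rw [← h1] at e1
  rw [← h2] at e2
  rw [← h3] at e3
  exact ⟨by exact_mod_cast e0, by exact_mod_cast e1, by exact_mod_cast e2, by exact_mod_cast e3⟩

private theorem CheckC_sz0 {w Nx k B B' : ℕ} (h : sz0 w Nx k B = true) (hB : B' ≤ B) : sz0 w Nx k B' = true := by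
  unfold sz0 at h ⊢
  simp only [Bool.and_eq_true, decide_eq_true_eq] at h ⊢
  exact ⟨h.1, lt_of_le_of_lt hB h.2⟩

private theorem CheckC_nn {f : A} {N k B w Nx : ℕ} {V : ℤ} (h : SB f N k B) (hs : sz0 w Nx k B = true)
    (hV : Vl w Nx f V) : SB f N k (nn w Nx N V) := by
  have h1 := l1_of_sz0 h hs hV
  have h2 := h.exact
  rw [h1] at h2
  exact h2

private theorem CheckC_Xpow (j : ℕ) : SB (X ^ j : A) j 0 1 := by
  have h := SB.one.shift j
  rwa [mul_one, zero_add] at h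

private theorem CheckC_int {f : A} {N k B : ℕ} (h : SB f N k B) (z : ℕ) : SB (((z : ℤ) : A) * f) N k (z * B) := by
  have h1 := h.int (z : ℤ)
  rwa [Int.natAbs_natCast] at h1

/-! ## (B) -/

/-- `N1 B`: degree in `x` and crude norm of `f` -/
def chkB (w Nx M N k B b : ℕ) (c : CV) (x : XNum ℚ) : Bool :=
  let n1 := nn w Nx N c.v1
  decide (M ≤ N) && sz0 w Nx k (N * B) && sz w Nx (N + N) (k + k) (n1 * n1 + 2 ^ (2 * b)) &&
  cmp4 w Nx (N + N) N (c.v1 * c.r1 - 2 ^ (2 * b) * pw (pw (2 ^ w) Nx) N) x.eB0 x.eB1 x.eB2 x.eBx (2 * b)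

theorem chkB_sound {w Nx M N k B b : ℕ} {c : CV} {x : XNum ℚ} {f : A} (hf : SB f N k B)
    (hc : c.Ok w Nx M N f) (h : chkB w Nx M N k B b c x = true) :
    (l1 (PB b M N f) : ℚ) ≤ x.eB0 * 2 ^ (2 * b) ∧ (l1 (D N (PB b M N f)) : ℚ) ≤ x.eB1 * 2 ^ (2 * b) ∧
      (l1 (D N (D N (PB b M N f))) : ℚ) ≤ x.eB2 * 2 ^ (2 * b) ∧
      (l1 (dx (PB b M N f)) : ℚ) ≤ x.eBx * 2 ^ (2 * b) := by
  simp only [chkB, Bool.and_eq_true, decide_eq_true_eq] at h
  obtain ⟨⟨⟨hM, h1⟩, h2⟩, h3⟩ := h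
  have s1 := CheckC_nn (hf.D hM) h1 hc.v1
  have s3 := s1.mul s1.reflect
  have s4 := CheckC_int (CheckC_Xpow N) (2 ^ (2 * b))
  have s5 := (s3.sub (s4.mono (by omega) (by omega) le_rfl)).mono le_rfl le_rfl
    (show _ ≤ nn w Nx N c.v1 * nn w Nx N c.v1 + 2 ^ (2 * b) by rw [mul_one])
  have v5 := (hc.v1.mul hc.r1).sub ((Vl.pow w Nx N).int (2 ^ (2 * b)))
  have e : PB b M N f = D M f * reflect N (D M f) - (((2 ^ (2 * b) : ℕ) : ℤ) : A) * X ^ N := by
    unfold PB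
    push_cast
    rfl
  rw [← e] at s5
  exact cmp4_sound s5 h2 v5 (by omega) h3

/-! ## (A) -/

def chkA (w Nx M N k B b bK MK BK : ℕ) (c : CV) (kv : KV) (x : XNum ℚ) : Bool :=
  let n1 := nn w Nx N c.v1
  let n2 := nn w Nx N c.v2
  let nk := nn w Nx (2 * MK) kv.v0
  decide (M ≤ N) && decide (MK ≤ N) && sz0 w Nx k (N * (N * B)) && sz0 w Nx k BK &&
  sz w Nx (N + N) (k + k) (n1 * n2 + n1 * n2 + 2 ^ (2 * b + 1 - bK) * nk) &&
  cmp4 w Nx (N + N) N (c.r1 * c.v2 + c.v1 * c.r2 -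
    2 ^ (2 * b + 1 - bK) * (pw (pw (2 ^ w) Nx) (N - MK) * kv.v0)) x.eA0 x.eA1 x.eA2 x.eAx (2 * b + 1)

theorem chkA_sound {w Nx M N k B b bK MK BK : ℕ} {c : CV} {kv : KV} {x : XNum ℚ} {f κ : A} (hf : SB f N k B)
    (hk : SB κ (2 * MK) k BK) (hc : c.Ok w Nx M N f) (hkv : kv.Ok w Nx MK κ)
    (h : chkA w Nx M N k B b bK MK BK c kv x = true) :
    (l1 (PA b M N bK MK f κ) : ℚ) ≤ x.eA0 * 2 ^ (2 * b + 1) ∧
      (l1 (D N (PA b M N bK MK f κ)) : ℚ) ≤ x.eA1 * 2 ^ (2 * b + 1) ∧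
      (l1 (D N (D N (PA b M N bK MK f κ))) : ℚ) ≤ x.eA2 * 2 ^ (2 * b + 1) ∧
      (l1 (dx (PA b M N bK MK f κ)) : ℚ) ≤ x.eAx * 2 ^ (2 * b + 1) := by
  simp only [chkA, Bool.and_eq_true, decide_eq_true_eq] at h
  obtain ⟨⟨⟨⟨⟨hM, hMK⟩, h1⟩, h2⟩, h3⟩, h4⟩ := h
  have hB : N * B ≤ N * (N * B) := by
    rcases Nat.eq_zero_or_pos N with h0 | h0
    · rw [h0]; simp
    · exact Nat.le_mul_of_pos_left _ h0
  have s1 := CheckC_nn (hf.D hM) (CheckC_sz0 h1 hB) hc.v1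
  have s2 := CheckC_nn ((hf.D hM).D hM) h1 hc.v2
  have s3 := CheckC_nn hk h2 hkv.v0
  have t1 := s1.reflect.mul s2
  have t2 := s1.mul s2.reflect
  have t3 := CheckC_int (s3.shift (N - MK)) (2 ^ (2 * b + 1 - bK))
  have s5 := (t1.add t2).sub (t3.mono (N' := N + N) (k' := k + k) (by omega) (by omega) le_rfl)
  have v5 := ((hc.r1.mul hc.v2).add (hc.v1.mul hc.r2)).sub ((hkv.v0.shift (N - MK)).int (2 ^ (2 * b + 1 - bK)))
  have e : PA b M N bK MK f κ = reflect N (D M f) * D M (D M f) + D M f * reflect N (D M (D M f)) -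
      (((2 ^ (2 * b + 1 - bK) : ℕ) : ℤ) : A) * (X ^ (N - MK) * κ) := by
    unfold PA
    push_cast
    rfl
  rw [← e] at s5
  exact cmp4_sound s5 h3 v5 (by omega) h4

/-! ## (R) -/

/-- the integer value of `PR` -/
def pRV (w Nx N bK MK b bP hn bh e c : ℕ) (v : CV) (kv : KV) (p : List ℤ) : ℤ :=
  let Y := pw (2 ^ w) Nx
  let pv := horZ (2 ^ w) p
  let pd := horZ (2 ^ w) (wtsZ 1 p.tail)
  pw Y (c - 3 * MK) * ((hn * 4 * 2 ^ (e - (bh + 3 * bK))) * (kv.v0 * kv.v0 * kv.v0) -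
      (hn * 8 * 2 ^ (e - (bh + bK))) * (pw Y (2 * MK) * kv.v2)) -
    pw Y (c - N) * (2 ^ (e - (2 * b + bP)) *
      ((pd * v.v0 + 4 * pv * v.vx) * v.r1 + (pd * v.r0 + 4 * pv * v.rx) * v.v1))

def chkR (w Nx M N k B b bK MK BK bP hn bh e : ℕ) (v : CV) (kv : KV) (p : List ℤ) (x : XNum ℚ) : Bool :=
  let c := max N (3 * MK)
  let nf := nn w Nx N v.v0
  let n1 := nn w Nx N v.v1
  let nx := nn w Nx N v.vx
  let nk := nn w Nx (2 * MK) kv.v0
  let n2 := nn w Nx (2 * MK) kv.v2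
  let nQ := sab (wtsZ 1 p.tail) * nf + 4 * sab p * nx
  decide (M ≤ N) && decide (p.length ≤ k + 1) && sz0 w Nx k (N * B) && sz0 w Nx k (k * B) && sz0 w Nx k B &&
  sz0 w Nx k (2 * MK * (2 * MK * BK)) && sz0 w Nx k BK &&
  sz0 w Nx (k + k + k) (hn * 4 * 2 ^ (e - (bh + 3 * bK)) * (nk * nk * nk) +
    hn * 8 * 2 ^ (e - (bh + bK)) * n2 + 2 ^ (e - (2 * b + bP)) * (nQ * n1 + nQ * n1)) &&
  leQ (nn w Nx (c + c) (pRV w Nx N bK MK b bP hn bh e c v kv p)) x.eR (e + 3)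

theorem chkR_sound {w Nx M N k B b bK MK BK bP hn bh e : ℕ} {v : CV} {kv : KV} {p : List ℤ} {x : XNum ℚ} {f κ : A}
    (hf : SB f N k B) (hk : SB κ (2 * MK) k BK) (hc : v.Ok w Nx M N f) (hkv : kv.Ok w Nx MK κ)
    (h : chkR w Nx M N k B b bK MK BK bP hn bh e v kv p x = true) :
    (l1 (PR b M N bK MK bP hn bh e (max N (3 * MK)) f κ (pX p)) : ℚ) ≤ x.eR * (8 * 2 ^ e) := by
  simp only [chkR, Bool.and_eq_true, decide_eq_true_eq] at h
  obtain ⟨⟨⟨⟨⟨⟨⟨⟨hM, hp⟩, h1⟩, h2⟩, h3⟩, h4⟩, h5⟩, h6⟩, h7⟩ := h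
  have hN : N ≤ max N (3 * MK) := le_max_left _ _
  have hK : 3 * MK ≤ max N (3 * MK) := le_max_right _ _
  generalize max N (3 * MK) = c at *
  have sf := CheckC_nn hf h3 hc.v0
  have s1 := CheckC_nn (hf.D hM) h1 hc.v1
  have sx := CheckC_nn hf.dx h2 hc.vx
  have sk := CheckC_nn hk h5 hkv.v0
  have s2 := CheckC_nn ((hk.D (M := MK) (by omega)).D (M := MK) (by omega)) h4 hkv.v2
  have hpd : SB (C (derivative (pX p))) 0 k (sab (wtsZ 1 p.tail)) := by
    rw [derivative_pX]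
    apply SB_C_pX
    rw [CheckC_length, List.length_tail]
    omega
  have hpv : SB (C (4 * pX p)) 0 k (4 * sab p) := by
    have e : (C (4 * pX p) : A) = (((4 : ℕ) : ℤ) : A) * C (pX p) := by
      rw [C_mul]
      congr 1
    rw [e]
    exact CheckC_int (SB_C_pX hp) 4
  have vpd : Vl w Nx (C (derivative (pX p))) (horZ (2 ^ w) (wtsZ 1 p.tail)) := by
    unfold Vl
    rw [ev_C, derivative_pX, evX_pX]
    push_cast
    rfl
  have vpv : Vl w Nx (C (4 * pX p)) (4 * horZ (2 ^ w) p) := by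
    unfold Vl
    rw [ev_C, map_mul, evX_pX, map_ofNat]
    push_cast
    rfl
  -- the two factors PQ
  have q1 : SB (PQ (pX p) f (dx f)) N (k + k) (sab (wtsZ 1 p.tail) * nn w Nx N v.v0 +
      4 * sab p * nn w Nx N v.vx) := by
    have h := (hpd.mul sf).add (hpv.mul sx)
    rw [zero_add] at h
    exact h
  have q2 : SB (PQ (pX p) (reflect N f) (reflect N (dx f))) N (k + k) (sab (wtsZ 1 p.tail) * nn w Nx N v.v0 +
      4 * sab p * nn w Nx N v.vx) := by
    have h := (hpd.mul sf.reflect).add (hpv.mul sx.reflect)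
    rw [zero_add] at h
    exact h
  have vq1 : Vl w Nx (PQ (pX p) f (dx f)) (horZ (2 ^ w) (wtsZ 1 p.tail) * v.v0 + 4 * horZ (2 ^ w) p * v.vx) :=
    (vpd.mul hc.v0).add (vpv.mul hc.vx)
  have vq2 : Vl w Nx (PQ (pX p) (reflect N f) (reflect N (dx f)))
      (horZ (2 ^ w) (wtsZ 1 p.tail) * v.r0 + 4 * horZ (2 ^ w) p * v.rx) :=
    (vpd.mul hc.r0).add (vpv.mul hc.rx)
  -- the second part
  have t2 := (CheckC_int ((q1.mul s1.reflect).add (q2.mul s1)) (2 ^ (e - (2 * b + bP)))).shift (c - N)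
  have vt2 := (((vq1.mul hc.r1).add (vq2.mul hc.v1)).int (2 ^ (e - (2 * b + bP)))).shift (c - N)
  -- the first part
  have t3 := CheckC_int ((sk.mul sk).mul sk) (hn * 4 * 2 ^ (e - (bh + 3 * bK)))
  have t4 := CheckC_int (s2.shift (2 * MK)) (hn * 8 * 2 ^ (e - (bh + bK)))
  have t1 := ((t3.mono (N' := 6 * MK) (k' := k + k + k) (by omega) le_rfl le_rfl).sub
    (t4.mono (N' := 6 * MK) (k' := k + k + k) (by omega) (by omega) le_rfl)).shift (c - 3 * MK)
  have vt1 := ((((hkv.v0.mul hkv.v0).mul hkv.v0).int (hn * 4 * 2 ^ (e - (bh + 3 * bK)))).sub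
    ((hkv.v2.shift (2 * MK)).int (hn * 8 * 2 ^ (e - (bh + bK))))).shift (c - 3 * MK)
  have t := (t1.mono (N' := c + c) (k' := k + k + k) (by omega) le_rfl le_rfl).sub
    (t2.mono (N' := c + c) (k' := k + k + k) (by omega) le_rfl le_rfl)
  have vt := vt1.sub vt2
  have e1 : PR b M N bK MK bP hn bh e c f κ (pX p) =
      X ^ (c - 3 * MK) * ((((hn * 4 * 2 ^ (e - (bh + 3 * bK)) : ℕ) : ℤ) : A) * (κ * κ * κ) -
        (((hn * 8 * 2 ^ (e - (bh + bK)) : ℕ) : ℤ) : A) * (X ^ (2 * MK) * D MK (D MK κ))) -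
      X ^ (c - N) * ((((2 ^ (e - (2 * b + bP)) : ℕ) : ℤ) : A) *
        (PQ (pX p) f (dx f) * reflect N (D M f) +
          PQ (pX p) (reflect N f) (reflect N (dx f)) * D M f)) := by
    unfold PR
    push_cast
    rfl
  rw [← e1] at t
  have vt' : Vl w Nx (PR b M N bK MK bP hn bh e c f κ (pX p)) (pRV w Nx N bK MK b bP hn bh e c v kv p) := vt
  have h8 := l1_of_sz0 t h6 vt'
  have h9 := le_of_leQ h7
  have h10 : (nn w Nx (c + c) (pRV w Nx N bK MK b bP hn bh e c v kv p)) =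
      l1 (PR b M N bK MK bP hn bh e c f κ (pX p)) := h8.symm
  rw [h10] at h9
  have h11 : x.eR * 2 ^ (e + 3) = x.eR * (8 * 2 ^ e) := by
    rw [pow_add]
    ring
  rw [h11] at h9
  exact_mod_cast h9

end Pool.Agent.EM.Ck
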