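import Pool.Agent.EM.Ck.CheckK
import Pool.Agent.EM.Ck.FactsE

/-!
# EM checker, CK-16: the certificate

`PE` is `cE` of ring elements; `ev` is a ring homomorphism, so its value is `cE` of the integer values
(`cE_map`: a ring homomorphism applied to both components of `cE`).  `D2 Mc (ae, ao) = (- D ao, D ae)`,
`D2² = (- D D ae, - D D ao)`, `D2³ = (D D D ao, - D D D ae)` (`D M (-f) = - D M f`).
Sizes: `SB` of both components by the calculus of CK-1 with the exact norms of the factors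
(`na = nn (a_e) + nn (a_o)` etc.): `l1 (mul2 F G).1 + l1 (mul2 F G).2 ≤ (l1 F.1 + l1 F.2) (l1 G.1 + l1 G.2)`; `chkE` uses
this for the a-priori bound `BE`.
-/

set_option autoImplicit false

open Polynomial Finset

namespace Pool.Agent.EM.Ck

/-- product of pairs of integers -/
def mulZ (F G : ℤ × ℤ) : ℤ × ℤ := (F.1 * G.1 - F.2 * G.2, F.1 * G.2 + F.2 * G.1)

/-- `cE` over the integers, for the kernel (values at the beginning of the file `FactsE`) -/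
def cEZ (tn td : ℤ) (q : ℤ) (a a1 a2 a3 : ℤ × ℤ) (k k1 k2 z : ℤ) : ℤ × ℤ :=
  let u := mulZ a a
  let v := k * k
  let uu := mulZ u u
  let m1 := mulZ a1 (4 * tn * u.1 + 5 * td * v, 4 * tn * u.2)
  let m2 := mulZ a1 a1
  let m3 := mulZ a a2
  let kk := k * k1
  let c1 := -8 * tn * q
  let qq := q * q
  let c2 := tn * tn * 4 * qq
  let c3 := -8 * tn * tn * (qq * q)
  let c4 := -40 * tn * td * q
  (tn * tn * 4 * uu.1 + tn * td * 20 * v * u.1 + c1 * m1.1 + c2 * (7 * m2.1 + 6 * m3.1) + c3 * a3.1 -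
      c4 * (a.2 * kk) + 8 * tn * td * qq * (2 * (k * k2) + k1 * k1) +
      (25 * td * td - 20 * tn * td) * (v * v) + z,
    tn * tn * 4 * uu.2 + tn * td * 20 * v * u.2 + c1 * m1.2 + c2 * (7 * m2.2 + 6 * m3.2) + c3 * a3.2 +
      c4 * (a.1 * kk))

theorem cEZ_eq (tn td q : ℤ) (a a1 a2 a3 : ℤ × ℤ) (k k1 k2 z : ℤ) :
    cEZ tn td q a a1 a2 a3 k k1 k2 z = cE tn td q a a1 a2 a3 k k1 k2 z := by
  simp only [cEZ, cE, mulZ, mul2, add2, sc2, Int.cast_id]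
  apply Prod.ext
  · simp only
    ring
  · simp only
    ring

theorem cE_map {R S : Type*} [CommRing R] [CommRing S] (φ : R →+* S) (tn td : ℤ) (q : R) (a a1 a2 a3 : R × R)
    (k k1 k2 z : R) :
    ((φ (cE tn td q a a1 a2 a3 k k1 k2 z).1, φ (cE tn td q a a1 a2 a3 k k1 k2 z).2) : S × S) =
      cE tn td (φ q) (φ a.1, φ a.2) (φ a1.1, φ a1.2) (φ a2.1, φ a2.2) (φ a3.1, φ a3.2) (φ k) (φ k1) (φ k2) (φ z) := by
  simp only [cE, add2, sc2, mul2, map_add, map_sub, map_mul, map_intCast, map_zero]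

/-- the integer value of the certificate pair -/
def pEV (w Nx bc bL bP Mc : ℕ) (tn td L0 L1 L2 G0 : ℤ) (kv : KV) (e o : AV) (p : List ℤ) : ℤ × ℤ :=
  let Y := pw (2 ^ w) Nx
  cEZ tn td (2 ^ bc * pw Y Mc) (e.v0, o.v0) (-o.v1, e.v1) (-e.v2, -o.v2) (o.v3, -e.v3) kv.v0 kv.v1 kv.v2
    (16 * tn * td * 2 ^ (4 * bc - (bL + bP)) *
      (pw Y (4 * Mc) * (G0 * 2 ^ bP - (L0 + L1 * 2 ^ w + L2 * (2 ^ w * 2 ^ w)) * horZ (2 ^ w) p)))

/-- a-priori bound of both components: `n, n1, n2, n3` norms of `a, a', a'', a'''` (sums over the pair), `k, k1, k2` -/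
def bE (tn td q n n1 n2 n3 k k1 k2 z : ℕ) : ℕ :=
  4 * tn * tn * (n * n * (n * n)) + 20 * tn * td * (k * k * (n * n)) +
    8 * tn * q * (n1 * (4 * tn * (n * n) + 5 * td * (k * k))) +
    4 * tn * tn * (q * q) * (7 * (n1 * n1) + 6 * (n * n2)) + 8 * tn * tn * (q * q * q) * n3 +
    40 * tn * td * q * (n * (k * k1)) + 8 * tn * td * (q * q) * (2 * (k * k2) + k1 * k1) +
    (25 * td * td + 20 * tn * td) * (k * k * (k * k)) + z

def chkE (w Nx k bc bL bP Mc BKc Ba : ℕ) (tn td L0 L1 L2 G0 : ℤ) (kv : KV) (e o : AV) (p : List ℤ)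
    (x : XNum ℚ) : Bool :=
  let N := 2 * Mc
  let n := nn w Nx N e.v0 + nn w Nx N o.v0
  let n1 := nn w Nx N e.v1 + nn w Nx N o.v1
  let n2 := nn w Nx N e.v2 + nn w Nx N o.v2
  let n3 := nn w Nx N e.v3 + nn w Nx N o.v3
  let z := (16 * tn * td * 2 ^ (4 * bc - (bL + bP))).natAbs *
    (G0.natAbs * 2 ^ bP + (L0.natAbs + L1.natAbs + L2.natAbs) * sab p)
  let kx := 2 * k + 2 * k
  let BE := bE tn.natAbs td.natAbs (2 ^ bc) n n1 n2 n3 (nn w Nx N kv.v0) (nn w Nx N kv.v1) (nn w Nx N kv.v2) z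
  let V := pEV w Nx bc bL bP Mc tn td L0 L1 L2 G0 kv e o p
  let r : ℤ := (nn w Nx (8 * Mc) V.1 : ℤ) + nn w Nx (8 * Mc) V.2
  decide (p.length + 1 ≤ kx) && sz0 w Nx k (N * (N * (N * Ba))) && sz0 w Nx k (N * (N * BKc)) &&
  sz0 w Nx k Ba && sz0 w Nx k BKc && sz0 w Nx k (N * Ba) && sz0 w Nx k (N * (N * Ba)) && sz0 w Nx k (N * BKc) &&
  sz0 w Nx kx BE && decide (0 < tn) && decide (0 < td) &&
  decide (r * 2 ^ bL * x.mg.den ≤ 16 * tn * td * 2 ^ (4 * bc) * (G0 * x.mg.den - x.mg.num * 2 ^ bL))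

/-! ## sizes of pairs -/

/-- sizes of the two components of a pair, with a bound for the sum of the norms -/
private def CheckE_SB (F : A × A) (N k B : ℕ) : Prop :=
  SB F.1 N k (l1 F.1) ∧ SB F.2 N k (l1 F.2) ∧ l1 F.1 + l1 F.2 ≤ B

private theorem CheckE_mk {f g : A} {N k B B' : ℕ} (h : SB f N k B) (h' : SB g N k B') :
    CheckE_SB (f, g) N k (B + B') :=
  ⟨h.exact, h'.exact, Nat.add_le_add h.2 h'.2⟩

private theorem CheckE_mono {F : A × A} {N k B N' k' B' : ℕ} (h : CheckE_SB F N k B) (hN : N ≤ N') (hk : k ≤ k')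
    (hB : B ≤ B') : CheckE_SB F N' k' B' :=
  ⟨h.1.mono hN hk le_rfl, h.2.1.mono hN hk le_rfl, h.2.2.trans hB⟩

private theorem CheckE_mul {F G : A × A} {N k B N' k' B' : ℕ} (h : CheckE_SB F N k B) (h' : CheckE_SB G N' k' B') :
    CheckE_SB (mul2 F G) (N + N') (k + k') (B * B') := by
  obtain ⟨a1, a2, a3⟩ := h
  obtain ⟨b1, b2, b3⟩ := h'
  have c1 := (a1.mul b1).sub (a2.mul b2)
  have c2 := (a1.mul b2).add (a2.mul b1)
  refine ⟨c1.exact, c2.exact, ?_⟩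
  calc l1 (mul2 F G).1 + l1 (mul2 F G).2 ≤ (l1 F.1 * l1 G.1 + l1 F.2 * l1 G.2) + (l1 F.1 * l1 G.2 + l1 F.2 * l1 G.1) :=
        Nat.add_le_add c1.2 c2.2
    _ = (l1 F.1 + l1 F.2) * (l1 G.1 + l1 G.2) := by ring
    _ ≤ B * B' := Nat.mul_le_mul a3 b3

private theorem CheckE_add {F G : A × A} {N k B B' : ℕ} (h : CheckE_SB F N k B) (h' : CheckE_SB G N k B') :
    CheckE_SB (add2 F G) N k (B + B') := by
  obtain ⟨a1, a2, a3⟩ := h
  obtain ⟨b1, b2, b3⟩ := h'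
  have c1 := a1.add b1
  have c2 := a2.add b2
  refine ⟨c1.exact, c2.exact, ?_⟩
  calc l1 (add2 F G).1 + l1 (add2 F G).2 ≤ (l1 F.1 + l1 G.1) + (l1 F.2 + l1 G.2) := Nat.add_le_add c1.2 c2.2
    _ = (l1 F.1 + l1 F.2) + (l1 G.1 + l1 G.2) := by ring
    _ ≤ B + B' := Nat.add_le_add a3 b3

private theorem CheckE_sc {z : A} {F : A × A} {N k B N' k' B' : ℕ} (h : SB z N k B) (h' : CheckE_SB F N' k' B') :
    CheckE_SB (sc2 z F) (N + N') (k + k') (B * B') := by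
  obtain ⟨b1, b2, b3⟩ := h'
  have c1 := h.mul b1
  have c2 := h.mul b2
  refine ⟨c1.exact, c2.exact, ?_⟩
  calc l1 (sc2 z F).1 + l1 (sc2 z F).2 ≤ B * l1 F.1 + B * l1 F.2 := Nat.add_le_add c1.2 c2.2
    _ = B * (l1 F.1 + l1 F.2) := by ring
    _ ≤ B * B' := Nat.mul_le_mul_left _ b3

private theorem CheckE_int {F : A × A} {N k B : ℕ} (z : ℤ) (h : CheckE_SB F N k B) :
    CheckE_SB (sc2 (z : A) F) N k (z.natAbs * B) := by
  obtain ⟨b1, b2, b3⟩ := h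
  have c1 := b1.int z
  have c2 := b2.int z
  refine ⟨c1.exact, c2.exact, ?_⟩
  calc l1 (sc2 (z : A) F).1 + l1 (sc2 (z : A) F).2 ≤ z.natAbs * l1 F.1 + z.natAbs * l1 F.2 :=
        Nat.add_le_add c1.2 c2.2
    _ = z.natAbs * (l1 F.1 + l1 F.2) := by ring
    _ ≤ z.natAbs * B := Nat.mul_le_mul_left _ b3

private theorem CheckE_zero (N k : ℕ) : SB (0 : A) N k 0 := by
  have h := (SB.one.int 0).mono (Nat.zero_le N) (Nat.zero_le k) (by simp : (0 : ℤ).natAbs * 1 ≤ 0)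
  simpa using h

private theorem CheckE_left {z : A} {N k B : ℕ} (h : SB z N k B) : CheckE_SB (z, 0) N k B := by
  have := CheckE_mk h (CheckE_zero N k)
  simpa using this

private theorem CheckE_right {z : A} {N k B : ℕ} (h : SB z N k B) : CheckE_SB (0, z) N k B := by
  have := CheckE_mk (CheckE_zero N k) h
  simpa using this

/-- size of `cE` -/
private theorem CheckE_cE {tn td : ℤ} {q : A} {a a1 a2 a3 : A × A} {κ κ1 κ2 z : A} {M k Q n n1 n2 n3 m m1 m2 b : ℕ}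
    (hq : SB q M 0 Q) (ha : CheckE_SB a (2 * M) k n) (ha1 : CheckE_SB a1 (2 * M) k n1)
    (ha2 : CheckE_SB a2 (2 * M) k n2) (ha3 : CheckE_SB a3 (2 * M) k n3) (hk : SB κ (2 * M) k m)
    (hk1 : SB κ1 (2 * M) k m1) (hk2 : SB κ2 (2 * M) k m2) (hz : SB z (4 * M) (2 * k + 2 * k) b) :
    CheckE_SB (cE tn td q a a1 a2 a3 κ κ1 κ2 z) (8 * M) (2 * k + 2 * k)
      (bE tn.natAbs td.natAbs Q n n1 n2 n3 m m1 m2 b) := by
  have hu := CheckE_mul ha ha
  have hv := hk.mul hk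
  have huu := CheckE_mul hu hu
  have hqq := hq.mul hq
  have hqqq := hqq.mul hq
  -- the summands
  have t1 := CheckE_int (tn * tn * 4) huu
  have t2 := CheckE_sc (hv.int (tn * td * 20)) hu
  have hr := CheckE_add (CheckE_int (4 * tn) hu) (CheckE_left (hv.int (5 * td)))
  have hr' : CheckE_SB (add2 (sc2 ((4 * tn : ℤ) : A) (mul2 a a)) (((5 * td : ℤ) : A) * (κ * κ), 0)) (4 * M) (2 * k)
      (4 * tn.natAbs * (n * n) + 5 * td.natAbs * (m * m)) :=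
    CheckE_mono hr (by omega) (by omega) (by simp [Int.natAbs_mul])
  have t3 := CheckE_sc (hq.int (-8 * tn)) (CheckE_mul ha1 hr)
  have t4 := CheckE_sc (hqq.int (tn * tn * 4))
    (CheckE_add (CheckE_int 7 (CheckE_mul ha1 ha1)) (CheckE_int 6 (CheckE_mul ha ha2)))
  have t5 := CheckE_sc (hqqq.int (-8 * tn * tn)) ha3
  have t6 := CheckE_sc (hq.int (-40 * tn * td)) (CheckE_mul ha (CheckE_right (hk.mul hk1)))
  have t7 := (hqq.int (8 * tn * td)).mul (((hk.mul hk2).int 2).add (hk1.mul hk1))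
  have t8 := (hv.mul hv).int (25 * td * td - 20 * tn * td)
  have e8 : (25 * td * td - 20 * tn * td).natAbs ≤ 25 * td.natAbs * td.natAbs + 20 * tn.natAbs * td.natAbs := by
    refine (Int.natAbs_sub_le _ _).trans (le_of_eq ?_)
    simp [Int.natAbs_mul]
  set K := 2 * k + 2 * k with hK
  have s1 : CheckE_SB _ (8 * M) K _ := CheckE_mono t1 (by omega) (by omega) le_rfl
  have s2 : CheckE_SB _ (8 * M) K _ := CheckE_mono t2 (by omega) (by omega) le_rfl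
  have s3 : CheckE_SB _ (8 * M) K _ := CheckE_mono t3 (by omega) (by omega) le_rfl
  have s4 : CheckE_SB _ (8 * M) K _ := CheckE_mono t4 (by omega) (by omega) le_rfl
  have s5 : CheckE_SB _ (8 * M) K _ := CheckE_mono t5 (by omega) (by omega) le_rfl
  have s6 : CheckE_SB _ (8 * M) K _ := CheckE_mono t6 (by omega) (by omega) le_rfl
  have s7 : SB _ (8 * M) K _ := t7.mono (by omega) (by omega) le_rfl
  have s8 : SB _ (8 * M) K _ := t8.mono (by omega) (by omega) (Nat.mul_le_mul_right _ e8)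
  have s9 : SB z (8 * M) K b := hz.mono (by omega) (by omega) le_rfl
  have hh := CheckE_add (CheckE_add (CheckE_add s1 s2) (CheckE_add s3 s4))
    (CheckE_add (CheckE_add s5 s6) (CheckE_left ((s7.add s8).add s9)))
  refine CheckE_mono hh le_rfl le_rfl (le_of_eq ?_)
  simp only [Int.natAbs_mul, bE]
  norm_num
  ring

/-- size of `zE` -/
private theorem CheckE_zE {tn td : ℤ} {bc bL bP Mc k : ℕ} {L0 L1 L2 G0 : ℤ} {p : List ℤ}
    (hp : p.length + 1 ≤ 2 * k + 2 * k) :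
    SB (zE tn td bc bL bP Mc L0 L1 L2 G0 (pX p)) (4 * Mc) (2 * k + 2 * k)
      ((16 * tn * td * 2 ^ (4 * bc - (bL + bP))).natAbs *
        (G0.natAbs * 2 ^ bP + (L0.natAbs + L1.natAbs + L2.natAbs) * sab p)) := by
  have c1 : SB (C (C (G0 * 2 ^ bP)) : A) 0 0 (G0.natAbs * 2 ^ bP) := by
    refine SB.C (by rw [natDegree_C]) ?_
    rw [sum_range_one, coeff_C_zero, Int.natAbs_mul, Int.natAbs_pow]
    simp
  have c2 : SB (C (C L0 + C L1 * X + C L2 * X ^ 2) : A) 0 2 (L0.natAbs + L1.natAbs + L2.natAbs) := by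
    refine SB.C ?_ ?_
    · refine (natDegree_add_le _ _).trans (max_le ((natDegree_add_le _ _).trans (max_le ?_ ?_)) ?_)
      · rw [natDegree_C]
        omega
      · exact (natDegree_C_mul_le _ _).trans (natDegree_X_le.trans (by omega))
      · exact natDegree_C_mul_X_pow_le _ _
    · rw [sum_range_succ, sum_range_succ, sum_range_one]
      simp only [coeff_add, coeff_C_mul, coeff_X, coeff_X_pow, coeff_C]
      norm_num
  have c3 : SB (C (pX p) : A) 0 (p.length - 1) (sab p) := SB_C_pX (by omega)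
  have c4 := c2.mul c3
  have c5 := (c1.mono le_rfl (Nat.zero_le (2 * k + 2 * k)) le_rfl).sub
    (c4.mono (N' := 0) (k' := 2 * k + 2 * k) (by omega) (by omega) le_rfl)
  have c6 := (c5.shift (4 * Mc)).int (16 * tn * td * 2 ^ (4 * bc - (bL + bP)))
  have e : zE tn td bc bL bP Mc L0 L1 L2 G0 (pX p) = ((16 * tn * td * 2 ^ (4 * bc - (bL + bP)) : ℤ) : A) *
      (X ^ (4 * Mc) * (C (C (G0 * 2 ^ bP)) - C (C L0 + C L1 * X + C L2 * X ^ 2) * C (pX p))) := by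
    have e0 : (C (C (G0 * 2 ^ bP) - (C L0 + C L1 * X + C L2 * X ^ 2) * pX p) : A) =
        C (C (G0 * 2 ^ bP)) - C (C L0 + C L1 * X + C L2 * X ^ 2) * C (pX p) := by
      rw [C_sub]
      congr 1
      exact C_mul
    rw [zE, e0]
  rw [e]
  exact c6.mono (by omega) le_rfl le_rfl

/-- the value of `PE` -/
private theorem CheckE_val {w Nx bc bL bP Mc : ℕ} {tn td L0 L1 L2 G0 : ℤ} {kv : KV} {e o : AV} {p : List ℤ}
    {κc fe fo : A} (hkv : kv.Ok w Nx Mc κc) (hve : e.Ok w Nx Mc fe) (hvo : o.Ok w Nx Mc fo) :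
    Vl w Nx (PE tn td bc bL bP Mc L0 L1 L2 G0 fe fo κc (pX p)).1
        (pEV w Nx bc bL bP Mc tn td L0 L1 L2 G0 kv e o p).1 ∧
      Vl w Nx (PE tn td bc bL bP Mc L0 L1 L2 G0 fe fo κc (pX p)).2
        (pEV w Nx bc bL bP Mc tn td L0 L1 L2 G0 kv e o p).2 := by
  have hD : ∀ f : A, D Mc (-f) = -D Mc f := by
    intro f
    simp only [D, map_neg]
    ring
  have e1 : D2 Mc (fe, fo) = (-D Mc fo, D Mc fe) := rfl
  have e2 : D2 Mc (D2 Mc (fe, fo)) = (-D Mc (D Mc fe), -D Mc (D Mc fo)) := by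
    simp only [D2, hD]
  have e3 : D2 Mc (D2 Mc (D2 Mc (fe, fo))) = (D Mc (D Mc (D Mc fo)), -D Mc (D Mc (D Mc fe))) := by
    simp only [D2, hD, neg_neg]
  have hq : ev (2 ^ w) ((2 ^ w) ^ Nx) (((2 ^ bc : ℤ) : A) * X ^ Mc) =
      2 ^ bc * ((pw (pw (2 ^ w) Nx) Mc : ℕ) : ℤ) := by
    rw [map_mul, map_intCast, map_pow, ev_X, pw_eq, pw_eq]
    push_cast
    rfl
  have hz : ev (2 ^ w) ((2 ^ w) ^ Nx) (zE tn td bc bL bP Mc L0 L1 L2 G0 (pX p)) =
      16 * tn * td * 2 ^ (4 * bc - (bL + bP)) * (((pw (pw (2 ^ w) Nx) (4 * Mc) : ℕ) : ℤ) *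
        (G0 * 2 ^ bP - (L0 + L1 * 2 ^ w + L2 * (2 ^ w * 2 ^ w)) * horZ (2 ^ w) p)) := by
    have hX : evX (2 ^ w) X = 2 ^ w := by simp [evX]
    have hC : ∀ z : ℤ, evX (2 ^ w) (C z) = z := fun z => by simp [evX]
    have hh : evX (2 ^ w) (pX p) = horZ (2 ^ w) p := by
      rw [evX_pX]
      push_cast
      rfl
    have h3 : evX (2 ^ w) (C (G0 * 2 ^ bP) - (C L0 + C L1 * X + C L2 * X ^ 2) * pX p) =
        G0 * 2 ^ bP - (L0 + L1 * 2 ^ w + L2 * (2 ^ w * 2 ^ w)) * horZ (2 ^ w) p := by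
      rw [map_sub, hC]
      simp only [map_add, map_mul, map_pow, hX, hC, hh]
      ring
    rw [zE, map_mul, map_intCast, map_mul, map_pow, ev_X, ev_C, h3, pw_eq, pw_eq]
    push_cast
    rfl
  have hm := cE_map (ev (2 ^ w) ((2 ^ w) ^ Nx)) tn td (((2 ^ bc : ℤ) : A) * X ^ Mc) (fe, fo)
    (D2 Mc (fe, fo)) (D2 Mc (D2 Mc (fe, fo))) (D2 Mc (D2 Mc (D2 Mc (fe, fo)))) κc (D Mc κc) (D Mc (D Mc κc))
    (zE tn td bc bL bP Mc L0 L1 L2 G0 (pX p))
  have v0 : ∀ {f : A} {V : ℤ}, Vl w Nx f V → ev (2 ^ w) ((2 ^ w) ^ Nx) f = V := fun h => h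
  rw [e3, e2, e1] at hm
  simp only [map_neg] at hm
  rw [hq, hz, v0 hve.v0, v0 hvo.v0, v0 hve.v1, v0 hvo.v1, v0 hve.v2, v0 hvo.v2, v0 hve.v3, v0 hvo.v3, v0 hkv.v0,
    v0 hkv.v1, v0 hkv.v2, ← cEZ_eq, Prod.mk.injEq] at hm
  unfold Vl PE pEV
  rw [e3, e2, e1]
  exact hm

theorem chkE_sound {w Nx k bc bL bP Mc BKc Ba : ℕ} {tn td L0 L1 L2 G0 : ℤ} {kv : KV} {e o : AV} {p : List ℤ}
    {x : XNum ℚ} {κc fe fo : A} (hk : SB κc (2 * Mc) k BKc) (he : SB fe (2 * Mc) k Ba)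
    (ho : SB fo (2 * Mc) k Ba) (hkv : kv.Ok w Nx Mc κc) (hve : e.Ok w Nx Mc fe) (hvo : o.Ok w Nx Mc fo)
    (h : chkE w Nx k bc bL bP Mc BKc Ba tn td L0 L1 L2 G0 kv e o p x = true) :
    (l1 (PE tn td bc bL bP Mc L0 L1 L2 G0 fe fo κc (pX p)).1 +
      l1 (PE tn td bc bL bP Mc L0 L1 L2 G0 fe fo κc (pX p)).2 : ℚ) ≤
      16 * tn * td * 2 ^ (4 * bc) * (G0 / 2 ^ bL - x.mg) := by
  unfold chkE at h
  simp only [Bool.and_eq_true, decide_eq_true_eq] at h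
  obtain ⟨⟨⟨⟨⟨⟨⟨⟨⟨⟨⟨hp, h3⟩, hk2⟩, h0⟩, hk0⟩, h1⟩, h2⟩, hk1⟩, hB⟩, htn⟩, htd⟩, hfin⟩ := h
  have hM : Mc ≤ 2 * Mc := by omega
  -- exact norms
  have ee0 := l1_of_sz0 he h0 hve.v0
  have eo0 := l1_of_sz0 ho h0 hvo.v0
  have ee1 := l1_of_sz0 (he.D hM) h1 hve.v1
  have eo1 := l1_of_sz0 (ho.D hM) h1 hvo.v1
  have ee2 := l1_of_sz0 ((he.D hM).D hM) h2 hve.v2
  have eo2 := l1_of_sz0 ((ho.D hM).D hM) h2 hvo.v2
  have ee3 := l1_of_sz0 (((he.D hM).D hM).D hM) h3 hve.v3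
  have eo3 := l1_of_sz0 (((ho.D hM).D hM).D hM) h3 hvo.v3
  have ek0 := l1_of_sz0 hk hk0 hkv.v0
  have ek1 := l1_of_sz0 (hk.D hM) hk1 hkv.v1
  have ek2 := l1_of_sz0 ((hk.D hM).D hM) hk2 hkv.v2
  -- sizes of the pairs
  have hD : ∀ f : A, D Mc (-f) = -D Mc f := by
    intro f
    simp only [D, map_neg]
    ring
  have a0 : CheckE_SB (fe, fo) (2 * Mc) k (l1 fe + l1 fo) := CheckE_mk he.exact ho.exact
  have a1 : CheckE_SB (D2 Mc (fe, fo)) (2 * Mc) k (l1 (D Mc fe) + l1 (D Mc fo)) := by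
    have t := CheckE_mk (ho.D hM).exact.neg (he.D hM).exact
    rw [add_comm] at t
    exact t
  have a2 : CheckE_SB (D2 Mc (D2 Mc (fe, fo))) (2 * Mc) k (l1 (D Mc (D Mc fe)) + l1 (D Mc (D Mc fo))) := by
    have t := CheckE_mk ((he.D hM).D hM).exact.neg ((ho.D hM).D hM).exact.neg
    have e2 : D2 Mc (D2 Mc (fe, fo)) = (-D Mc (D Mc fe), -D Mc (D Mc fo)) := by
      simp only [D2, hD]
    rw [e2]
    exact t
  have a3 : CheckE_SB (D2 Mc (D2 Mc (D2 Mc (fe, fo)))) (2 * Mc) k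
      (l1 (D Mc (D Mc (D Mc fe))) + l1 (D Mc (D Mc (D Mc fo)))) := by
    have t := CheckE_mk (((ho.D hM).D hM).D hM).exact (((he.D hM).D hM).D hM).exact.neg
    have e2 : D2 Mc (D2 Mc (D2 Mc (fe, fo))) = (D Mc (D Mc (D Mc fo)), -D Mc (D Mc (D Mc fe))) := by
      simp only [D2, hD, neg_neg]
    rw [e2]
    rw [add_comm] at t
    exact t
  have hq : SB (((2 ^ bc : ℤ) : A) * X ^ Mc) Mc 0 (2 ^ bc) := by
    have t := ((SB.one.shift Mc).int (2 ^ bc))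
    rw [mul_one] at t
    refine t.mono (by omega) le_rfl (le_of_eq ?_)
    rw [Int.natAbs_pow]
    simp
  have hz := CheckE_zE (tn := tn) (td := td) (bc := bc) (bL := bL) (bP := bP) (Mc := Mc) (L0 := L0) (L1 := L1)
    (L2 := L2) (G0 := G0) hp
  have hPE := CheckE_cE (tn := tn) (td := td) hq a0 a1 a2 a3 hk.exact (hk.D hM).exact ((hk.D hM).D hM).exact hz
  rw [ee0, eo0, ee1, eo1, ee2, eo2, ee3, eo3, ek0, ek1, ek2] at hPE
  -- the value
  have hV := CheckE_val (w := w) (Nx := Nx) (bc := bc) (bL := bL) (bP := bP) (Mc := Mc) (tn := tn) (td := td)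
    (L0 := L0) (L1 := L1) (L2 := L2) (G0 := G0) (p := p) hkv hve hvo
  obtain ⟨q1, q2, q3⟩ := hPE
  have r1 := l1_of_sz0 (q1.mono le_rfl le_rfl ((Nat.le_add_right _ _).trans q3)) hB hV.1
  have r2 := l1_of_sz0 (q2.mono le_rfl le_rfl ((Nat.le_add_left _ _).trans q3)) hB hV.2
  change l1 (PE tn td bc bL bP Mc L0 L1 L2 G0 fe fo κc (pX p)).1 = nn w Nx (8 * Mc) _ at r1
  change l1 (PE tn td bc bL bP Mc L0 L1 L2 G0 fe fo κc (pX p)).2 = nn w Nx (8 * Mc) _ at r2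
  rw [← r1, ← r2] at hfin
  generalize l1 (PE tn td bc bL bP Mc L0 L1 L2 G0 fe fo κc (pX p)).1 = s1 at hfin ⊢
  generalize l1 (PE tn td bc bL bP Mc L0 L1 L2 G0 fe fo κc (pX p)).2 = s2 at hfin ⊢
  have hd : (0 : ℚ) < x.mg.den := by exact_mod_cast x.mg.den_pos
  have hn : (x.mg.num : ℚ) = x.mg * x.mg.den := (Rat.mul_den_eq_num x.mg).symm
  have h2L : (0 : ℚ) < 2 ^ bL := by positivity
  have hfin' : ((s1 : ℚ) + s2) * 2 ^ bL * x.mg.den ≤
      16 * tn * td * 2 ^ (4 * bc) * (G0 * x.mg.den - x.mg.num * 2 ^ bL) := by exact_mod_cast hfin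
  rw [hn] at hfin'
  have h4 : ((s1 : ℚ) + s2) * (2 ^ bL * x.mg.den) ≤
      16 * tn * td * 2 ^ (4 * bc) * (G0 / 2 ^ bL - x.mg) * (2 ^ bL * x.mg.den) := by
    calc ((s1 : ℚ) + s2) * (2 ^ bL * x.mg.den) = ((s1 : ℚ) + s2) * 2 ^ bL * x.mg.den := by ring
      _ ≤ 16 * tn * td * 2 ^ (4 * bc) * (G0 * x.mg.den - x.mg * x.mg.den * 2 ^ bL) := hfin'
      _ = 16 * tn * td * 2 ^ (4 * bc) * (G0 / 2 ^ bL - x.mg) * (2 ^ bL * x.mg.den) := by
        field_simp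
  exact le_of_mul_le_mul_right h4 (mul_pos h2L hd)

end Pool.Agent.EM.Ck
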