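import Pool.Agent.EM.Ck.CheckC

/-!
# EM checker, CK-15: norms of `K`, `K - Kc`, `Kc`, `a`
-/

set_option autoImplicit false

open Polynomial Finset

namespace Pool.Agent.EM.Ck

/-- comparison of the norms with weights `1, |m|, m²` -/
def cmp3 (w Nx N M : ℕ) (V : ℤ) (q0 q1 q2 : ℚ) (s : ℕ) : Bool :=
  let Z := zabK w Nx N V
  let m := nDK (2 ^ w) Nx M Z
  leQ (n0 (2 ^ w) Z) q0 s && leQ m.1 q1 s && leQ m.2.1 q2 s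

theorem cmp3_sound {w Nx N M k B s : ℕ} {f : A} {V : ℤ} {q0 q1 q2 : ℚ} (h : SB f N k B)
    (hs : sz w Nx N k B = true) (hV : Vl w Nx f V) (hM : M ≤ N) (hc : cmp3 w Nx N M V q0 q1 q2 s = true) :
    (l1 f : ℚ) ≤ q0 * 2 ^ s ∧ (l1 (D M f) : ℚ) ≤ q1 * 2 ^ s ∧ (l1 (D M (D M f)) : ℚ) ≤ q2 * 2 ^ s := by
  obtain ⟨h0, h1, h2, _, _⟩ := l1_of_sz h hs hV hM
  simp only [cmp3, Bool.and_eq_true] at hc
  obtain ⟨⟨c0, c1⟩, c2⟩ := hc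
  have e0 := le_of_leQ c0
  have e1 := le_of_leQ c1
  have e2 := le_of_leQ c2
  rw [← h0] at e0
  rw [← h1] at e1
  rw [← h2] at e2
  exact ⟨by exact_mod_cast e0, by exact_mod_cast e1, by exact_mod_cast e2⟩

/-- the curvature -/
def chkK (w Nx k bK MK BK : ℕ) (kv : KV) (x : XNum ℚ) : Bool :=
  sz w Nx (2 * MK) k BK && cmp4 w Nx (2 * MK) MK kv.v0 x.k0 x.k1 x.k2 x.kx bK

theorem chkK_sound {w Nx k bK MK BK : ℕ} {kv : KV} {x : XNum ℚ} {κ : A} (hk : SB κ (2 * MK) k BK)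
    (hkv : kv.Ok w Nx MK κ) (h : chkK w Nx k bK MK BK kv x = true) :
    (l1 κ : ℚ) ≤ x.k0 * 2 ^ bK ∧ (l1 (D MK κ) : ℚ) ≤ x.k1 * 2 ^ bK ∧
      (l1 (D MK (D MK κ)) : ℚ) ≤ x.k2 * 2 ^ bK ∧ (l1 (dx κ) : ℚ) ≤ x.kx * 2 ^ bK := by
  simp only [chkK, Bool.and_eq_true] at h
  exact cmp4_sound hk h.1 hkv.v0 (by omega) h.2

/-- `K - Kc`; `Vc` is the value of `kc` with the parameters `w, Nx` -/
def chkc (w Nx k bK MK BK bc Mc BKc : ℕ) (kv : KV) (Vc : ℤ) (x : XNum ℚ) : Bool :=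
  decide (Mc ≤ MK) && sz w Nx (2 * MK) k (BK + 2 ^ (bK - bc) * BKc) &&
  cmp3 w Nx (2 * MK) MK (kv.v0 - 2 ^ (bK - bc) * (pw (pw (2 ^ w) Nx) (MK - Mc) * Vc)) x.ec0 x.ec1 x.ec2 bK

theorem chkc_sound {w Nx k bK MK BK bc Mc BKc : ℕ} {kv : KV} {Vc : ℤ} {x : XNum ℚ} {κ κc : A}
    (hk : SB κ (2 * MK) k BK) (hkv : kv.Ok w Nx MK κ) (hkc : SB κc (2 * Mc) k BKc) (hVc : Vl w Nx κc Vc)
    (h : chkc w Nx k bK MK BK bc Mc BKc kv Vc x = true) :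
    (l1 (κ - ((2 ^ (bK - bc) : ℤ) : A) * (X ^ (MK - Mc) * κc)) : ℚ) ≤ x.ec0 * 2 ^ bK ∧
      (l1 (D MK (κ - ((2 ^ (bK - bc) : ℤ) : A) * (X ^ (MK - Mc) * κc))) : ℚ) ≤ x.ec1 * 2 ^ bK ∧
      (l1 (D MK (D MK (κ - ((2 ^ (bK - bc) : ℤ) : A) * (X ^ (MK - Mc) * κc)))) : ℚ) ≤ x.ec2 * 2 ^ bK := by
  simp only [chkc, Bool.and_eq_true, decide_eq_true_eq] at h
  obtain ⟨⟨h1, h2⟩, h3⟩ := h
  have s1 := ((hkc.shift (MK - Mc)).int (2 ^ (bK - bc))).mono (N' := 2 * MK) (k' := k)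
    (B' := 2 ^ (bK - bc) * BKc) (by omega) le_rfl (by
      rw [Int.natAbs_pow]
      exact le_of_eq rfl)
  exact cmp3_sound (hk.sub s1) h2 (hkv.v0.sub ((hVc.shift (MK - Mc)).int (2 ^ (bK - bc)))) (by omega) h3

/-- `Kc` -/
def chkKc (w Nx k bc Mc BKc : ℕ) (kv : KV) (x : XNum ℚ) : Bool :=
  sz w Nx (2 * Mc) k BKc && cmp3 w Nx (2 * Mc) Mc kv.v0 x.kc0 x.kc1 x.kc2 bc

theorem chkKc_sound {w Nx k bc Mc BKc : ℕ} {kv : KV} {x : XNum ℚ} {κc : A} (hk : SB κc (2 * Mc) k BKc)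
    (hkv : kv.Ok w Nx Mc κc) (h : chkKc w Nx k bc Mc BKc kv x = true) :
    (l1 κc : ℚ) ≤ x.kc0 * 2 ^ bc ∧ (l1 (D Mc κc) : ℚ) ≤ x.kc1 * 2 ^ bc ∧
      (l1 (D Mc (D Mc κc)) : ℚ) ≤ x.kc2 * 2 ^ bc := by
  simp only [chkKc, Bool.and_eq_true] at h
  exact cmp3_sound hk h.1 hkv.v0 (by omega) h.2

/-- integer values of `f, D f, D D f, D D D f` -/
structure AV where
  (v0 v1 v2 v3 : ℤ)

structure AV.Ok (w Nx M : ℕ) (f : A) (c : AV) : Prop where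
  v0 : Vl w Nx f c.v0
  v1 : Vl w Nx (D M f) c.v1
  v2 : Vl w Nx (D M (D M f)) c.v2
  v3 : Vl w Nx (D M (D M (D M f))) c.v3

/-- the certificate function `a` -/
def chka (w Nx k bc Mc Ba : ℕ) (e o : ℤ) (x : XNum ℚ) : Bool :=
  let Ze := zabK w Nx (2 * Mc) e
  let Zo := zabK w Nx (2 * Mc) o
  let me := nDK (2 ^ w) Nx Mc Ze
  let mo := nDK (2 ^ w) Nx Mc Zo
  sz w Nx (2 * Mc) k Ba && leQ ((n0 (2 ^ w) Ze : ℤ) + n0 (2 ^ w) Zo) x.A0 bc && leQ (me.1 + mo.1) x.A1 bc &&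
    leQ (me.2.1 + mo.2.1) x.A2 bc && leQ (me.2.2 + mo.2.2) x.A3 bc

theorem chka_sound {w Nx k bc Mc Ba : ℕ} {e o : ℤ} {x : XNum ℚ} {fe fo : A} (he : SB fe (2 * Mc) k Ba)
    (ho : SB fo (2 * Mc) k Ba) (hve : Vl w Nx fe e) (hvo : Vl w Nx fo o)
    (h : chka w Nx k bc Mc Ba e o x = true) :
    (l1 fe + l1 fo : ℚ) ≤ x.A0 * 2 ^ bc ∧ (l1 (D Mc fe) + l1 (D Mc fo) : ℚ) ≤ x.A1 * 2 ^ bc ∧
      (l1 (D Mc (D Mc fe)) + l1 (D Mc (D Mc fo)) : ℚ) ≤ x.A2 * 2 ^ bc ∧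
      (l1 (D Mc (D Mc (D Mc fe))) + l1 (D Mc (D Mc (D Mc fo))) : ℚ) ≤ x.A3 * 2 ^ bc := by
  simp only [chka, Bool.and_eq_true] at h
  obtain ⟨⟨⟨⟨h1, c0⟩, c1⟩, c2⟩, c3⟩ := h
  obtain ⟨a0, a1, a2, a3, _⟩ := l1_of_sz (M := Mc) he h1 hve (by omega)
  obtain ⟨b0, b1, b2, b3, _⟩ := l1_of_sz (M := Mc) ho h1 hvo (by omega)
  have e0 := le_of_leQ c0
  have e1 := le_of_leQ c1
  have e2 := le_of_leQ c2
  have e3 := le_of_leQ c3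
  rw [← a0, ← b0] at e0
  rw [← a1, ← b1] at e1
  rw [← a2, ← b2] at e2
  rw [← a3, ← b3] at e3
  push_cast at e0 e1 e2 e3
  exact ⟨e0, e1, e2, e3⟩

end Pool.Agent.EM.Ck
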