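import Mathlib
import Pool.Agent.EM.XFacts

/-!
# EM checker: definitions

Bivariate integer polynomials (inner variable `x`, outer variable `ζ = exp (i θ)`), their values as functions of
`(θ, x)`, their integer values at `x = W`, `ζ = Y`, and the `l¹` norm.
-/

set_option autoImplicit false

open scoped Real ContDiff ComplexConjugate
open Polynomial

namespace Pool.Agent.EM.Ck

open Pool.Agent.helper19.EL

/-- bivariate integer polynomials: the inner variable is `x`, the outer variable is `ζ` -/
abbrev A := Polynomial (Polynomial ℤ)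

/-- the coefficient of `x^i ζ^n` -/
noncomputable def cf (f : A) (n i : ℕ) : ℤ := (f.coeff n).coeff i

/-- the sum of the absolute values of the coefficients -/
noncomputable def l1 (f : A) : ℕ := f.sum fun _ p => p.sum fun _ a => a.natAbs

/-- multiplication of the coefficient of `ζ^n` by `n - M` -/
noncomputable def D (M : ℕ) (f : A) : A := X * derivative f - (M : A) * f

/-- derivative with respect to the inner variable `x` -/
noncomputable def dx (f : A) : A := f.sum fun n p => monomial n (derivative p)

/-- degrees at most `N` in `ζ`, at most `k` in `x`, and `l¹` norm at most `B` -/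
def SB (f : A) (N k B : ℕ) : Prop := (∀ n i, cf f n i ≠ 0 → n ≤ N ∧ i ≤ k) ∧ l1 f ≤ B

/-- Horner -/
def hor {R : Type*} [Semiring R] (y : R) : List R → R
  | [] => 0
  | a :: l => a + y * hor y l

/-- the polynomial with given coefficients of `1, ζ, ζ², ...` -/
noncomputable def mkA (L : List ℤ[X]) : A := hor X (L.map C)

/-- integer value at `x = W` -/
noncomputable def evX (W : ℕ) : ℤ[X] →+* ℤ := evalRingHom (W : ℤ)

/-- integer value at `x = W`, `ζ = Y` -/
noncomputable def ev (W Y : ℕ) : A →+* ℤ := (evalRingHom (Y : ℤ)).comp (mapRingHom (evX W))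

/-- real value at `x` -/
noncomputable def anX (x : ℝ) : ℤ[X] →+* ℂ := eval₂RingHom (Int.castRingHom ℂ) (x : ℂ)

/-- complex value at `x`, `ζ = exp (i θ)` -/
noncomputable def an (θ x : ℝ) : A →+* ℂ :=
  (evalRingHom (Complex.exp (θ * Complex.I))).comp (mapRingHom (anX x))

/-- the trigonometric polynomial with centre `M`: `∑ f_(n,i) x^i exp (i (n - M) θ)` -/
noncomputable def fn (M : ℕ) (f : A) (θ x : ℝ) : ℂ :=
  Complex.exp (-(M : ℂ) * (θ * Complex.I)) * an θ x f

/-- weights `a, a + 1, a + 2, ...` -/
def wts {R : Type*} [Ring R] : ℤ → List R → List R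
  | _, [] => []
  | a, p :: l => (a : R) * p :: wts (a + 1) l

/-- the symmetric list with centre `l.length - 1` made of the list of coefficients of the modes `0, 1, 2, ...` -/
def symL {R : Type*} (l : List R) : List R := l.tail.reverse ++ l

/-- the antisymmetric list with centre `l.length - 1` (the first entry of `l` is ignored) -/
def asymL {R : Type*} [Ring R] (l : List R) : List R := (l.tail.map fun a => -a).reverse ++ 0 :: l.tail

/-- the real function `g` is given by `c` times a trigonometric polynomial -/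
def Rep (g : ℝ → ℝ → ℝ) (c : ℂ) (M : ℕ) (f : A) : Prop := ∀ θ x, (g θ x : ℂ) = c * fn M f θ x

/-- pairs `(f_e, f_o)` standing for `f_e + i f_o` -/
noncomputable def fn2 (M : ℕ) (F : A × A) (θ x : ℝ) : ℂ := fn M F.1 θ x + Complex.I * fn M F.2 θ x

def Rep2 (g : ℝ → ℝ → ℝ) (c : ℂ) (M : ℕ) (F : A × A) : Prop := ∀ θ x, (g θ x : ℂ) = c * fn2 M F θ x

/-- product of pairs -/
def mul2 {R : Type*} [Ring R] (F G : R × R) : R × R := (F.1 * G.1 - F.2 * G.2, F.1 * G.2 + F.2 * G.1)

/-- the pair of the derivative with respect to `θ` of `fn2 M F` -/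
noncomputable def D2 (M : ℕ) (F : A × A) : A × A := (-D M F.2, D M F.1)

/-- the explicit functions -/
noncomputable def fC (b M : ℕ) (f : A) (θ x : ℝ) : ℂ := Complex.I / 2 ^ b * fn M f θ x
noncomputable def fR (b M : ℕ) (f : A) (θ x : ℝ) : ℝ := (fn M f θ x).re / 2 ^ b
noncomputable def fa (b M : ℕ) (F : A × A) (θ x : ℝ) : ℝ := (fn2 M F θ x).re / 2 ^ b
noncomputable def fP (b : ℕ) (p : ℤ[X]) (x : ℝ) : ℝ := (anX x p).re / 2 ^ b

end Pool.Agent.EM.Ck
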