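import Pool.Agent.EM.Ck.Nrm

/-!
# EM checker, CK-13: kernel versions of the norm functions

Powers are computed by products (the kernel does not evaluate `Nat.pow` with very large results); the moments are computed
after reduction modulo `(Y-1)^4`.
-/

set_option autoImplicit false

open Polynomial Finset

namespace Pool.Agent.EM.Ck

/-- power: a shift if the base is a power of two (always the case in the checks) -/
def pw (W J : ℕ) : ℕ := if 2 ^ Nat.log2 W = W then Nat.shiftLeft 1 (Nat.log2 W * J) else W ^ J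

theorem pw_eq (W J : ℕ) : pw W J = W ^ J := by
  unfold pw
  split_ifs with h
  · have h1 : Nat.shiftLeft 1 (Nat.log2 W * J) = 1 * 2 ^ (Nat.log2 W * J) := Nat.shiftLeft_eq 1 _
    rw [h1, one_mul, pow_mul, h]
  · rfl

/-- `∑_(j<J) W^j` -/
def gsK (W J : ℕ) : ℕ := (pw W J - 1) / (W - 1)

theorem gsK_eq (W J : ℕ) : gsK W J = gs W J := by
  unfold gsK gs
  rw [pw_eq]

def zabK (w Nx N : ℕ) (V : ℤ) : ℕ :=
  let O := 2 ^ (w - 1) * gsK (2 ^ w) (Nx * (N + 1))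
  let U := (V + O).toNat
  let T := Nat.land U O
  let P := Nat.land U (T - T / 2 ^ (w - 1))
  (2 * (P : ℤ) - V).toNat

theorem zabK_eq (w Nx N : ℕ) (V : ℤ) : zabK w Nx N V = zab w Nx N V := by
  unfold zabK zab absV
  rw [gsK_eq]

theorem mom_mod (Y1 W1 Z : ℕ) : mom Y1 W1 (Z % (Y1 * Y1 * Y1 * Y1)) = mom Y1 W1 Z := by
  have e1 : Y1 * Y1 * Y1 * Y1 = Y1 * (Y1 * (Y1 * Y1)) := by ring
  have h1 : ∀ (a b z : ℕ), z % (a * b) / a = z / a % b := fun a b z => Nat.mod_mul_right_div_self z a b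
  have h2 : Z % (Y1 * (Y1 * (Y1 * Y1))) / Y1 = Z / Y1 % (Y1 * (Y1 * Y1)) := h1 _ _ _
  have h3 : Z / Y1 % (Y1 * (Y1 * Y1)) / Y1 = Z / Y1 / Y1 % (Y1 * Y1) := h1 _ _ _
  have h4 : Z / Y1 / Y1 % (Y1 * Y1) / Y1 = Z / Y1 / Y1 / Y1 % Y1 := h1 _ _ _
  unfold mom
  rw [e1, h2, h3, h4, Nat.mod_mul_right_mod, Nat.mod_mul_right_mod, Nat.mod_mul_right_mod, Nat.mod_mod]

def nDK (W Nx M Z : ℕ) : ℤ × ℤ × ℤ :=
  let Y := pw W Nx
  let Y1 := Y - 1
  let Y4 := Y1 * Y1 * Y1 * Y1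
  let YM := pw Y M
  let hi := mom Y1 (W - 1) (Z / YM % Y4)
  let lo := mom Y1 (W - 1) (Z % YM % Y4)
  ((hi.2.1 : ℤ) + M * lo.1 - lo.2.1,
    2 * (hi.2.2.1 : ℤ) + hi.2.1 + (M : ℤ) * M * lo.1 - 2 * M * lo.2.1 + (2 * lo.2.2.1 + lo.2.1),
    6 * (hi.2.2.2 : ℤ) + 6 * hi.2.2.1 + hi.2.1 + (M : ℤ) * M * M * lo.1 - 3 * (M * M) * lo.2.1 +
      3 * M * (2 * lo.2.2.1 + lo.2.1) - (6 * lo.2.2.2 + 6 * lo.2.2.1 + lo.2.1))

theorem nDK_eq (W Nx M Z : ℕ) : nDK W Nx M Z = nD W Nx M Z := by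
  unfold nDK nD
  simp only [pw_eq, mom_mod]

def nXK (W Nx Z : ℕ) : ℕ := Z % (pw W Nx - 1) / (W - 1) % (W - 1)

theorem nXK_eq (W Nx Z : ℕ) : nXK W Nx Z = nX W Nx Z := by
  unfold nXK nX
  rw [pw_eq]

/-! ## norms with a size check -/

/-- the size conditions for `n0` -/
def sz0 (w Nx k B : ℕ) : Bool := decide (2 ≤ w) && decide (k < Nx) && decide (B < 2 ^ (w - 1))

/-- the size conditions for all norms -/
def sz (w Nx N k B : ℕ) : Bool :=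
  decide (2 ≤ w) && decide (k < Nx) && decide ((k + 1) * ((N + 1) * (N + 1) * (N + 1)) * B < 2 ^ (w - 1))

/-- the value of `f` at `x = 2^w`, `ζ = (2^w)^Nx` is `V` -/
def Vl (w Nx : ℕ) (f : A) (V : ℤ) : Prop := ev (2 ^ w) ((2 ^ w) ^ Nx) f = V

theorem l1_of_sz0 {f : A} {N k B w Nx : ℕ} {V : ℤ} (h : SB f N k B) (hs : sz0 w Nx k B = true)
    (hV : Vl w Nx f V) : l1 f = n0 (2 ^ w) (zabK w Nx N V) := by
  unfold sz0 at hs
  simp only [Bool.and_eq_true, decide_eq_true_eq] at hs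
  rw [zabK_eq, ← hV]
  exact l1_eq_n0 h hs.1.2 hs.1.1 hs.2

theorem sz_sz0 {w Nx N k B : ℕ} (h : sz w Nx N k B = true) : sz0 w Nx k B = true := by
  unfold sz at h
  unfold sz0
  simp only [Bool.and_eq_true, decide_eq_true_eq] at h ⊢
  refine ⟨h.1, lt_of_le_of_lt ?_ h.2⟩
  calc B = 1 * 1 * B := by ring
    _ ≤ (k + 1) * ((N + 1) * (N + 1) * (N + 1)) * B := by
      apply Nat.mul_le_mul_right
      exact Nat.mul_le_mul (by omega) (Nat.succ_le_of_lt (by positivity))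

theorem l1_of_sz {f : A} {N k B w Nx M : ℕ} {V : ℤ} (h : SB f N k B) (hs : sz w Nx N k B = true)
    (hV : Vl w Nx f V) (hM : M ≤ N) :
    (l1 f : ℤ) = n0 (2 ^ w) (zabK w Nx N V) ∧ (l1 (D M f) : ℤ) = (nDK (2 ^ w) Nx M (zabK w Nx N V)).1 ∧
    (l1 (D M (D M f)) : ℤ) = (nDK (2 ^ w) Nx M (zabK w Nx N V)).2.1 ∧
    (l1 (D M (D M (D M f))) : ℤ) = (nDK (2 ^ w) Nx M (zabK w Nx N V)).2.2 ∧
    (l1 (dx f) : ℤ) = nXK (2 ^ w) Nx (zabK w Nx N V) := by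
  have h0 := sz_sz0 hs
  unfold sz at hs
  simp only [Bool.and_eq_true, decide_eq_true_eq] at hs
  obtain ⟨⟨h1, h2⟩, h3⟩ := hs
  have h5 : (k + 1) * B < 2 ^ (w - 1) := by
    refine lt_of_le_of_lt ?_ h3
    apply Nat.mul_le_mul_right
    exact Nat.le_mul_of_pos_right _ (by positivity)
  have h6 : (N + 1) ^ 3 * B < 2 ^ (w - 1) := by
    refine lt_of_le_of_lt ?_ h3
    apply Nat.mul_le_mul_right
    calc (N + 1) ^ 3 = 1 * ((N + 1) * (N + 1) * (N + 1)) := by ring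
      _ ≤ _ := Nat.mul_le_mul_right _ (by omega)
  have e := l1_D_eq_nD (M := M) h h2 h1 hM h6
  rw [Prod.ext_iff, Prod.ext_iff] at e
  rw [nDK_eq, nXK_eq]
  refine ⟨?_, ?_, ?_, ?_, ?_⟩
  · rw [l1_of_sz0 h h0 hV]
  · rw [zabK_eq, ← hV]
    exact e.1
  · rw [zabK_eq, ← hV]
    exact e.2.1
  · rw [zabK_eq, ← hV]
    exact e.2.2
  · rw [zabK_eq, ← hV]
    exact_mod_cast l1_dx_eq_nX h h2 h1 h5

/-- comparison of an integer with a rational number times `2^s` -/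
def leQ (n : ℤ) (q : ℚ) (s : ℕ) : Bool := decide (n * q.den ≤ q.num * 2 ^ s)

theorem le_of_leQ {n : ℤ} {q : ℚ} {s : ℕ} (h : leQ n q s = true) : (n : ℚ) ≤ q * 2 ^ s := by
  unfold leQ at h
  rw [decide_eq_true_eq] at h
  have h1 : (0 : ℚ) < q.den := by exact_mod_cast q.den_pos
  have h2 : (q.num : ℚ) = q * q.den := by
    exact (Rat.mul_den_eq_num q).symm
  have h3 : (n : ℚ) * q.den ≤ q.num * 2 ^ s := by exact_mod_cast h
  rw [h2] at h3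
  have h4 : (n : ℚ) * q.den ≤ q * 2 ^ s * q.den := by
    calc (n : ℚ) * q.den ≤ q * q.den * 2 ^ s := h3
      _ = q * 2 ^ s * q.den := by ring
  exact le_of_mul_le_mul_right h4 h1

end Pool.Agent.EM.Ck
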