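import Pool.Agent.EM.Ck.Defs

/-!
# EM checker, CK-1: the `l¹` norm of bivariate integer polynomials

Pure algebra (`cf f n i = (f.coeff n).coeff i`).  Hints: `l1_mul_le` by writing `f` as a sum of monomials
(`Polynomial.induction_on'`), first for `ℤ[X]`, then for `A`.  `l1_eq_sum`: the supports are inside the ranges.
-/

set_option autoImplicit false

open Polynomial Finset

namespace Pool.Agent.EM.Ck

section gen

variable {R : Type*} [Ring R] (N : R → ℕ)

/-- the norm of a polynomial from a norm of its coefficients -/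
noncomputable def L1g (f : R[X]) : ℕ := f.sum fun _ a => N a

variable {N}

theorem L1g_eq (h0 : N 0 = 0) {f : R[X]} {s : Finset ℕ} (hs : ∀ n, f.coeff n ≠ 0 → n ∈ s) :
    L1g N f = ∑ n ∈ s, N (f.coeff n) :=
  sum_eq_of_subset (fun _ a => N a) (fun _ => h0) (fun n hn => hs n (mem_support_iff.1 hn))

theorem L1g_zero : L1g N (0 : R[X]) = 0 := by
  unfold L1g; rw [sum_zero_index]

theorem L1g_monomial (h0 : N 0 = 0) (n : ℕ) (a : R) : L1g N (monomial n a) = N a := by
  unfold L1g; rw [sum_monomial_index _ _ h0]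

theorem L1g_add (h0 : N 0 = 0) (ha : ∀ a b, N (a + b) ≤ N a + N b) (f g : R[X]) :
    L1g N (f + g) ≤ L1g N f + L1g N g := by
  classical
  rw [L1g_eq h0 (f := f + g) (s := f.support ∪ g.support) (fun n hn => ?_),
    L1g_eq h0 (f := f) (s := f.support ∪ g.support)
      (fun n hn => mem_union_left _ (mem_support_iff.2 hn)),
    L1g_eq h0 (f := g) (s := f.support ∪ g.support)
      (fun n hn => mem_union_right _ (mem_support_iff.2 hn)), ← sum_add_distrib]
  · exact sum_le_sum fun n _ => by rw [coeff_add]; exact ha _ _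
  · by_contra hh
    rw [mem_union, mem_support_iff, mem_support_iff] at hh
    push Not at hh
    rw [coeff_add, hh.1, hh.2, add_zero] at hn
    exact hn rfl

theorem L1g_sum {ι : Type*} (h0 : N 0 = 0) (ha : ∀ a b, N (a + b) ≤ N a + N b) (s : Finset ι)
    (F : ι → R[X]) : L1g N (∑ i ∈ s, F i) ≤ ∑ i ∈ s, L1g N (F i) := by
  classical
  induction s using Finset.induction_on with
  | empty => rw [sum_empty, sum_empty, L1g_zero]
  | insert a s hs ih =>
    rw [sum_insert hs, sum_insert hs]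
    exact (L1g_add h0 ha _ _).trans (Nat.add_le_add_left ih _)

theorem L1g_mul (h0 : N 0 = 0) (ha : ∀ a b, N (a + b) ≤ N a + N b)
    (hm : ∀ a b, N (a * b) ≤ N a * N b) (f g : R[X]) : L1g N (f * g) ≤ L1g N f * L1g N g := by
  rw [mul_eq_sum_sum]
  refine (L1g_sum h0 ha _ _).trans ?_
  rw [L1g_eq h0 (f := f) (s := f.support) (fun n hn => mem_support_iff.2 hn), sum_mul]
  refine sum_le_sum fun i _ => ?_
  rw [sum_def]
  refine (L1g_sum h0 ha _ _).trans ?_
  rw [L1g_eq h0 (f := g) (s := g.support) (fun n hn => mem_support_iff.2 hn), mul_sum]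
  refine sum_le_sum fun j _ => ?_
  rw [L1g_monomial h0]
  exact hm _ _

end gen

theorem l1_def' (f : A) : l1 f = L1g (L1g Int.natAbs) f := rfl

private theorem z0 : Int.natAbs 0 = 0 := rfl
private theorem z1 : L1g Int.natAbs (0 : ℤ[X]) = 0 := L1g_zero
private theorem a0 : ∀ a b : ℤ, (a + b).natAbs ≤ a.natAbs + b.natAbs := Int.natAbs_add_le
private theorem a1 : ∀ a b : ℤ[X], L1g Int.natAbs (a + b) ≤ L1g Int.natAbs a + L1g Int.natAbs b :=
  L1g_add z0 a0
private theorem m0 : ∀ a b : ℤ, (a * b).natAbs ≤ a.natAbs * b.natAbs := fun a b =>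
  (Int.natAbs_mul a b).le
private theorem m1 : ∀ a b : ℤ[X], L1g Int.natAbs (a * b) ≤ L1g Int.natAbs a * L1g Int.natAbs b :=
  L1g_mul z0 a0 m0

/-- the `l¹` norm as a sum over any box which contains the support -/
theorem L1_box {f : A} {s t : Finset ℕ} (h : ∀ n i, cf f n i ≠ 0 → n ∈ s ∧ i ∈ t) :
    l1 f = ∑ n ∈ s, ∑ i ∈ t, (cf f n i).natAbs := by
  rw [l1_def', L1g_eq z1 (s := s)]
  · refine sum_congr rfl fun n _ => ?_
    rw [L1g_eq z0 (s := t)]
    · rfl
    · intro i hi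
      exact (h n i hi).2
  · intro n hn
    by_contra hh
    apply hn
    ext i
    rw [coeff_zero]
    by_contra h2
    exact hh (h n i h2).1

/-- a box which contains the support -/
theorem L1_ex (f : A) : ∃ K, ∀ L, K ≤ L → ∀ n i, cf f n i ≠ 0 → n ∈ range L ∧ i ∈ range L := by
  refine ⟨max (f.natDegree + 1) ((f.support.sup fun n => (f.coeff n).natDegree) + 1), fun L hL n i h => ?_⟩
  have h1 : f.coeff n ≠ 0 := by
    intro h2
    apply h
    unfold cf
    rw [h2, coeff_zero]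
  have h2 : n ≤ f.natDegree := le_natDegree_of_ne_zero h1
  have h3 : i ≤ (f.coeff n).natDegree := le_natDegree_of_ne_zero h
  have h4 : (f.coeff n).natDegree ≤ f.support.sup fun n => (f.coeff n).natDegree :=
    Finset.le_sup (f := fun n => (f.coeff n).natDegree) (mem_support_iff.2 h1)
  have h5 := le_max_left (f.natDegree + 1) ((f.support.sup fun n => (f.coeff n).natDegree) + 1)
  have h6 := le_max_right (f.natDegree + 1) ((f.support.sup fun n => (f.coeff n).natDegree) + 1)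
  rw [mem_range, mem_range]
  constructor <;> omega

theorem L1_cf_add (f g : A) (n i : ℕ) : cf (f + g) n i = cf f n i + cf g n i := by
  unfold cf; rw [coeff_add, coeff_add]

theorem L1_cf_sub (f g : A) (n i : ℕ) : cf (f - g) n i = cf f n i - cf g n i := by
  unfold cf; rw [coeff_sub, coeff_sub]

theorem L1_cf_neg (f : A) (n i : ℕ) : cf (-f) n i = -cf f n i := by
  unfold cf; rw [coeff_neg, coeff_neg]

theorem L1_cf_int (z : ℤ) (f : A) (n i : ℕ) : cf ((z : A) * f) n i = z * cf f n i := by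
  have h1 : (z : A) = C (C z) := by simp
  unfold cf
  rw [h1, coeff_C_mul, coeff_C_mul]

theorem L1_cf_shift (j : ℕ) (f : A) (n i : ℕ) : cf (X ^ j * f) (n + j) i = cf f n i := by
  unfold cf; rw [coeff_X_pow_mul]

theorem L1_cf_shift0 (j : ℕ) (f : A) {n : ℕ} (i : ℕ) (h : n < j) : cf (X ^ j * f) n i = 0 := by
  unfold cf
  rw [coeff_X_pow_mul', if_neg (by omega), coeff_zero]

theorem natAbs_cf_le (f : A) (n i : ℕ) : (cf f n i).natAbs ≤ l1 f := by
  obtain ⟨K, hK⟩ := L1_ex f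
  by_cases h : cf f n i = 0
  · rw [h]; exact Nat.zero_le _
  obtain ⟨h1, h2⟩ := hK K le_rfl n i h
  rw [L1_box (hK K le_rfl)]
  exact (single_le_sum (f := fun i => (cf f n i).natAbs) (fun _ _ => Nat.zero_le _) h2).trans
    (single_le_sum (f := fun n => ∑ i ∈ range K, (cf f n i).natAbs) (fun _ _ => Nat.zero_le _) h1)

theorem l1_neg (f : A) : l1 (-f) = l1 f := by
  obtain ⟨K, hK⟩ := L1_ex f
  rw [L1_box (hK K le_rfl), L1_box (f := -f) (s := range K) (t := range K)]
  · refine sum_congr rfl fun n _ => sum_congr rfl fun i _ => ?_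
    rw [L1_cf_neg, Int.natAbs_neg]
  · intro n i h
    rw [L1_cf_neg, neg_ne_zero] at h
    exact hK K le_rfl n i h

theorem l1_add_le (f g : A) : l1 (f + g) ≤ l1 f + l1 g := L1g_add z1 a1 f g

theorem l1_sub_le (f g : A) : l1 (f - g) ≤ l1 f + l1 g := by
  rw [sub_eq_add_neg, ← l1_neg g]
  exact l1_add_le _ _

theorem l1_mul_le (f g : A) : l1 (f * g) ≤ l1 f * l1 g := L1g_mul z1 a1 m1 f g

theorem l1_intCast_mul (z : ℤ) (f : A) : l1 ((z : A) * f) = z.natAbs * l1 f := by
  obtain ⟨K, hK⟩ := L1_ex f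
  rw [L1_box (hK K le_rfl), L1_box (f := (z : A) * f) (s := range K) (t := range K), mul_sum]
  · refine sum_congr rfl fun n _ => ?_
    rw [mul_sum]
    refine sum_congr rfl fun i _ => ?_
    rw [L1_cf_int, Int.natAbs_mul]
  · intro n i h
    rw [L1_cf_int] at h
    exact hK K le_rfl n i (right_ne_zero_of_mul h)

theorem l1_X_pow_mul (j : ℕ) (f : A) : l1 (X ^ j * f) = l1 f := by
  obtain ⟨K, hK⟩ := L1_ex f
  rw [L1_box (hK K le_rfl), L1_box (f := X ^ j * f) (s := (range K).map (addRightEmbedding j))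
    (t := range K)]
  · rw [sum_map]
    refine sum_congr rfl fun n _ => sum_congr rfl fun i _ => ?_
    rw [addRightEmbedding_apply, L1_cf_shift]
  · intro n i h
    by_cases hn : n < j
    · exact absurd (L1_cf_shift0 j f i hn) h
    · obtain ⟨m, rfl⟩ : ∃ m, n = m + j := ⟨n - j, by omega⟩
      rw [L1_cf_shift] at h
      obtain ⟨h1, h2⟩ := hK K le_rfl m i h
      exact ⟨mem_map.2 ⟨m, h1, rfl⟩, h2⟩

theorem L1_cf_C (p : ℤ[X]) (n i : ℕ) : cf (Polynomial.C p) n i = if n = 0 then p.coeff i else 0 := by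
  unfold cf
  rw [coeff_C]
  split_ifs
  · rfl
  · rw [coeff_zero]

theorem l1_one : l1 1 = 1 := by
  have h : (1 : A) = monomial 0 (monomial 0 1) := by simp
  rw [l1_def', h, L1g_monomial z1, L1g_monomial z0]
  rfl

theorem L1_cf_reflect (N : ℕ) (f : A) (n i : ℕ) : cf (reflect N f) n i = cf f (revAt N n) i := by
  unfold cf; rw [coeff_reflect]

theorem l1_reflect {f : A} {N : ℕ} (h : f.natDegree ≤ N) : l1 (reflect N f) = l1 f := by
  obtain ⟨K, hK⟩ := L1_ex f
  have h0 : ∀ n i, cf f n i ≠ 0 → n ∈ range (N + 1) ∧ i ∈ range K := by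
    intro n i h1
    refine ⟨?_, (hK K le_rfl n i h1).2⟩
    have h2 : f.coeff n ≠ 0 := by
      intro h2
      apply h1
      unfold cf
      rw [h2, coeff_zero]
    have h3 : n ≤ f.natDegree := le_natDegree_of_ne_zero h2
    rw [mem_range]; omega
  rw [L1_box h0, L1_box (f := reflect N f) (s := range (N + 1)) (t := range K)]
  · rw [← sum_range_reflect]
    refine sum_congr rfl fun n hn => sum_congr rfl fun i _ => ?_
    rw [mem_range] at hn
    rw [L1_cf_reflect, revAt_le (by omega), (by omega : N - (N + 1 - 1 - n) = n)]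
  · intro n i h1
    rw [L1_cf_reflect] at h1
    obtain ⟨h2, h3⟩ := h0 _ _ h1
    refine ⟨?_, h3⟩
    rw [mem_range] at h2 ⊢
    by_contra hh
    have h4 : revAt N n = n := revAt_eq_self_of_lt (by omega)
    rw [h4] at h2
    exact hh h2

theorem L1_coeff_D (M : ℕ) (f : A) (n : ℕ) :
    (D M f).coeff n = Polynomial.C ((n : ℤ) - M) * f.coeff n := by
  have h1 : (M : A) = C (C (M : ℤ)) := by simp
  unfold D
  rw [coeff_sub, h1, coeff_C_mul]
  rcases n with _ | n
  · rw [mul_comm X, coeff_mul_X_zero]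
    simp
  · rw [coeff_X_mul, coeff_derivative]
    have h2 : ((n : ℤ[X]) + 1) = C ((n : ℤ) + 1) := by simp
    rw [h2, mul_comm (f.coeff (n + 1)), ← sub_mul, ← C_sub]
    push_cast
    rfl

theorem cf_D (M : ℕ) (f : A) (n i : ℕ) : cf (D M f) n i = ((n : ℤ) - M) * cf f n i := by
  unfold cf
  rw [L1_coeff_D, coeff_C_mul]

theorem L1_coeff_dx (f : A) (n : ℕ) : (dx f).coeff n = derivative (f.coeff n) := by
  unfold dx
  rw [sum_def, finsetSum_coeff]
  simp only [coeff_monomial]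
  rw [Finset.sum_ite_eq' f.support n]
  split_ifs with h
  · rfl
  · rw [notMem_support_iff.1 h, derivative_zero]

theorem cf_dx (f : A) (n i : ℕ) : cf (dx f) n i = (i + 1 : ℤ) * cf f n (i + 1) := by
  unfold cf
  rw [L1_coeff_dx, coeff_derivative, mul_comm]

private theorem sb_box {f : A} {N k B : ℕ} (h : SB f N k B) :
    ∀ n i, cf f n i ≠ 0 → n ∈ range (N + 1) ∧ i ∈ range (k + 1) := by
  intro n i h1
  obtain ⟨h2, h3⟩ := h.1 n i h1
  rw [mem_range, mem_range]
  constructor <;> omega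

/-- the `l¹` norm as a sum -/
theorem l1_eq_sum {f : A} {N k B : ℕ} (h : SB f N k B) :
    l1 f = ∑ n ∈ range (N + 1), ∑ i ∈ range (k + 1), (cf f n i).natAbs := L1_box (sb_box h)

private theorem l1_scale {f g : A} {N k B : ℕ} (h : SB f N k B) (c : ℕ → ℤ)
    (hg : ∀ n i, cf g n i = c n * cf f n i) :
    (l1 g : ℤ) = ∑ n ∈ range (N + 1), |c n| * ∑ i ∈ range (k + 1), |cf f n i| := by
  rw [L1_box (f := g) (s := range (N + 1)) (t := range (k + 1))]
  · push_cast
    refine sum_congr rfl fun n _ => ?_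
    rw [mul_sum]
    refine sum_congr rfl fun i _ => ?_
    rw [hg, abs_mul]
  · intro n i h1
    rw [hg] at h1
    exact sb_box h n i (right_ne_zero_of_mul h1)

theorem l1_D_eq_sum {f : A} {N k B : ℕ} (h : SB f N k B) (M : ℕ) :
    (l1 (D M f) : ℤ) = ∑ n ∈ range (N + 1), |(n : ℤ) - M| * ∑ i ∈ range (k + 1), |cf f n i| :=
  l1_scale h (fun n => (n : ℤ) - M) (cf_D M f)

theorem l1_D2_eq_sum {f : A} {N k B : ℕ} (h : SB f N k B) (M : ℕ) :
    (l1 (D M (D M f)) : ℤ) = ∑ n ∈ range (N + 1), |(n : ℤ) - M| ^ 2 * ∑ i ∈ range (k + 1), |cf f n i| := by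
  rw [l1_scale h (fun n => ((n : ℤ) - M) ^ 2) (g := D M (D M f))]
  · refine sum_congr rfl fun n _ => ?_
    rw [abs_pow]
  · intro n i
    rw [cf_D, cf_D]; ring

theorem l1_D3_eq_sum {f : A} {N k B : ℕ} (h : SB f N k B) (M : ℕ) :
    (l1 (D M (D M (D M f))) : ℤ) =
      ∑ n ∈ range (N + 1), |(n : ℤ) - M| ^ 3 * ∑ i ∈ range (k + 1), |cf f n i| := by
  rw [l1_scale h (fun n => ((n : ℤ) - M) ^ 3) (g := D M (D M (D M f)))]
  · refine sum_congr rfl fun n _ => ?_
    rw [abs_pow]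
  · intro n i
    rw [cf_D, cf_D, cf_D]; ring

theorem l1_dx_eq_sum {f : A} {N k B : ℕ} (h : SB f N k B) :
    (l1 (dx f) : ℤ) = ∑ n ∈ range (N + 1), ∑ i ∈ range (k + 1), (i : ℤ) * |cf f n i| := by
  rw [L1_box (f := dx f) (s := range (N + 1)) (t := range k)]
  · push_cast
    refine sum_congr rfl fun n _ => ?_
    rw [sum_range_succ' (fun i => (i : ℤ) * |cf f n i|)]
    rw [Nat.cast_zero, zero_mul, add_zero]
    refine sum_congr rfl fun i _ => ?_
    rw [cf_dx, abs_mul, abs_of_nonneg (by positivity : (0 : ℤ) ≤ (i : ℤ) + 1)]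
    push_cast
    rfl
  · intro n i h1
    rw [cf_dx] at h1
    obtain ⟨h2, h3⟩ := h.1 _ _ (right_ne_zero_of_mul h1)
    rw [mem_range, mem_range]
    constructor <;> omega

theorem l1_dx_le {f : A} {N k B : ℕ} (h : SB f N k B) : l1 (dx f) ≤ k * l1 f := by
  have h1 := l1_dx_eq_sum h
  have h2 : (l1 f : ℤ) = ∑ n ∈ range (N + 1), ∑ i ∈ range (k + 1), |cf f n i| := by
    rw [l1_eq_sum h]; push_cast; rfl
  have h3 : (l1 (dx f) : ℤ) ≤ k * l1 f := by
    rw [h1, h2, mul_sum]
    refine sum_le_sum fun n _ => ?_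
    rw [mul_sum]
    refine sum_le_sum fun i hi => ?_
    rw [mem_range] at hi
    exact mul_le_mul_of_nonneg_right (by exact_mod_cast (by omega : i ≤ k)) (abs_nonneg _)
  exact_mod_cast h3

theorem SB.natDegree_le {f : A} {N k B : ℕ} (h : SB f N k B) : f.natDegree ≤ N := by
  rw [natDegree_le_iff_coeff_eq_zero]
  intro n hn
  ext i
  rw [coeff_zero]
  by_contra h1
  have := (h.1 n i h1).1
  omega

/-- the integer value as a sum -/
theorem ev_eq_sum {f : A} {N k B : ℕ} (h : SB f N k B) (W Y : ℕ) :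
    ev W Y f = ∑ n ∈ range (N + 1), ∑ i ∈ range (k + 1), cf f n i * (W : ℤ) ^ i * (Y : ℤ) ^ n := by
  have h1 : ev W Y f = eval (Y : ℤ) (f.map (evX W)) := rfl
  have hd := h.natDegree_le
  rw [h1, eval_map, eval₂_eq_sum_range' (evX W) (n := N + 1) (by omega)]
  refine sum_congr rfl fun n _ => ?_
  rw [← sum_mul]
  congr 1
  have h2 : evX W (f.coeff n) = eval (W : ℤ) (f.coeff n) := rfl
  have h3 : (f.coeff n).natDegree ≤ k := by
    rw [natDegree_le_iff_coeff_eq_zero]
    intro i hi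
    by_contra h4
    have := (h.1 n i h4).2
    omega
  rw [h2, eval_eq_sum_range' (n := k + 1) (by omega)]
  rfl

theorem SB.mono {f : A} {N k B N' k' B' : ℕ} (h : SB f N k B) (hN : N ≤ N') (hk : k ≤ k') (hB : B ≤ B') :
    SB f N' k' B' :=
  ⟨fun n i hn => ⟨(h.1 n i hn).1.trans hN, (h.1 n i hn).2.trans hk⟩, h.2.trans hB⟩

/-- replace the bound by the exact norm -/
theorem SB.exact {f : A} {N k B : ℕ} (h : SB f N k B) : SB f N k (l1 f) := ⟨h.1, le_rfl⟩

theorem SB.mul {f g : A} {N k B N' k' B' : ℕ} (h : SB f N k B) (h' : SB g N' k' B') :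
    SB (f * g) (N + N') (k + k') (B * B') := by
  refine ⟨fun n i hn => ?_, (l1_mul_le f g).trans (Nat.mul_le_mul h.2 h'.2)⟩
  unfold cf at hn
  rw [coeff_mul, finsetSum_coeff] at hn
  obtain ⟨⟨a, b⟩, hab, h1⟩ := Finset.exists_ne_zero_of_sum_ne_zero hn
  rw [coeff_mul] at h1
  obtain ⟨⟨c, d⟩, hcd, h2⟩ := Finset.exists_ne_zero_of_sum_ne_zero h1
  rw [HasAntidiagonal.mem_antidiagonal] at hab hcd
  obtain ⟨h3, h4⟩ := h.1 a c (left_ne_zero_of_mul h2)
  obtain ⟨h5, h6⟩ := h'.1 b d (right_ne_zero_of_mul h2)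
  simp only at hab hcd
  constructor <;> omega

theorem SB.add {f g : A} {N k B B' : ℕ} (h : SB f N k B) (h' : SB g N k B') :
    SB (f + g) N k (B + B') := by
  refine ⟨fun n i hn => ?_, (l1_add_le f g).trans (Nat.add_le_add h.2 h'.2)⟩
  rw [L1_cf_add] at hn
  by_cases h1 : cf f n i = 0
  · exact h'.1 n i (by rwa [h1, zero_add] at hn)
  · exact h.1 n i h1

theorem SB.neg {f : A} {N k B : ℕ} (h : SB f N k B) : SB (-f) N k B := by
  refine ⟨fun n i hn => ?_, by rw [l1_neg]; exact h.2⟩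
  rw [L1_cf_neg, neg_ne_zero] at hn
  exact h.1 n i hn

theorem SB.sub {f g : A} {N k B B' : ℕ} (h : SB f N k B) (h' : SB g N k B') :
    SB (f - g) N k (B + B') := by
  rw [sub_eq_add_neg]
  exact h.add h'.neg

theorem SB.int {f : A} {N k B : ℕ} (h : SB f N k B) (z : ℤ) : SB ((z : A) * f) N k (z.natAbs * B) := by
  refine ⟨fun n i hn => ?_, by rw [l1_intCast_mul]; exact Nat.mul_le_mul_left _ h.2⟩
  rw [L1_cf_int] at hn
  exact h.1 n i (right_ne_zero_of_mul hn)

theorem SB.shift {f : A} {N k B : ℕ} (h : SB f N k B) (j : ℕ) : SB (X ^ j * f) (N + j) k B := by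
  refine ⟨fun n i hn => ?_, by rw [l1_X_pow_mul]; exact h.2⟩
  by_cases hj : n < j
  · exact absurd (L1_cf_shift0 j f i hj) hn
  · obtain ⟨m, rfl⟩ : ∃ m, n = m + j := ⟨n - j, by omega⟩
    rw [L1_cf_shift] at hn
    obtain ⟨h1, h2⟩ := h.1 m i hn
    exact ⟨by omega, h2⟩

theorem SB.one : SB 1 0 0 1 := by
  refine ⟨fun n i hn => ?_, l1_one.le⟩
  have h : (1 : A) = Polynomial.C 1 := by simp
  rw [h, L1_cf_C] at hn
  split_ifs at hn with h1
  · rw [coeff_one] at hn
    split_ifs at hn with h2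
    · exact ⟨h1.le, h2.le⟩
    · exact absurd rfl hn
  · exact absurd rfl hn

/-- a polynomial in `x` only -/
theorem SB.C {p : ℤ[X]} {k B : ℕ} (hk : p.natDegree ≤ k)
    (hB : ∑ i ∈ range (k + 1), (p.coeff i).natAbs ≤ B) : SB (Polynomial.C p) 0 k B := by
  have h : ∀ n i, cf (Polynomial.C p) n i ≠ 0 → n ≤ 0 ∧ i ≤ k := by
    intro n i hn
    rw [L1_cf_C] at hn
    split_ifs at hn with h1
    · exact ⟨h1.le, (le_natDegree_of_ne_zero hn).trans hk⟩
    · exact absurd rfl hn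
  refine ⟨h, ?_⟩
  rw [L1_box (f := Polynomial.C p) (s := range 1) (t := range (k + 1)), sum_range_one]
  · refine le_trans (le_of_eq ?_) hB
    refine sum_congr rfl fun i _ => ?_
    rw [L1_cf_C, if_pos rfl]
  · intro n i hn
    obtain ⟨h1, h2⟩ := h n i hn
    rw [mem_range, mem_range]
    constructor <;> omega

theorem SB.D {f : A} {N k B : ℕ} (h : SB f N k B) {M : ℕ} (hM : M ≤ N) : SB (D M f) N k (N * B) := by
  refine ⟨fun n i hn => ?_, ?_⟩
  · rw [cf_D] at hn
    exact h.1 n i (right_ne_zero_of_mul hn)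
  · have h1 := l1_D_eq_sum h M
    have h2 : (l1 f : ℤ) = ∑ n ∈ range (N + 1), ∑ i ∈ range (k + 1), |cf f n i| := by
      rw [l1_eq_sum h]; push_cast; rfl
    have h3 : (l1 (Pool.Agent.EM.Ck.D M f) : ℤ) ≤ N * l1 f := by
      rw [h1, h2, mul_sum]
      refine sum_le_sum fun n hn => ?_
      rw [mem_range] at hn
      refine mul_le_mul_of_nonneg_right ?_ (sum_nonneg fun _ _ => abs_nonneg _)
      rw [abs_le]
      constructor <;> omega
    have h4 : l1 (Pool.Agent.EM.Ck.D M f) ≤ N * l1 f := by exact_mod_cast h3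
    exact h4.trans (Nat.mul_le_mul_left _ h.2)

theorem SB.dx {f : A} {N k B : ℕ} (h : SB f N k B) : SB (dx f) N k (k * B) := by
  refine ⟨fun n i hn => ?_, (l1_dx_le h).trans (Nat.mul_le_mul_left _ h.2)⟩
  rw [cf_dx] at hn
  obtain ⟨h1, h2⟩ := h.1 _ _ (right_ne_zero_of_mul hn)
  exact ⟨h1, by omega⟩

theorem SB.reflect {f : A} {N k B : ℕ} (h : SB f N k B) : SB (reflect N f) N k B := by
  refine ⟨fun n i hn => ?_, by rw [l1_reflect h.natDegree_le]; exact h.2⟩
  rw [L1_cf_reflect] at hn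
  obtain ⟨h1, h2⟩ := h.1 _ _ hn
  refine ⟨?_, h2⟩
  by_contra hh
  rw [revAt_eq_self_of_lt (by omega)] at h1
  exact hh h1

end Pool.Agent.EM.Ck
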