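import Pool.Agent.EM.Ck.Comb

/-!
# EM checker: the curves of neighbouring intervals agree at the common time

`E : List ℤ` (centre `ME`): the coefficients of the curve at the common time.  For `x0 = 1` or `x0 = -1` the kernel
compares the values `p(W)` with `E` modulo `W - x0`; both are small, so `p(x0)` is the entry of `E`.
-/

set_option autoImplicit false

open Polynomial
open scoped Real

namespace Pool.Agent.EM.Ck

/-- all entries are zero -/
def allZ : List ℤ → Bool
  | [] => true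
  | a :: l => decide (a = 0) && allZ l

/-- comparison modulo `m` of two lists, with the bound `B` of the second one -/
def matchZ (m : ℤ) (B : ℤ) : List ℤ → List ℤ → Bool
  | [], t => allZ t
  | _ :: _, [] => false
  | a :: s, b :: t => decide ((a - b) % m = 0) && decide (-B ≤ b) && decide (b ≤ B) && matchZ m B s t

/-- the check -/
def chkMatch (m : ℤ) (B : ℤ) (M ME : ℕ) (lv E : List ℤ) : Bool :=
  decide (M ≤ ME) && decide (ME - M ≤ E.length) && allZ (E.take (ME - M)) && matchZ m B lv (E.drop (ME - M))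

theorem allZ_hor {R : Type*} [CommRing R] (y : R) {l : List ℤ} (h : allZ l = true) :
    hor y (l.map fun z : ℤ => (z : R)) = 0 := by
  induction l with
  | nil => rfl
  | cons a l ih =>
    simp only [allZ, Bool.and_eq_true, decide_eq_true_eq] at h
    simp only [List.map_cons, hor, ih h.2, h.1]
    simp

/-- a value modulo `W - x0` -/
theorem eval_eq_of_mod {W x0 m b B B1 : ℤ} {p : ℤ[X]} (hm : m = W - x0) (h : (p.eval W - b) % m = 0)
    (hb1 : -B ≤ b) (hb2 : b ≤ B) (hp : |p.eval x0| ≤ B1) (hB : B1 + B < m) : p.eval x0 = b := by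
  have h1 : m ∣ p.eval W - b := Int.dvd_of_emod_eq_zero h
  have h2 : m ∣ p.eval W - p.eval x0 := hm ▸ sub_dvd_eval_sub W x0 p
  have h3 : m ∣ p.eval x0 - b := by
    have := dvd_sub h1 h2
    rwa [show p.eval W - b - (p.eval W - p.eval x0) = p.eval x0 - b by ring] at this
  obtain ⟨h4, h5⟩ := abs_le.1 hp
  by_contra hne
  have h6 : p.eval x0 - b ≠ 0 := sub_ne_zero.2 hne
  have h7 := Int.le_of_dvd (abs_pos.2 h6) ((dvd_abs m _).2 h3)
  have h8 : |p.eval x0 - b| ≤ B1 + B := abs_le.2 ⟨by linarith, by linarith⟩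
  linarith

theorem matchZ_hor {R : Type*} [CommRing R] (y : R) {W x0 m B B1 : ℤ} (hm : m = W - x0) (hB : B1 + B < m)
    {L : List ℤ[X]} {E : List ℤ} (hL : ∀ p ∈ L, |p.eval x0| ≤ B1)
    (h : matchZ m B (L.map fun p => p.eval W) E = true) :
    hor y (E.map fun z : ℤ => (z : R)) = hor y (L.map fun p => ((p.eval x0 : ℤ) : R)) := by
  induction L generalizing E with
  | nil =>
    rw [List.map_nil] at h
    have h1 : allZ E = true := by
      unfold matchZ at h
      exact h
    rw [allZ_hor y h1]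
    rfl
  | cons p L ih =>
    cases E with
    | nil => simp [matchZ] at h
    | cons b E =>
      simp only [List.map_cons, matchZ, Bool.and_eq_true, decide_eq_true_eq] at h
      obtain ⟨⟨⟨h1, h2⟩, h3⟩, h4⟩ := h
      have h5 := eval_eq_of_mod hm h1 h2 h3 (hL p (by simp)) hB
      simp only [List.map_cons, hor]
      rw [ih (fun q hq => hL q (by simp [hq])) h4, h5]

theorem an_mkA (θ x : ℝ) (L : List ℤ[X]) :
    an θ x (mkA L) = hor (Complex.exp (θ * Complex.I)) (L.map (anX x)) := by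
  have h1 : an θ x X = Complex.exp (θ * Complex.I) := by
    simp [an]
  rw [mkA, hor_map, h1, List.map_map]
  congr 1
  apply List.map_congr_left
  intro p _
  simp [an]

theorem anX_int (x0 : ℤ) (p : ℤ[X]) : anX (x0 : ℝ) p = ((p.eval x0 : ℤ) : ℂ) := by
  have h1 := eval₂_hom (p := p) (Int.castRingHom ℂ) x0
  have h2 : anX (x0 : ℝ) p = p.eval₂ (Int.castRingHom ℂ) (((x0 : ℝ) : ℂ)) := rfl
  have h3 : (((x0 : ℝ) : ℂ)) = (Int.castRingHom ℂ) x0 := by simp
  rw [h2, h3, h1]
  rfl

/-- **Matching.** -/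
theorem fC_match {W : ℕ} {x0 m B B1 : ℤ} {b M ME : ℕ} {L : List ℤ[X]} {lv E : List ℤ}
    (hm : m = W - x0) (hB : B1 + B < m) (hL : ∀ p ∈ L, |p.eval x0| ≤ B1)
    (hlv : lv = L.map (evX W)) (h : chkMatch m B M ME lv E = true) (θ : ℝ) :
    fC b M (mkA L) θ x0 = fC b ME (mkA (E.map C)) θ 0 := by
  unfold chkMatch at h
  simp only [Bool.and_eq_true, decide_eq_true_eq] at h
  obtain ⟨⟨⟨h1, h2⟩, h3⟩, h4⟩ := h
  have hlv2 : lv = L.map fun p => p.eval (W : ℤ) := by
    rw [hlv]
    rfl
  rw [hlv2] at h4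
  obtain ⟨z, hz⟩ : ∃ z : ℂ, z = Complex.exp (θ * Complex.I) := ⟨_, rfl⟩
  have e1 : hor z ((E.drop (ME - M)).map fun z : ℤ => (z : ℂ)) =
      hor z (L.map (anX x0)) := by
    rw [matchZ_hor z hm hB hL h4]
    congr 1
    apply List.map_congr_left
    intro p _
    exact (anX_int x0 p).symm
  have e2 : hor z (E.map fun z : ℤ => (z : ℂ)) = z ^ (ME - M) * hor z (L.map (anX x0)) := by
    conv_lhs => rw [← List.take_append_drop (ME - M) E]
    rw [List.map_append, hor_append, allZ_hor z h3, zero_add, e1, List.length_map,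
      List.length_take, min_eq_left h2]
  have e3 : (E.map C).map (anX 0) = E.map fun z : ℤ => (z : ℂ) := by
    rw [List.map_map]
    apply List.map_congr_left
    intro c _
    simp [anX]
  unfold fC fn
  rw [an_mkA, an_mkA, e3, ← hz, e2, hz, ← Complex.exp_nat_mul, ← mul_assoc (Complex.exp _)
    (Complex.exp _), ← Complex.exp_add]
  congr 3
  have h5 : ((ME - M : ℕ) : ℂ) = (ME : ℂ) - M := by
    rw [Nat.cast_sub h1]
  rw [h5]
  ring

/-- a bound of the value at `±1` -/
theorem eval_le_of_coeff {p : ℤ[X]} {nx c : ℕ} {x0 : ℤ} (hx0 : |x0| ≤ 1)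
    (hd : ∀ i, p.coeff i ≠ 0 → i < nx) (hc : ∀ i, (p.coeff i).natAbs ≤ c) :
    |p.eval x0| ≤ ((nx * c : ℕ) : ℤ) := by
  have h1 : p.eval x0 = ∑ i ∈ Finset.range nx, p.coeff i * x0 ^ i := by
    rw [eval_eq_sum, Polynomial.sum]
    refine Finset.sum_subset (fun i hi => ?_) fun i _ hi => ?_
    · exact Finset.mem_range.2 (hd i (mem_support_iff.1 hi))
    · rw [notMem_support_iff.1 hi, zero_mul]
  rw [h1]
  refine (Finset.abs_sum_le_sum_abs _ _).trans ?_
  calc ∑ i ∈ Finset.range nx, |p.coeff i * x0 ^ i| ≤ ∑ _i ∈ Finset.range nx, (c : ℤ) := by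
        refine Finset.sum_le_sum fun i _ => ?_
        rw [abs_mul, abs_pow]
        have h2 : |p.coeff i| ≤ (c : ℤ) := by
          rw [Int.abs_eq_natAbs]
          exact_mod_cast hc i
        have h3 : |x0| ^ i ≤ 1 := pow_le_one₀ (abs_nonneg _) hx0
        calc |p.coeff i| * |x0| ^ i ≤ |p.coeff i| * 1 :=
              mul_le_mul_of_nonneg_left h3 (abs_nonneg _)
          _ ≤ (c : ℤ) := by rw [mul_one]; exact h2
    _ = ((nx * c : ℕ) : ℤ) := by
        rw [Finset.sum_const, Finset.card_range, nsmul_eq_mul]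
        push_cast
        ring

/-- the check for `P` -/
def chkP (m : ℤ) (B : ℤ) (v Q : ℤ) : Bool :=
  decide ((v - Q) % m = 0) && decide (-B ≤ Q) && decide (Q ≤ B)

theorem fP_match {W : ℕ} {x0 m B B1 Q : ℤ} {b : ℕ} {p : ℤ[X]} (hm : m = W - x0) (hB : B1 + B < m)
    (hp : |p.eval x0| ≤ B1) (h : chkP m B (evX W p) Q = true) : fP b p x0 = Q / 2 ^ b := by
  unfold chkP at h
  simp only [Bool.and_eq_true, decide_eq_true_eq] at h
  obtain ⟨⟨h1, h2⟩, h3⟩ := h
  have h4 := eval_eq_of_mod hm (show (p.eval (W : ℤ) - Q) % m = 0 from h1) h2 h3 hp hB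
  unfold fP
  rw [anX_int, h4]
  simp

end Pool.Agent.EM.Ck
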