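import Pool.Agent.EM.Ck.Match
import Pool.Agent.EM.Ck.Dec
import Pool.Agent.EM.Ck.CheckC

/-!
# EM checker: matching of the decoded data with the curve at a common time
-/

set_option autoImplicit false

open Polynomial
open scoped Real

namespace Pool.Agent.EM.Ck

/-- the end point: `1` or `-1` -/
def xE (e : Bool) : ℤ := cond e 1 (-1)

/-- the modulus `2^w - xE e` -/
def mE (w : ℕ) (e : Bool) : ℕ := cond e (Nat.sub (2 ^ w) 1) (Nat.add (2 ^ w) 1)

theorem mE_eq (w : ℕ) (e : Bool) : ((mE w e : ℕ) : ℤ) = ((2 ^ w : ℕ) : ℤ) - xE e := by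
  cases e with
  | false =>
    show ((2 ^ w + 1 : ℕ) : ℤ) = ((2 ^ w : ℕ) : ℤ) - (-1)
    push_cast
    ring
  | true =>
    show ((2 ^ w - 1 : ℕ) : ℤ) = ((2 ^ w : ℕ) : ℤ) - 1
    rw [Nat.cast_sub Nat.one_le_two_pow]
    simp

theorem abs_xE (e : Bool) : |xE e| ≤ 1 := by
  cases e <;> decide

/-- the check for the curve -/
def chkMD (w nx S : ℕ) (e : Bool) (B : ℕ) (M ME : ℕ) (l : List (ℕ × ℕ)) (E : List ℤ) : Bool :=
  decide (0 < w) && decide (S ≤ w) && decide (0 < S) && decide (nx * 2 ^ (S - 1) + B < mE w e) &&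
  force (og w nx S) fun O => force (mE w e) fun m =>
    chkMatch (m : ℤ) (B : ℤ) M ME ((decN w nx S l).map fun z => Int.subNatNat z O) E

theorem fC_matchD {w nx S b B M ME : ℕ} {e : Bool} {l : List (ℕ × ℕ)} {E : List ℤ}
    (h : chkMD w nx S e B M ME l E = true) (θ : ℝ) :
    fC b M (mkA (decP w nx S l)) θ (xE e : ℤ) = fC b ME (mkA (E.map C)) θ 0 := by
  unfold chkMD at h
  rw [force_eq, force_eq] at h
  simp only [Bool.and_eq_true, decide_eq_true_eq] at h
  obtain ⟨⟨⟨⟨h1, h2⟩, h3⟩, h4⟩, h5⟩ := h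
  refine fC_match (W := 2 ^ w) (x0 := xE e) (B := (B : ℤ)) (B1 := ((nx * 2 ^ (S - 1) : ℕ) : ℤ))
    (mE_eq w e) (by exact_mod_cast h4) (fun p hp => ?_) ?_ h5 θ
  · exact eval_le_of_coeff (abs_xE e) (fun i hi => decP_deg hp hi)
      (fun i => decP_coeff_le h1 h2 h3 hp i)
  · rw [decN_ev h1 h2]
    apply List.map_congr_left
    intro z _
    exact Int.subNatNat_eq_coe

theorem eval_pX (x0 : ℤ) (p : List ℤ) : (pX p).eval x0 = horZ x0 p := by
  induction p with
  | nil => simp [pX, hor, horZ]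
  | cons a p ih =>
    have h1 : pX (a :: p) = C a + X * pX p := rfl
    rw [h1, eval_add, eval_mul, eval_C, eval_X, ih]
    rfl

/-- the value of `P` -/
theorem fP_matchD {b : ℕ} {x0 Q : ℤ} {p : List ℤ} (h : decide (horZ x0 p = Q) = true) :
    fP b (pX p) x0 = Q / 2 ^ b := by
  rw [decide_eq_true_eq] at h
  unfold fP
  rw [anX_int, eval_pX, h]
  simp

end Pool.Agent.EM.Ck
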