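import Pool.Agent.EM.Ck.L1
import Pool.Agent.EM.Ck.Abs
import Pool.Agent.EM.Ck.Chain

/-!
# EM checker, CK-4: exact `l¹` norms from one integer

`V = ev (2^w) ((2^w)^Nx) f = ∑_(n ≤ N) ∑_(i ≤ k) f_(n,i) W^i Y^n` with `k < Nx`: flatten (`j = n Nx + i`,
`J = Nx (N + 1)`, `d_j = f_(j / Nx, j % Nx)`), apply `absV_eq`, unflatten, then `n0_eq`, `nX_eq`, `nD_eq` (with `N + 1` for
`N`) and the formulas of CK-1.
-/

set_option autoImplicit false

open Polynomial Finset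

namespace Pool.Agent.EM.Ck

/-- the number with the absolute values of all coefficients -/
def zab (w Nx N : ℕ) (V : ℤ) : ℕ := absV w (Nx * (N + 1)) V

/-- flattening -/
theorem sum_flatten {R : Type*} [CommSemiring R] (N Nx : ℕ) (W : R) (a : ℕ → ℕ → R) :
    ∑ n ∈ range N, ∑ i ∈ range Nx, a n i * W ^ i * (W ^ Nx) ^ n =
      ∑ j ∈ range (Nx * N), a (j / Nx) (j % Nx) * W ^ j := by
  induction N with
  | zero => simp
  | succ N ih =>
    rw [sum_range_succ, ih, Nat.mul_succ, sum_range_add]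
    congr 1
    refine sum_congr rfl fun x hx => ?_
    have hx' : x < Nx := mem_range.1 hx
    have h0 : 0 < Nx := lt_of_le_of_lt (Nat.zero_le x) hx'
    rw [Nat.mul_add_div h0, Nat.mul_add_mod, Nat.div_eq_of_lt hx', Nat.mod_eq_of_lt hx', add_zero,
      pow_add, pow_mul, mul_comm ((W ^ Nx) ^ N) (W ^ x), mul_assoc]

private theorem nrm_cf_zero {f : A} {N k B : ℕ} (h : SB f N k B) (n : ℕ) {i : ℕ} (hi : k < i) :
    cf f n i = 0 := by
  by_contra hne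
  exact absurd (h.1 n i hne).2 (not_le.2 hi)

/-- extension of the inner range -/
private theorem nrm_ext {R : Type*} [AddCommMonoid R] {f : A} {N k B Nx : ℕ} (h : SB f N k B)
    (hk : k < Nx) (n : ℕ) (g : ℕ → R) (hg : ∀ i, cf f n i = 0 → g i = 0) :
    ∑ i ∈ range (k + 1), g i = ∑ i ∈ range Nx, g i := by
  refine sum_subset (range_subset_range.2 hk) fun i _ hi => hg i (nrm_cf_zero h n ?_)
  rw [mem_range, not_lt] at hi
  exact hi

private theorem nrm_pow {w : ℕ} (hw : 2 ≤ w) {b : ℕ} (hb : b < 2 ^ (w - 1)) : b < 2 ^ w - 1 := by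
  have h1 : 2 ^ w = 2 * 2 ^ (w - 1) := by
    obtain ⟨v, rfl⟩ : ∃ v, w = v + 1 := ⟨w - 1, by omega⟩
    rw [Nat.add_sub_cancel, pow_succ, mul_comm]
  have h2 : 1 ≤ 2 ^ (w - 1) := Nat.one_le_two_pow
  omega

private theorem nrm_two {w : ℕ} (hw : 2 ≤ w) : 2 ≤ 2 ^ w := by
  calc 2 = 2 ^ 1 := (pow_one 2).symm
    _ ≤ 2 ^ w := Nat.pow_le_pow_right (by norm_num) (by omega)

private theorem nrm_l1 {f : A} {N k B Nx : ℕ} (h : SB f N k B) (hk : k < Nx) :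
    ∑ n ∈ range (N + 1), ∑ i ∈ range Nx, (cf f n i).natAbs = l1 f := by
  rw [l1_eq_sum h]
  refine sum_congr rfl fun n _ => (nrm_ext h hk n _ fun i hi => ?_).symm
  rw [hi, Int.natAbs_zero]

theorem zab_eq {f : A} {N k B w Nx : ℕ} (h : SB f N k B) (hk : k < Nx) (hw : 2 ≤ w)
    (hB : B < 2 ^ (w - 1)) :
    zab w Nx N (ev (2 ^ w) ((2 ^ w) ^ Nx) f) =
      ∑ n ∈ range (N + 1), ∑ i ∈ range Nx, (cf f n i).natAbs * (2 ^ w) ^ i * ((2 ^ w) ^ Nx) ^ n := by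
  have h1 : ev (2 ^ w) ((2 ^ w) ^ Nx) f =
      ∑ j ∈ range (Nx * (N + 1)), cf f (j / Nx) (j % Nx) * ((2 : ℤ) ^ w) ^ j := by
    rw [ev_eq_sum h, ← sum_flatten (N + 1) Nx ((2 : ℤ) ^ w) (fun n i => cf f n i)]
    refine sum_congr rfl fun n _ => ?_
    rw [nrm_ext h hk n _ fun i hi => by rw [hi, zero_mul, zero_mul]]
    refine sum_congr rfl fun i _ => ?_
    push_cast
    ring
  rw [zab, h1, absV_eq hw (Nx * (N + 1)) (fun j => cf f (j / Nx) (j % Nx)) (fun j => ?_)]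
  · exact (sum_flatten (N + 1) Nx (2 ^ w) (fun n i => (cf f n i).natAbs)).symm
  · have h2 : (cf f (j / Nx) (j % Nx)).natAbs < 2 ^ (w - 1) :=
      lt_of_le_of_lt ((natAbs_cf_le f _ _).trans h.2) hB
    rw [Int.abs_eq_natAbs]
    exact_mod_cast h2

theorem l1_eq_n0 {f : A} {N k B w Nx : ℕ} (h : SB f N k B) (hk : k < Nx) (hw : 2 ≤ w)
    (hB : B < 2 ^ (w - 1)) :
    l1 f = n0 (2 ^ w) (zab w Nx N (ev (2 ^ w) ((2 ^ w) ^ Nx) f)) := by
  rw [zab_eq h hk hw hB, n0_eq (nrm_two hw) (fun n i => (cf f n i).natAbs), nrm_l1 h hk]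
  rw [nrm_l1 h hk]
  exact nrm_pow hw (lt_of_le_of_lt h.2 hB)

theorem l1_dx_eq_nX {f : A} {N k B w Nx : ℕ} (h : SB f N k B) (hk : k < Nx) (hw : 2 ≤ w)
    (hB : (k + 1) * B < 2 ^ (w - 1)) :
    l1 (dx f) = nX (2 ^ w) Nx (zab w Nx N (ev (2 ^ w) ((2 ^ w) ^ Nx) f)) := by
  have hB1 : B < 2 ^ (w - 1) := lt_of_le_of_lt (Nat.le_mul_of_pos_left B (Nat.succ_pos k)) hB
  have h1 : ∑ n ∈ range (N + 1), ∑ i ∈ range Nx, i * (cf f n i).natAbs = l1 (dx f) := by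
    have h2 : ((∑ n ∈ range (N + 1), ∑ i ∈ range Nx, i * (cf f n i).natAbs : ℕ) : ℤ) =
        (l1 (dx f) : ℤ) := by
      rw [l1_dx_eq_sum h]
      push_cast
      refine sum_congr rfl fun n _ => ?_
      refine ((nrm_ext h hk n _ fun i hi => ?_).trans (sum_congr rfl fun i _ => ?_)).symm
      · rw [hi, abs_zero, mul_zero]
      · rfl
    exact_mod_cast h2
  rw [zab_eq h hk hw hB1, nX_eq (nrm_two hw) (lt_of_le_of_lt (Nat.zero_le k) hk)
    (fun n i => (cf f n i).natAbs), h1]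
  · rw [nrm_l1 h hk]
    exact nrm_pow hw (lt_of_le_of_lt h.2 hB1)
  · rw [h1]
    refine nrm_pow hw (lt_of_le_of_lt ?_ hB)
    calc l1 (dx f) ≤ k * l1 f := l1_dx_le h
      _ ≤ (k + 1) * B := Nat.mul_le_mul (Nat.le_succ k) h.2

theorem l1_D_eq_nD {f : A} {N k B w Nx M : ℕ} (h : SB f N k B) (hk : k < Nx) (hw : 2 ≤ w) (hM : M ≤ N)
    (hB : (N + 1) ^ 3 * B < 2 ^ (w - 1)) :
    ((l1 (D M f) : ℤ), (l1 (D M (D M f)) : ℤ), (l1 (D M (D M (D M f))) : ℤ)) =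
      nD (2 ^ w) Nx M (zab w Nx N (ev (2 ^ w) ((2 ^ w) ^ Nx) f)) := by
  have hB1 : B < 2 ^ (w - 1) :=
    lt_of_le_of_lt (Nat.le_mul_of_pos_left B (pow_pos (Nat.succ_pos N) 3)) hB
  have key : ∀ c : ℕ → ℤ, ∑ n ∈ range (N + 1), c n * ∑ i ∈ range (k + 1), |cf f n i| =
      ∑ n ∈ range (N + 1), ∑ i ∈ range Nx, c n * ((cf f n i).natAbs : ℤ) := by
    intro c
    refine sum_congr rfl fun n _ => ?_
    rw [nrm_ext h hk n _ fun i hi => by rw [hi, abs_zero], mul_sum]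
    refine sum_congr rfl fun i _ => ?_
    rw [Int.natCast_natAbs]
  rw [zab_eq h hk hw hB1, nD_eq (nrm_two hw) (lt_of_le_of_lt (Nat.zero_le k) hk)
    (hM.trans (Nat.le_succ N)) (fun n i => (cf f n i).natAbs), l1_D_eq_sum h, l1_D2_eq_sum h,
    l1_D3_eq_sum h, key fun n => |(n : ℤ) - M|, key fun n => |(n : ℤ) - M| ^ 2,
    key fun n => |(n : ℤ) - M| ^ 3]
  rw [nrm_l1 h hk]
  exact nrm_pow hw (lt_of_le_of_lt (Nat.mul_le_mul_left _ h.2) hB)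

end Pool.Agent.EM.Ck
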