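import Pool.Agent.EM.Ck.Match
import Pool.Agent.EM.EM22

/-!
# EM checker: the sign of the second coordinate of a curve given by a list of integers
-/

set_option autoImplicit false

open Polynomial
open scoped Real

namespace Pool.Agent.EM.Ck

/-- the coefficients of `cos (m θ)` of `∑ E_n cos ((n - ME) θ)` -/
def foldE (ME : ℕ) (E : List ℤ) : List ℤ := addL (E.drop ME) (0 :: (E.take ME).reverse)

theorem evck_append (s t : List ℤ) (k θ : ℝ) :
    evck (s ++ t) k θ = evck s k θ + evck t (k + s.length) θ := by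
  induction s generalizing k with
  | nil => simp [evck]
  | cons a s ih =>
    simp only [List.cons_append, evck, ih, List.length_cons]
    push_cast
    rw [show k + 1 + (s.length : ℝ) = k + (s.length + 1) by ring]
    ring

theorem evck_reverse (s : List ℤ) (k θ : ℝ) :
    evck s.reverse k θ = evck s (-(k + s.length - 1)) θ := by
  induction s generalizing k with
  | nil => simp [evck]
  | cons a s ih =>
    rw [List.reverse_cons, evck_append, ih]
    simp only [evck, List.length_cons, List.length_reverse]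
    push_cast
    rw [show -(k + (s.length + 1) - 1 : ℝ) + 1 = -(k + s.length - 1) by ring,
      show -(k + (s.length + 1) - 1 : ℝ) * θ = -((k + s.length) * θ) by ring, Real.cos_neg]
    ring

theorem evc_foldE {ME : ℕ} {E : List ℤ} (h : ME ≤ E.length) (θ : ℝ) :
    evc (foldE ME E) θ = evck E (-(ME : ℝ)) θ := by
  unfold evc foldE
  rw [evck_add]
  simp only [evck, Int.cast_zero, zero_mul, zero_add]
  rw [evck_reverse]
  conv_rhs => rw [← List.take_append_drop ME E]
  rw [evck_append, List.length_take, min_eq_left h]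
  rw [show -(ME : ℝ) + ME = 0 by ring, show -((1 : ℝ) + ME - 1) = -(ME : ℝ) by ring]
  ring

theorem re_hor (l : List ℤ) (k θ : ℝ) :
    (Complex.exp (k * (θ * Complex.I)) * hor (Complex.exp (θ * Complex.I))
      (l.map fun z : ℤ => (z : ℂ))).re = evck l k θ := by
  induction l generalizing k with
  | nil => simp [hor, evck]
  | cons a l ih =>
    simp only [List.map_cons, hor, evck]
    rw [← ih (k + 1), mul_add, Complex.add_re]
    congr 1
    · rw [show (k : ℂ) * (θ * Complex.I) = ((k * θ : ℝ) : ℂ) * Complex.I by push_cast; ring,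
        mul_comm, ← Complex.ofReal_intCast, Complex.re_ofReal_mul, Complex.exp_ofReal_mul_I_re]
    · rw [← mul_assoc, ← Complex.exp_add]
      congr 3
      push_cast
      ring

/-- the second coordinate of the curve -/
theorem im_fC (b : ℕ) {ME : ℕ} {E : List ℤ} (h : ME ≤ E.length) (θ : ℝ) :
    (fC b ME (mkA (E.map C)) θ 0).im = evc (foldE ME E) θ / 2 ^ b := by
  have e3 : (E.map C).map (anX 0) = E.map fun z : ℤ => (z : ℂ) := by
    rw [List.map_map]
    apply List.map_congr_left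
    intro c _
    simp [anX]
  have h1 := re_hor E (-(ME : ℝ)) θ
  rw [evc_foldE h, ← h1]
  unfold fC fn
  rw [an_mkA, e3]
  have h2 : ((-(ME : ℝ) : ℝ) : ℂ) = -(ME : ℂ) := by push_cast; rfl
  rw [h2]
  obtain ⟨z, hz⟩ : ∃ z : ℂ, z = Complex.exp (-(ME : ℂ) * (θ * Complex.I)) *
    hor (Complex.exp (θ * Complex.I)) (E.map fun z : ℤ => (z : ℂ)) := ⟨_, rfl⟩
  rw [← hz]
  have h3 : Complex.I / 2 ^ b * z = ((1 / 2 ^ b : ℝ) : ℂ) * (Complex.I * z) := by
    push_cast
    ring
  rw [h3, Complex.im_ofReal_mul]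
  simp only [Complex.mul_im, Complex.I_re, Complex.I_im, zero_mul, one_mul, zero_add]
  ring

/-- the curve is in the upper half-plane -/
theorem im_pos {b ME : ℕ} {E q : List ℤ} {eps : ℤ} (hl : ME ≤ E.length) (heps : 0 < eps)
    (h : chkPos (foldE ME E) q eps = true) {Q : ℝ} (hQ : 0 < Q) (θ : ℝ) :
    0 < (((Q ^ (1 / 4 : ℝ) : ℝ) : ℂ) * fC b ME (mkA (E.map C)) θ 0).im := by
  rw [Complex.im_ofReal_mul, im_fC b hl]
  have h1 := evc_ge h θ
  have h2 : (0 : ℝ) < eps := by exact_mod_cast heps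
  have h3 : 0 < Q ^ (1 / 4 : ℝ) := Real.rpow_pos_of_pos hQ _
  have h4 : 0 < evc (foldE ME E) θ := by linarith
  positivity

/-- the curve is in the lower half-plane, at a distance of more than `Wo` from the real axis -/
theorem im_neg {b ME : ℕ} {E q : List ℤ} {eps : ℤ} (hl : ME ≤ E.length) (heps : 0 < eps)
    (h : chkNeg (foldE ME E) q eps = true) {Q l0 Wo : ℝ} (hl0 : 0 < l0) (hQ : l0 ^ 4 ≤ Q)
    (hWo : Wo * 2 ^ b < l0 * eps) (θ : ℝ) :
    (((Q ^ (1 / 4 : ℝ) : ℝ) : ℂ) * fC b ME (mkA (E.map C)) θ 0).im < -Wo := by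
  rw [Complex.im_ofReal_mul, im_fC b hl]
  have h1 := evc_le h θ
  have h2 : (0 : ℝ) < eps := by exact_mod_cast heps
  have h3 : l0 ≤ Q ^ (1 / 4 : ℝ) := by
    have h4 : (l0 ^ 4) ^ (1 / 4 : ℝ) = l0 := by
      rw [← Real.rpow_natCast, ← Real.rpow_mul hl0.le]
      norm_num
    rw [← h4]
    exact Real.rpow_le_rpow (by positivity) hQ (by norm_num)
  have hb : (0 : ℝ) < 2 ^ b := by positivity
  have h5 : Wo < l0 * eps / 2 ^ b := (lt_div_iff₀ hb).2 hWo
  have h6 : Q ^ (1 / 4 : ℝ) * (evc (foldE ME E) θ / 2 ^ b) ≤ l0 * (-(eps : ℝ) / 2 ^ b) := by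
    have h7 : evc (foldE ME E) θ / 2 ^ b ≤ -(eps : ℝ) / 2 ^ b :=
      div_le_div_of_nonneg_right h1 hb.le
    have h8 : -(eps : ℝ) / 2 ^ b ≤ 0 := by
      rw [neg_div]
      have : 0 < (eps : ℝ) / 2 ^ b := by positivity
      linarith
    have h9 : 0 ≤ Q ^ (1 / 4 : ℝ) := hl0.le.trans h3
    calc Q ^ (1 / 4 : ℝ) * (evc (foldE ME E) θ / 2 ^ b) ≤
        Q ^ (1 / 4 : ℝ) * (-(eps : ℝ) / 2 ^ b) := mul_le_mul_of_nonneg_left h7 h9
      _ ≤ l0 * (-(eps : ℝ) / 2 ^ b) := mul_le_mul_of_nonpos_right h3 h8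
  have h10 : l0 * (-(eps : ℝ) / 2 ^ b) = -(l0 * eps / 2 ^ b) := by ring
  linarith

end Pool.Agent.EM.Ck
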