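import Pool.Agent.EM.Ck.Check
import Pool.Agent.EM.Ck.MatchD
import Pool.Agent.EM.EM23

/-!
# EM checker: one interval of the chain from its data
-/

set_option autoImplicit false

open Polynomial
open scoped Real

namespace Pool.Agent.EM.Ck

open Pool.Agent.EM

/-- the curves and the values of `P` at the two ends of the interval -/
def XData.chkM (d : XData) (B : ℕ) (N N' : ND) : Bool :=
  chkMD d.w d.nx d.SC false B d.M N.ME d.cB N.E && chkMD d.w d.nx d.SC true B d.M N'.ME d.cB N'.E &&
  decide (horZ (-1) d.p = N.Q) && decide (horZ 1 d.p = N'.Q)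

/-- **One interval.** -/
theorem reach_x {d : XData} {r : RNum} {N N' : ND} {B : ℕ} (hd : d.chk = true) (hx : d.x = r.x)
    (hr : r.chk = true) (hm : d.chkM B N N' = true) : Reach (nA d.b d.bP r N) (nB d.b d.bP r N') := by
  unfold XData.chkM at hm
  rw [Bool.and_eq_true, Bool.and_eq_true, Bool.and_eq_true] at hm
  obtain ⟨⟨⟨h1, h2⟩, h3⟩, h4⟩ := hm
  have hX := d.xfacts hd
  rw [hx] at hX
  refine reach_nd hr hX (fun θ => ?_) (fun θ => ?_) ?_ ?_
  · have := fC_matchD (b := d.b) h1 θ
    rw [show (((xE false : ℤ)) : ℝ) = -1 by norm_num [xE]] at this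
    exact this
  · have := fC_matchD (b := d.b) h2 θ
    rw [show (((xE true : ℤ)) : ℝ) = 1 by norm_num [xE]] at this
    exact this
  · have := fP_matchD (b := d.bP) h3
    rw [show (((-1 : ℤ)) : ℝ) = -1 by norm_num] at this
    exact this
  · have := fP_matchD (b := d.bP) h4
    rw [show (((1 : ℤ)) : ℝ) = 1 by norm_num] at this
    exact this

end Pool.Agent.EM.Ck
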