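import Pool.Agent.EM.Ck.Fn

/-!
# EM checker, CK-7: calculus of real functions given by trigonometric polynomials

`Rep g c M f : ∀ θ x, (g θ x : ℂ) = c * fn M f θ x`; `Rep2` for pairs.
-/

set_option autoImplicit false

open scoped Real ContDiff
open Polynomial

namespace Pool.Agent.EM.Ck

open Pool.Agent.helper19.EL

variable {g g' : ℝ → ℝ → ℝ} {c c' : ℂ} {M M' : ℕ} {f f' : A} {F F' : A × A}

theorem Rep.re (h : Rep g c M f) (θ x : ℝ) : g θ x = (c * fn M f θ x).re := by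
  rw [← h θ x, Complex.ofReal_re]

theorem Rep.abs_le (h : Rep g c M f) (θ : ℝ) {x : ℝ} (hx : x ∈ Set.Icc (-1 : ℝ) 1) :
    |g θ x| ≤ ‖c‖ * l1 f := by
  have h1 : |g θ x| = ‖(g θ x : ℂ)‖ := by rw [Complex.norm_real, Real.norm_eq_abs]
  rw [h1, h θ x, norm_mul]
  exact mul_le_mul_of_nonneg_left (norm_fn_le M f θ hx) (norm_nonneg _)

theorem hasDerivAt_re_of {G : ℝ → ℝ} {F F1 : ℝ → ℂ} {t : ℝ} (hG : ∀ s, (G s : ℂ) = F s)
    (hF : HasDerivAt F (F1 t) t) : HasDerivAt G (F1 t).re t ∧ ((F1 t).im = 0) := by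
  have e1 : G = fun s => (F s).re := by
    funext s
    rw [← hG s, Complex.ofReal_re]
  have e2 : (fun s => (F s).im) = fun _ => (0 : ℝ) := by
    funext s
    rw [← hG s, Complex.ofReal_im]
  have h1 : HasDerivAt (fun s => (F s).re) (F1 t).re t :=
    (Complex.reCLM.hasFDerivAt.comp_hasDerivAt t hF)
  have h2 : HasDerivAt (fun s => (F s).im) (F1 t).im t :=
    (Complex.imCLM.hasFDerivAt.comp_hasDerivAt t hF)
  refine ⟨by rw [e1]; exact h1, ?_⟩
  rw [e2] at h2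
  exact h2.unique (hasDerivAt_const t (0 : ℝ))

theorem deriv_ofReal_of {G : ℝ → ℝ} {F F1 : ℝ → ℂ} {t : ℝ} (hG : ∀ s, (G s : ℂ) = F s)
    (hF : HasDerivAt F (F1 t) t) : ((deriv G t : ℝ) : ℂ) = F1 t := by
  obtain ⟨h1, h2⟩ := hasDerivAt_re_of (F1 := F1) hG hF
  rw [h1.deriv]
  apply Complex.ext
  · rw [Complex.ofReal_re]
  · rw [Complex.ofReal_im, h2]

theorem Rep.dpu (h : Rep g c M f) : Rep (pu g) (c * Complex.I) M (D M f) := by
  intro θ x
  have h1 := deriv_ofReal_of (G := fun θ' => g θ' x) (F := fun θ' => c * fn M f θ' x)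
    (F1 := fun θ' => c * (Complex.I * fn M (D M f) θ' x)) (t := θ) (fun s => h s x)
    ((hasDerivAt_fn_θ M f θ x).const_mul c)
  show ((deriv (fun θ' => g θ' x) θ : ℝ) : ℂ) = _
  rw [h1]
  ring

theorem Rep.dpt (h : Rep g c M f) : Rep (pt g) c M (dx f) := by
  intro θ x
  have h1 := deriv_ofReal_of (G := fun x' => g θ x') (F := fun x' => c * fn M f θ x')
    (F1 := fun x' => c * fn M (dx f) θ x') (t := x) (fun s => h θ s)
    ((hasDerivAt_fn_x M f θ x).const_mul c)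
  show ((deriv (fun x' => g θ x') x : ℝ) : ℂ) = _
  rw [h1]

theorem Rep.contDiff (h : Rep g c M f) : ContDiff ℝ ∞ fun p : ℝ × ℝ => g p.1 p.2 := by
  have e1 : (fun p : ℝ × ℝ => g p.1 p.2) = fun p => (c * fn M f p.1 p.2).re := by
    funext p
    exact h.re p.1 p.2
  rw [e1]
  exact Complex.reCLM.contDiff.comp (contDiff_const.mul (contDiff_fn M f))

theorem Rep.per (h : Rep g c M f) (θ x : ℝ) : g (θ + 2 * π) x = g θ x := by
  rw [h.re, h.re, fn_per]

theorem Rep.mul (h : Rep g c M f) (h' : Rep g' c' M' f') :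
    Rep (fun θ x => g θ x * g' θ x) (c * c') (M + M') (f * f') := by
  intro θ x
  rw [Complex.ofReal_mul, h θ x, h' θ x, fn_mul]
  ring

theorem Rep.add (h : Rep g c M f) (h' : Rep g' c M f') : Rep (fun θ x => g θ x + g' θ x) c M (f + f') := by
  intro θ x
  rw [Complex.ofReal_add, h θ x, h' θ x, fn_add]
  ring

theorem Rep.sub (h : Rep g c M f) (h' : Rep g' c M f') : Rep (fun θ x => g θ x - g' θ x) c M (f - f') := by
  intro θ x
  rw [Complex.ofReal_sub, h θ x, h' θ x, fn_sub]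
  ring

theorem Rep.shift (h : Rep g c M f) (j : ℕ) : Rep g c (M + j) (X ^ j * f) := by
  intro θ x
  rw [fn_shift, h θ x]

/-- change the constant: `c z = c'` -/
theorem Rep.scale (h : Rep g c' M f) (z : ℤ) (hz : c * z = c') : Rep g c M ((z : A) * f) := by
  intro θ x
  rw [fn_int_mul, h θ x, ← hz]
  ring

theorem Rep.const_mul (h : Rep g c M f) (r : ℝ) : Rep (fun θ x => r * g θ x) (r * c) M f := by
  intro θ x
  rw [Complex.ofReal_mul, h θ x]
  ring

/-- the function `fR` of a polynomial whose values are real -/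
theorem rep_fR {b M : ℕ} {f : A} (h : ∀ θ x, (fn M f θ x).im = 0) : Rep (fR b M f) (1 / 2 ^ b) M f := by
  intro θ x
  unfold fR
  have h1 : ((fn M f θ x).re : ℂ) = fn M f θ x := by
    apply Complex.ext
    · rw [Complex.ofReal_re]
    · rw [Complex.ofReal_im, h θ x]
  push_cast
  rw [h1]
  ring

theorem Rep.rep2 (h : Rep g c M f) : Rep2 g c M (f, 0) := by
  intro θ x
  have h0 : fn M 0 θ x = 0 := by
    unfold fn
    rw [map_zero, mul_zero]
  show _ = c * (fn M f θ x + Complex.I * fn M 0 θ x)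
  rw [h0, h θ x]
  ring

theorem norm_fn2_le (M : ℕ) (F : A × A) (θ : ℝ) {x : ℝ} (hx : x ∈ Set.Icc (-1 : ℝ) 1) :
    ‖fn2 M F θ x‖ ≤ l1 F.1 + l1 F.2 := by
  unfold fn2
  refine (norm_add_le _ _).trans ?_
  rw [norm_mul, Complex.norm_I, one_mul]
  exact add_le_add (norm_fn_le M _ θ hx) (norm_fn_le M _ θ hx)

theorem Rep2.abs_le (h : Rep2 g c M F) (θ : ℝ) {x : ℝ} (hx : x ∈ Set.Icc (-1 : ℝ) 1) :
    |g θ x| ≤ ‖c‖ * (l1 F.1 + l1 F.2) := by
  have h1 : |g θ x| = ‖(g θ x : ℂ)‖ := by rw [Complex.norm_real, Real.norm_eq_abs]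
  rw [h1, h θ x, norm_mul]
  exact mul_le_mul_of_nonneg_left (norm_fn2_le M F θ hx) (norm_nonneg _)

theorem hasDerivAt_fn2_θ (M : ℕ) (F : A × A) (θ x : ℝ) :
    HasDerivAt (fun θ => fn2 M F θ x) (fn2 M (D2 M F) θ x) θ := by
  have h1 := (hasDerivAt_fn_θ M F.1 θ x).add ((hasDerivAt_fn_θ M F.2 θ x).const_mul Complex.I)
  refine h1.congr_deriv ?_
  show _ = fn M (-D M F.2) θ x + Complex.I * fn M (D M F.1) θ x
  rw [fn_neg]
  linear_combination (fn M (D M F.2) θ x) * Complex.I_mul_I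

theorem Rep2.dpu (h : Rep2 g c M F) : Rep2 (pu g) c M (D2 M F) := by
  intro θ x
  have h1 := deriv_ofReal_of (G := fun θ' => g θ' x) (F := fun θ' => c * fn2 M F θ' x)
    (F1 := fun θ' => c * fn2 M (D2 M F) θ' x) (t := θ) (fun s => h s x)
    ((hasDerivAt_fn2_θ M F θ x).const_mul c)
  show ((deriv (fun θ' => g θ' x) θ : ℝ) : ℂ) = _
  rw [h1]

theorem Rep2.re (h : Rep2 g c M F) (θ x : ℝ) : g θ x = (c * fn2 M F θ x).re := by
  rw [← h θ x, Complex.ofReal_re]

theorem Rep2.contDiff (h : Rep2 g c M F) : ContDiff ℝ ∞ fun p : ℝ × ℝ => g p.1 p.2 := by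
  have e1 : (fun p : ℝ × ℝ => g p.1 p.2) = fun p => (c * fn2 M F p.1 p.2).re := by
    funext p
    exact h.re p.1 p.2
  rw [e1]
  refine Complex.reCLM.contDiff.comp (contDiff_const.mul ?_)
  unfold fn2
  exact (contDiff_fn M _).add (contDiff_const.mul (contDiff_fn M _))

theorem Rep2.per (h : Rep2 g c M F) (θ x : ℝ) : g (θ + 2 * π) x = g θ x := by
  rw [h.re, h.re]
  unfold fn2
  rw [fn_per, fn_per]

theorem fn2_mul (M M' : ℕ) (F F' : A × A) (θ x : ℝ) :
    fn2 (M + M') (mul2 F F') θ x = fn2 M F θ x * fn2 M' F' θ x := by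
  unfold fn2 mul2
  rw [fn_sub, fn_add, fn_mul, fn_mul, fn_mul, fn_mul]
  linear_combination (-(fn M F.2 θ x * fn M' F'.2 θ x)) * Complex.I_mul_I

theorem Rep2.mul (h : Rep2 g c M F) (h' : Rep2 g' c' M' F') :
    Rep2 (fun θ x => g θ x * g' θ x) (c * c') (M + M') (mul2 F F') := by
  intro θ x
  rw [Complex.ofReal_mul, h θ x, h' θ x, fn2_mul]
  ring

theorem Rep2.add (h : Rep2 g c M F) (h' : Rep2 g' c M F') : Rep2 (fun θ x => g θ x + g' θ x) c M (F + F') := by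
  intro θ x
  rw [Complex.ofReal_add, h θ x, h' θ x]
  unfold fn2
  rw [Prod.fst_add, Prod.snd_add, fn_add, fn_add]
  ring

theorem Rep2.sub (h : Rep2 g c M F) (h' : Rep2 g' c M F') : Rep2 (fun θ x => g θ x - g' θ x) c M (F - F') := by
  intro θ x
  rw [Complex.ofReal_sub, h θ x, h' θ x]
  unfold fn2
  rw [Prod.fst_sub, Prod.snd_sub, fn_sub, fn_sub]
  ring

theorem Rep2.shift (h : Rep2 g c M F) (j : ℕ) : Rep2 g c (M + j) (X ^ j * F.1, X ^ j * F.2) := by
  intro θ x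
  rw [h θ x]
  unfold fn2
  rw [fn_shift, fn_shift]

theorem Rep2.scale (h : Rep2 g c' M F) (z : ℤ) (hz : c * z = c') :
    Rep2 g c M ((z : A) * F.1, (z : A) * F.2) := by
  intro θ x
  rw [h θ x, ← hz]
  unfold fn2
  rw [fn_int_mul, fn_int_mul]
  ring

/-- the function `fa` of a pair whose values are real -/
theorem rep2_fa {b M : ℕ} {F : A × A} (h1 : ∀ θ x, (fn M F.1 θ x).im = 0) (h2 : ∀ θ x, (fn M F.2 θ x).re = 0) :
    Rep2 (fa b M F) (1 / 2 ^ b) M F := by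
  intro θ x
  unfold fa
  have h3 : ((fn2 M F θ x).re : ℂ) = fn2 M F θ x := by
    apply Complex.ext
    · rw [Complex.ofReal_re]
    · rw [Complex.ofReal_im]
      unfold fn2
      rw [Complex.add_im, Complex.mul_im, Complex.I_re, Complex.I_im, h1, h2]
      ring
  push_cast
  rw [h3]
  ring

end Pool.Agent.EM.Ck
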